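import Pool.Agent.H49.PP.Nodes
import Pool.Agent.H49.AB.GW

/-!
# JOB PP-11. A popular word

Let `M = card (cls a b) ≥ 1`, `ℓ = ‖W‖_3 ≤ 1/2`. At least half of the `w ∈ cls a b` satisfy `‖off w‖_2² ≤ 100` (Markov), so `‖off w‖_2 ≤ 10`; call this set `X`. All
`‖off w‖_3 ≤ 6` (`off3_bound`). Send `w ∈ X` to the pair of integers `(⌊(off w).2.2.re / ℓ⌋, ⌊(off w).2.2.im / ℓ⌋)`; the image lies in a set of at most `(12/ℓ + 2)² ≤ (13/ℓ)²`
pairs (`|re|, |im| ≤ 6`, `ℓ ≤ 1/2`). Pigeonhole (`Finset.exists_le_card_fiber_of_mul_le_card_of_maps_to` or by contradiction with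
`Finset.card_eq_sum_card_fiberwise`): a fibre `Z ⊆ X` has `card Z ≥ (M/2) ℓ²/169`. If `M ≥ 1` then `Z` is not empty; let `w0 ∈ Z`. Let `y` satisfy
`(1 - W) y = off w0`. Second place: `‖1 - W_2‖ ≥ 1/2`, so `‖y‖_2 ≤ 20`, and `‖y - off w‖_2 ≤ 30` for `w ∈ Z`. Third place: `y_3 - (off w0)_3 = W_3 y_3`, `‖y_3‖ ≤ 12`, so
`‖y - off w0‖_3 ≤ 12 ℓ`, and `‖off w0 - off w‖_3 ≤ 2 ℓ` for `w ∈ Z` (same box of side `ℓ`), so `‖y - off w‖_3 ≤ 14 ℓ`. By `gs_gw` with `R = ‖W‖_2⁻¹`, `Q = 1`: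
`gs R 1 (gw w y) = exp(-π(‖y - off w‖_2²/1 + ‖y - off w‖_3²/ℓ²)) ≥ exp(-π(900 + 196))`. So `c = exp(-1096 π)/338`.
-/

set_option autoImplicit false

namespace Pool.Agent.H49.PP

open Pool.Agent.H67.Tent Pool.Agent.H49.AB Finset

theorem BaseBox_floor {x ℓ : ℝ} (hℓ : 0 < ℓ) {k : ℕ} (hk : 6 / ℓ ≤ k) (hx : |x| ≤ 6) :
    ⌊x / ℓ⌋ ∈ Finset.Icc (-(k : ℤ)) (k : ℤ) := by
  have h1 : |x / ℓ| ≤ k := by
    rw [abs_div, abs_of_pos hℓ]
    exact (div_le_div_of_nonneg_right hx hℓ.le).trans hk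
  rw [abs_le] at h1
  rw [Finset.mem_Icc]
  constructor
  · rw [Int.le_floor]
    push_cast
    exact h1.1
  · have h2 : ((⌊x / ℓ⌋ : ℤ) : ℝ) ≤ (k : ℝ) := (Int.floor_le _).trans h1.2
    exact_mod_cast h2

theorem BaseBox_diff {x x' ℓ : ℝ} (hℓ : 0 < ℓ) (h : ⌊x / ℓ⌋ = ⌊x' / ℓ⌋) : |x - x'| ≤ ℓ := by
  have h1 : |x / ℓ - x' / ℓ| < 1 := Int.abs_sub_lt_one_of_floor_eq_floor h
  rw [← sub_div, abs_div, abs_of_pos hℓ, div_lt_one hℓ] at h1
  exact h1.le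

/-- Half of the words have a small offset. -/
theorem BaseBox_half (s : Finset (List Bool)) (g : List Bool → ℝ) (h0 : ∀ w, 0 ≤ g w)
    (h : ∑ w ∈ s, g w ^ 2 ≤ 50 * s.card) :
    (s.card : ℝ) / 2 ≤ (s.filter fun w => g w ≤ 10).card := by
  classical
  have h1 : ((s.filter fun w => ¬ g w ≤ 10).card : ℝ) * 100 ≤ ∑ w ∈ s, g w ^ 2 := by
    calc ((s.filter fun w => ¬ g w ≤ 10).card : ℝ) * 100
        = ∑ w ∈ s.filter fun w => ¬ g w ≤ 10, (100 : ℝ) := by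
          rw [Finset.sum_const, nsmul_eq_mul]
      _ ≤ ∑ w ∈ s.filter fun w => ¬ g w ≤ 10, g w ^ 2 := by
          apply Finset.sum_le_sum
          intro w hw
          have := (Finset.mem_filter.1 hw).2
          push Not at this
          nlinarith
      _ ≤ ∑ w ∈ s, g w ^ 2 :=
          Finset.sum_le_sum_of_subset_of_nonneg (Finset.filter_subset _ _)
            fun w _ _ => sq_nonneg _
  have h2 : ((s.filter fun w => g w ≤ 10).card : ℝ) +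
      ((s.filter fun w => ¬ g w ≤ 10).card : ℝ) = s.card := by
    exact_mod_cast Finset.card_filter_add_card_filter_not (s := s) (fun w => g w ≤ 10)
  linarith

/-- Pigeonhole. -/
theorem BaseBox_pigeon {X : Finset (List Bool)} {t : Finset (ℤ × ℤ)} (φ : List Bool → ℤ × ℤ)
    (hφ : ∀ w ∈ X, φ w ∈ t) {m : ℝ} (hm : 0 < m) (hX : (t.card : ℝ) * m ≤ X.card)
    (ht : t.Nonempty) : ∃ p ∈ t, m ≤ ((X.filter fun w => φ w = p).card : ℝ) := by
  classical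
  by_contra hcon
  push Not at hcon
  have h1 := Finset.card_eq_sum_card_fiberwise (s := X) (t := t) (f := φ) hφ
  have h2 : (X.card : ℝ) = ∑ p ∈ t, ((X.filter fun w => φ w = p).card : ℝ) := by
    exact_mod_cast h1
  have h3 : ∑ p ∈ t, ((X.filter fun w => φ w = p).card : ℝ) < ∑ _p ∈ t, m :=
    Finset.sum_lt_sum_of_nonempty ht hcon
  rw [Finset.sum_const, nsmul_eq_mul] at h3
  linarith

/-- The values of `y` from the equation of the fixed point. -/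
theorem BaseBox_sol {u y o : ℂ} (hu : ‖u‖ ≤ 1 / 2) (h : (1 - u) * y = o) : ‖y‖ ≤ 2 * ‖o‖ := by
  have h1 : ‖(1 : ℂ) - u‖ ≥ 1 / 2 := by
    have := norm_sub_norm_le (1 : ℂ) u
    rw [norm_one] at this
    linarith
  have h2 : ‖(1 : ℂ) - u‖ * ‖y‖ = ‖o‖ := by rw [← norm_mul, h]
  nlinarith [norm_nonneg y]

theorem base_box (S : Sys2) : ∃ c : ℝ, 0 < c ∧ ∀ a b : ℕ, ‖(W S a b).2.1‖ ≤ 1 / 2 →
    ‖(W S a b).2.2‖ ≤ 1 / 2 →
    ∑ w ∈ cls a b, ‖(off S.toSys 1 w).2.1‖ ^ 2 ≤ 50 * (cls a b).card →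
    ∃ w0 ∈ cls a b, ∀ y : E, (1 - W S a b) * y = off S.toSys 1 w0 →
      c * ((cls a b).card * ‖(W S a b).2.2‖ ^ 2) ≤
        ∑ w ∈ cls a b, gs (‖(W S a b).2.1‖)⁻¹ 1 (gw S 1 w y) := by
  classical
  refine ⟨Real.exp (-(Real.pi * 1096)) / 392, by positivity, ?_⟩
  intro a b hW2 hW3 hsum
  have hℓ : 0 < ‖(W S a b).2.2‖ := W3_pos S a b
  have hl2 : 0 < ‖(W S a b).2.1‖ := W2_pos S a b
  have hMpos : (0 : ℝ) < (cls a b).card := by
    rw [card_cls]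
    exact_mod_cast Nat.choose_pos (Nat.le_add_left b a)
  generalize hM : ((cls a b).card : ℝ) = M at *
  generalize hℓe : ‖(W S a b).2.2‖ = ℓ at *
  set X := (cls a b).filter fun w => ‖(off S.toSys 1 w).2.1‖ ≤ 10 with hXdef
  have hXcard : M / 2 ≤ (X.card : ℝ) := by
    have := BaseBox_half (cls a b) (fun w => ‖(off S.toSys 1 w).2.1‖) (fun w => norm_nonneg _)
      (by rw [hM]; exact hsum)
    rw [hM] at this
    exact this
  have hoff3 : ∀ w : List Bool, ‖(off S.toSys 1 w).2.2‖ ≤ 6 := by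
    intro w
    have := off3_bound S 1 w
    simpa using this
  let k : ℕ := ⌈6 / ℓ⌉₊
  have hk : 6 / ℓ ≤ k := Nat.le_ceil _
  have hk2 : (k : ℝ) < 6 / ℓ + 1 := Nat.ceil_lt_add_one (by positivity)
  let t : Finset (ℤ × ℤ) := Finset.Icc (-(k : ℤ)) (k : ℤ) ×ˢ Finset.Icc (-(k : ℤ)) (k : ℤ)
  have htc : (t.card : ℝ) ≤ 196 / ℓ ^ 2 := by
    have h1 : (t.card : ℝ) = (2 * k + 1) ^ 2 := by
      have h2 : t.card = (2 * k + 1) * (2 * k + 1) := by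
        show (Finset.Icc (-(k : ℤ)) (k : ℤ) ×ˢ Finset.Icc (-(k : ℤ)) (k : ℤ)).card = _
        rw [Finset.card_product, Int.card_Icc]
        have : ((k : ℤ) + 1 - -(k : ℤ)).toNat = 2 * k + 1 := by omega
        rw [this]
      rw [h2]
      push_cast
      ring
    rw [h1]
    have h3 : (2 * (k : ℝ) + 1) ≤ 14 / ℓ := by
      have h4 : (3 : ℝ) ≤ 2 / ℓ := by
        rw [le_div_iff₀ hℓ]
        linarith
      have h5 : (14 : ℝ) / ℓ = 2 * (6 / ℓ) + 2 / ℓ := by ring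
      rw [h5]
      linarith
    calc (2 * (k : ℝ) + 1) ^ 2 ≤ (14 / ℓ) ^ 2 := pow_le_pow_left₀ (by positivity) h3 2
      _ = 196 / ℓ ^ 2 := by rw [div_pow]; norm_num
  have htn : t.Nonempty := ⟨(0, 0), by
    show (0, 0) ∈ Finset.Icc (-(k : ℤ)) (k : ℤ) ×ˢ Finset.Icc (-(k : ℤ)) (k : ℤ)
    rw [Finset.mem_product, Finset.mem_Icc]
    simp⟩
  let φ : List Bool → ℤ × ℤ := fun w =>
    (⌊(off S.toSys 1 w).2.2.re / ℓ⌋, ⌊(off S.toSys 1 w).2.2.im / ℓ⌋)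
  have hφ : ∀ w ∈ X, φ w ∈ t := by
    intro w _
    show (⌊(off S.toSys 1 w).2.2.re / ℓ⌋, ⌊(off S.toSys 1 w).2.2.im / ℓ⌋) ∈
      Finset.Icc (-(k : ℤ)) (k : ℤ) ×ˢ Finset.Icc (-(k : ℤ)) (k : ℤ)
    rw [Finset.mem_product]
    exact ⟨BaseBox_floor hℓ hk ((Complex.abs_re_le_norm _).trans (hoff3 w)),
      BaseBox_floor hℓ hk ((Complex.abs_im_le_norm _).trans (hoff3 w))⟩
  have hm : 0 < M / 2 * ℓ ^ 2 / 196 := by positivity
  obtain ⟨p, -, hp⟩ := BaseBox_pigeon φ hφ hm (by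
    calc (t.card : ℝ) * (M / 2 * ℓ ^ 2 / 196) ≤ (196 / ℓ ^ 2) * (M / 2 * ℓ ^ 2 / 196) :=
          mul_le_mul_of_nonneg_right htc hm.le
      _ = M / 2 := by field_simp
      _ ≤ X.card := hXcard) htn
  have hZ : (X.filter fun w => φ w = p).Nonempty := by
    rw [← Finset.card_pos]
    have : (0 : ℝ) < ((X.filter fun w => φ w = p).card : ℝ) := hm.trans_le hp
    exact_mod_cast this
  obtain ⟨w0, hw0⟩ := hZ
  have hw0X := (Finset.mem_filter.1 hw0).1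
  have hw0p := (Finset.mem_filter.1 hw0).2
  refine ⟨w0, (Finset.mem_filter.1 hw0X).1, ?_⟩
  intro y hy
  have hy2 : (1 - (W S a b).2.1) * y.2.1 = (off S.toSys 1 w0).2.1 :=
    congrArg (fun z : E => z.2.1) hy
  have hy3 : (1 - (W S a b).2.2) * y.2.2 = (off S.toSys 1 w0).2.2 :=
    congrArg (fun z : E => z.2.2) hy
  have h02 : ‖(off S.toSys 1 w0).2.1‖ ≤ 10 := (Finset.mem_filter.1 hw0X).2
  have hy2n : ‖y.2.1‖ ≤ 20 := by
    have := BaseBox_sol hW2 hy2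
    linarith
  have hy3n : ‖y.2.2‖ ≤ 12 := by
    have := BaseBox_sol (by rw [hℓe]; exact hW3) hy3
    have := hoff3 w0
    linarith
  have hy3d : ‖y.2.2 - (off S.toSys 1 w0).2.2‖ ≤ 12 * ℓ := by
    have e : y.2.2 - (off S.toSys 1 w0).2.2 = (W S a b).2.2 * y.2.2 := by
      rw [← hy3]; ring
    rw [e, norm_mul, hℓe, mul_comm]
    exact mul_le_mul_of_nonneg_right hy3n hℓ.le
  have hterm : ∀ w ∈ X.filter (fun w => φ w = p),
      Real.exp (-(Real.pi * 1096)) ≤ gs (‖(W S a b).2.1‖)⁻¹ 1 (gw S 1 w y) := by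
    intro w hw
    have hwX := (Finset.mem_filter.1 hw).1
    have hwp := (Finset.mem_filter.1 hw).2
    have hwc : w ∈ cls a b := (Finset.mem_filter.1 hwX).1
    have hw2 : ‖(off S.toSys 1 w).2.1‖ ≤ 10 := (Finset.mem_filter.1 hwX).2
    have hpp : φ w0 = φ w := hw0p.trans hwp.symm
    have d1 : |(off S.toSys 1 w0).2.2.re - (off S.toSys 1 w).2.2.re| ≤ ℓ :=
      BaseBox_diff hℓ (congrArg Prod.fst hpp)
    have d2 : |(off S.toSys 1 w0).2.2.im - (off S.toSys 1 w).2.2.im| ≤ ℓ :=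
      BaseBox_diff hℓ (congrArg Prod.snd hpp)
    have d3 : ‖(off S.toSys 1 w0).2.2 - (off S.toSys 1 w).2.2‖ ≤ 2 * ℓ := by
      refine (Complex.norm_le_abs_re_add_abs_im _).trans ?_
      rw [Complex.sub_re, Complex.sub_im]
      linarith
    have d4 : ‖y.2.2 - (off S.toSys 1 w).2.2‖ ≤ 14 * ℓ := by
      have e : y.2.2 - (off S.toSys 1 w).2.2 = (y.2.2 - (off S.toSys 1 w0).2.2) +
        ((off S.toSys 1 w0).2.2 - (off S.toSys 1 w).2.2) := by ring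
      rw [e]
      refine (norm_add_le _ _).trans ?_
      linarith
    have d5 : ‖y.2.1 - (off S.toSys 1 w).2.1‖ ≤ 30 := by
      refine (norm_sub_le _ _).trans ?_
      linarith
    rw [gs_gw S 1 _ _ hwc y, Real.exp_le_exp, neg_le_neg_iff]
    refine mul_le_mul_of_nonneg_left ?_ Real.pi_pos.le
    rw [inv_mul_cancel₀ hl2.ne', one_pow, div_one, one_mul, hℓe]
    have e1 : ‖y.2.1 - (off S.toSys 1 w).2.1‖ ^ 2 ≤ 30 ^ 2 :=
      pow_le_pow_left₀ (norm_nonneg _) d5 2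
    have e2 : ‖y.2.2 - (off S.toSys 1 w).2.2‖ ^ 2 / ℓ ^ 2 ≤ 14 ^ 2 := by
      rw [div_le_iff₀ (by positivity), ← mul_pow]
      exact pow_le_pow_left₀ (norm_nonneg _) d4 2
    linarith
  calc Real.exp (-(Real.pi * 1096)) / 392 * (M * ℓ ^ 2)
      = (M / 2 * ℓ ^ 2 / 196) * Real.exp (-(Real.pi * 1096)) := by ring
    _ ≤ ((X.filter fun w => φ w = p).card : ℝ) * Real.exp (-(Real.pi * 1096)) :=
        mul_le_mul_of_nonneg_right hp (Real.exp_pos _).le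
    _ = ∑ w ∈ X.filter (fun w => φ w = p), Real.exp (-(Real.pi * 1096)) := by
        rw [Finset.sum_const, nsmul_eq_mul]
    _ ≤ ∑ w ∈ X.filter (fun w => φ w = p), gs (‖(W S a b).2.1‖)⁻¹ 1 (gw S 1 w y) :=
        Finset.sum_le_sum hterm
    _ ≤ ∑ w ∈ cls a b, gs (‖(W S a b).2.1‖)⁻¹ 1 (gw S 1 w y) :=
        Finset.sum_le_sum_of_subset_of_nonneg
          ((Finset.filter_subset _ _).trans (Finset.filter_subset _ _))
          fun w _ _ => (gs_pos _ _ _).le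

end Pool.Agent.H49.PP
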