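import Pool.Agent.H49.PP.Nodes
import Pool.Agent.H49.AB.GW

/-!
# JOB PP-12. The periodic point of a word

Let `w ∈ cls a b`, `a, b ≥ 1`, `‖W‖_2, ‖W‖_3 ≤ 1/2`; `|W.1| = α^a β^b > 1`. All components of `1 - W` are nonzero; `y = (1 - W)⁻¹ off w` (componentwise), so
`(1 - W) y = off w`, `W⁻¹ (y - off w) = y`, that is `gw w y = y` (`gw_eq`, `mul_cls`).
First coordinate: `y.1 = (off w).1/(1 - W.1)`. The map `g(t) = (t - (off w).1)/W.1` is the first coordinate of `gw w`; it maps `[0,1]` to `[0,1]` (`gw_first` applied to the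
points `(t, 0, 0)`), and `g(y.1) = y.1`, `|g'| < 1`. If `y.1 < 0` or `y.1 > 1`: e.g. `y.1 > 1`: `g(1) ∈ [0,1]`, `|g(y.1) - g(1)| = |y.1 - 1|/|W.1| < y.1 - 1`, so
`g(y.1) < 1 + (y.1 - 1)`, contradiction; in the same way for `y.1 < 0` with `g(0)`. So `0 ≤ y.1 ≤ 1`.
Strictness: `y.1 = (gw w y).1`. For `0 ≤ t ≤ 1`: `t/α ≤ 1/α < 1`, and `1 - t/β ≥ 1 - 1/β = 1/α > 0`. If `w = c :: v`, `z = gw v y`, `0 ≤ z.1 ≤ 1`: if `c = true` then
`y.1 = 1 - z.1/β > 0`; and `y.1 = 1` would give `z.1 = 0`. If `c = false` then `y.1 = z.1/α < 1`, and `y.1 = 0` would give `z.1 = 0`. Claim A: `(gw v y).1 = 0` with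
`0 ≤ y.1 ≤ 1` implies that all letters of `v` are `false` and `y.1 = 0` (induction). So `y.1 = 0` implies that `w` has no letter `true`, contradiction to `b ≥ 1`; and
`y.1 = 1` implies `c = true` and `z.1 = 0`, so `y.1 = 0` by Claim A applied to `v`, contradiction.
`T^n y = y`: `gw_T` (`Nodes.lean`) and `gw w y = y`, the length of `w` is `a + b` (`mem_cls`, `count_add`).
-/

set_option autoImplicit false

namespace Pool.Agent.H49.PP

open Pool.Agent.H67.Tent Pool.Agent.H49.AB Finset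

theorem BaseFix_A (S : Sys2) (v : List Bool) {y : E} (h0 : 0 ≤ y.1) (h1 : y.1 ≤ 1)
    (h : (gw S 1 v y).1 = 0) : v.count true = 0 ∧ y.1 = 0 := by
  induction v with
  | nil => exact ⟨rfl, h⟩
  | cons c u ih =>
    have hu := gw_first S 1 u (y := y) h0 (by rw [Nat.cast_one]; exact h1)
    rw [Nat.cast_one] at hu
    cases c
    · have e : (gw S 1 (false :: u) y).1 = (S.a.1)⁻¹ * (gw S 1 u y).1 := rfl
      rw [e] at h
      rcases mul_eq_zero.1 h with h2 | h2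
      · exact absurd (inv_eq_zero.1 h2) (ap S).ne'
      · obtain ⟨i1, i2⟩ := ih h2
        refine ⟨?_, i2⟩
        rw [List.count_cons_of_ne (by simp)]
        exact i1
    · exfalso
      have e : (gw S 1 (true :: u) y).1 = ((1 : ℕ) : ℝ) - (S.b.1)⁻¹ * (gw S 1 u y).1 := rfl
      rw [e, Nat.cast_one] at h
      have h2 := qu S
      have h3 := GW_binv_nn S
      nlinarith

theorem BaseFix_W1 (S : Sys2) (a b : ℕ) (hb : 1 ≤ b) : 1 < |(W S a b).1| := by
  rw [W1]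
  have h1 : 1 ≤ S.a.1 ^ a := one_le_pow₀ (le_trans (by norm_num) S.a1l)
  have h2 : 1 < S.b.1 ^ b := one_lt_pow₀ (lt_of_lt_of_le (by norm_num) (b1l S)) (by omega)
  nlinarith

theorem base_fix (S : Sys2) (a b : ℕ) (ha : 1 ≤ a) (hb : 1 ≤ b) (h2 : ‖(W S a b).2.1‖ ≤ 1 / 2)
    (h3 : ‖(W S a b).2.2‖ ≤ 1 / 2) (w : List Bool) (hw : w ∈ cls a b) :
    ∃ y : E, (1 - W S a b) * y = off S.toSys 1 w ∧ 0 < y.1 ∧ y.1 < 1 ∧
      (T S.toSys 1)^[a + b] y = y := by
  have hW1 := BaseFix_W1 S a b hb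
  have hn1 : 1 - (W S a b).1 ≠ 0 := by
    intro h
    have e : (W S a b).1 = 1 := by linarith
    rw [e, abs_one] at hW1
    exact lt_irrefl _ hW1
  have hn2 : 1 - (W S a b).2.1 ≠ 0 := by
    intro h
    have e : (W S a b).2.1 = 1 := (sub_eq_zero.1 h).symm
    rw [e, norm_one] at h2
    norm_num at h2
  have hn3 : 1 - (W S a b).2.2 ≠ 0 := by
    intro h
    have e : (W S a b).2.2 = 1 := (sub_eq_zero.1 h).symm
    rw [e, norm_one] at h3
    norm_num at h3
  set o : E := off S.toSys 1 w with ho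
  set y : E := (1 - W S a b)⁻¹ * o with hy
  have hfix : (1 - W S a b) * y = o := by
    refine Prod.ext ?_ (Prod.ext ?_ ?_)
    · show (1 - (W S a b).1) * ((1 - (W S a b).1)⁻¹ * o.1) = o.1
      rw [← mul_assoc, mul_inv_cancel₀ hn1, one_mul]
    · show (1 - (W S a b).2.1) * ((1 - (W S a b).2.1)⁻¹ * o.2.1) = o.2.1
      rw [← mul_assoc, mul_inv_cancel₀ hn2, one_mul]
    · show (1 - (W S a b).2.2) * ((1 - (W S a b).2.2)⁻¹ * o.2.2) = o.2.2
      rw [← mul_assoc, mul_inv_cancel₀ hn3, one_mul]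
  have hsub : y - o = W S a b * y := by
    rw [← hfix]
    ring
  have hgw : gw S 1 w y = y := by
    rw [gw_eq, mul_cls S hw, ← ho, hsub]
    have k1 : (W S a b).1 ≠ 0 := abs_pos.1 (W1_pos S a b)
    have k2 : (W S a b).2.1 ≠ 0 := norm_pos_iff.1 (W2_pos S a b)
    have k3 : (W S a b).2.2 ≠ 0 := norm_pos_iff.1 (W3_pos S a b)
    refine Prod.ext ?_ (Prod.ext ?_ ?_)
    · show (W S a b).1⁻¹ * ((W S a b).1 * y.1) = y.1
      rw [← mul_assoc, inv_mul_cancel₀ k1, one_mul]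
    · show (W S a b).2.1⁻¹ * ((W S a b).2.1 * y.2.1) = y.2.1
      rw [← mul_assoc, inv_mul_cancel₀ k2, one_mul]
    · show (W S a b).2.2⁻¹ * ((W S a b).2.2 * y.2.2) = y.2.2
      rw [← mul_assoc, inv_mul_cancel₀ k3, one_mul]
  have hgf : ∀ z : E, (gw S 1 w z).1 = (W S a b).1⁻¹ * (z.1 - o.1) := by
    intro z
    rw [gw_eq, mul_cls S hw, ← ho]
    rfl
  have g0 := gw_first S 1 w (y := 0) le_rfl (by rw [Nat.cast_one]; exact zero_le_one)
  have g1 := gw_first S 1 w (y := 1) zero_le_one (by rw [Nat.cast_one]; exact le_rfl)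
  have gy : (W S a b).1⁻¹ * (y.1 - o.1) = y.1 := by
    rw [← hgf y, hgw]
  rw [hgf, Nat.cast_one] at g0 g1
  have e0 : ((0 : E)).1 = 0 := rfl
  have e1 : ((1 : E)).1 = 1 := rfl
  rw [e0] at g0
  rw [e1] at g1
  have hr : |(W S a b).1⁻¹| < 1 := by
    rw [abs_inv]
    exact inv_lt_one_of_one_lt₀ hW1
  obtain ⟨r, hrr⟩ : ∃ r, r = (W S a b).1⁻¹ := ⟨_, rfl⟩
  rw [← hrr] at g0 g1 gy hr
  obtain ⟨r1, r2⟩ := abs_lt.1 hr
  have y0 : 0 ≤ y.1 := by
    by_contra hc
    push Not at hc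
    nlinarith
  have y1 : y.1 ≤ 1 := by
    by_contra hc
    push Not at hc
    nlinarith
  have yn0 : y.1 ≠ 0 := by
    intro h
    have := (BaseFix_A S w y0 y1 (by rw [hgw]; exact h)).1
    rw [(mem_cls.1 hw).2] at this
    omega
  have yn1 : y.1 ≠ 1 := by
    intro h
    rcases w with _ | ⟨c, v⟩
    · have := (mem_cls.1 hw).1
      simp at this
      omega
    · have hv := gw_first S 1 v (y := y) y0 (by rw [Nat.cast_one]; exact y1)
      rw [Nat.cast_one] at hv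
      have hg1 : (gw S 1 (c :: v) y).1 = 1 := by rw [hgw]; exact h
      cases c
      · have e : (gw S 1 (false :: v) y).1 = (S.a.1)⁻¹ * (gw S 1 v y).1 := rfl
        rw [e] at hg1
        have k1 := pu S
        have k2 := GW_ainv_nn S
        nlinarith
      · have e : (gw S 1 (true :: v) y).1 = ((1 : ℕ) : ℝ) - (S.b.1)⁻¹ * (gw S 1 v y).1 := rfl
        rw [e, Nat.cast_one] at hg1
        have hz : (S.b.1)⁻¹ * (gw S 1 v y).1 = 0 := by linarith
        rcases mul_eq_zero.1 hz with h4 | h4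
        · exact (bp S).ne' (inv_eq_zero.1 h4)
        · exact yn0 (BaseFix_A S v y0 y1 h4).2
  have yp : 0 < y.1 := lt_of_le_of_ne y0 (Ne.symm yn0)
  have yl : y.1 < 1 := lt_of_le_of_ne y1 yn1
  refine ⟨y, hfix, yp, yl, ?_⟩
  have hT := gw_T S w yp yl
  rw [hgw] at hT
  have hlen : w.length = a + b := by
    rw [← count_add w, (mem_cls.1 hw).1, (mem_cls.1 hw).2]
  rw [hlen] at hT
  exact hT

end Pool.Agent.H49.PP
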