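import Pool.Agent.H49.PP.Defs
import Pool.Agent.H67.Tent.Norm
import Pool.Agent.H49.AB.Inst

/-!
# JOB PP-13. Every nonzero lattice element divides a positive integer

`LamForm S`: `Lam` is the set of the values of integer polynomials of degree `≤ 4` at `a = (a_1, a_2, a_3)`; `exists_sys2` provides it (with `α = S.a.1`).
Let `z = ∑ c_i a^i ∈ Lam`, `c ≠ 0` (as `z ≠ 0`), `M = nmQ c` (`H67/Tent/Norm.lean`: the integer matrix of the multiplication by `z`, `M = ∑ c_i nmM^i`, `nm_det : det ≠ 0`).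
Let `d = det M ≠ 0`, `v = adjugate M` applied to the first basis vector (or the row version; `nm_comp` gives the direction: the companion matrix acts on
the vector of powers, `nmM *ᵥ (r^0, ..., r^4) = r • (r^0, ..., r^4)` or the like for each root `r`), so that for the vector `P = (1, a, ..., a^4)` (in the commutative ring `E`;
`a^5 = a^3 + 1` is `S.a5`): `M P = z P`, hence `d P = adj(M) M P = z adj(M) P`, first component: `d = z μ` with `μ = ∑_j adj(M)_{0j} a^j ∈ Lam`.
Take `N = |d|` (change the sign of `μ`). For `c' ∈ Lam`: `N c' = z (μ c')`, and `μ c' ∈ Lam` because `Lam` is stable under multiplication by `a` (`S.a_mul_mem`) and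
by integers.
-/

set_option autoImplicit false

namespace Pool.Agent.H49.PP

open Pool.Agent.H67.Tent Pool.Agent.H49.AB Finset

/-- Explicit form of the lattice. -/
def LamForm (S : Sys2) : Prop :=
  ∀ z : E, z ∈ S.Lam ↔ ∃ c : Fin 5 → ℤ, z = ∑ i, (c i : E) * S.a ^ (i : ℕ)

/-- The vector of the powers of `a`. -/
noncomputable def denomP (S : Sys2) : Fin 5 → E := fun k => S.a ^ (k : ℕ)

/-- Integer matrices over `E`. -/
noncomputable def denomM (M : Matrix (Fin 5) (Fin 5) ℤ) : Matrix (Fin 5) (Fin 5) E :=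
  (Int.castRingHom E).mapMatrix M

theorem denom_comp (S : Sys2) : Matrix.vecMul (denomP S) (denomM nmM) = S.a • denomP S := by
  have h5 := S.a5
  funext j
  simp only [Matrix.vecMul, dotProduct, denomP, denomM, RingHom.mapMatrix_apply, Matrix.map_apply,
    Pi.smul_apply, smul_eq_mul, Int.coe_castRingHom]
  fin_cases j <;> simp [Fin.sum_univ_five, nmM] <;>
    first | ring1 | linear_combination h5 | linear_combination -h5

theorem denom_pow (S : Sys2) (k : ℕ) :
    Matrix.vecMul (denomP S) (denomM nmM ^ k) = S.a ^ k • denomP S := by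
  induction k with
  | zero => simp
  | succ k ih =>
    rw [pow_succ, ← Matrix.vecMul_vecMul, ih, Matrix.smul_vecMul, denom_comp, smul_smul, pow_succ]

theorem denom_map (c : Fin 5 → ℤ) :
    denomM (nmQ c) = ∑ i, (c i : E) • denomM nmM ^ (i : ℕ) := by
  unfold denomM nmQ
  rw [map_sum]
  refine Finset.sum_congr rfl fun i _ => ?_
  rw [map_zsmul, map_pow, Int.cast_smul_eq_zsmul]

theorem denom_Q (S : Sys2) (c : Fin 5 → ℤ) :
    Matrix.vecMul (denomP S) (denomM (nmQ c)) =
      (∑ i, (c i : E) * S.a ^ (i : ℕ)) • denomP S := by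
  rw [denom_map, Matrix.vecMul_sum, Finset.sum_smul]
  refine Finset.sum_congr rfl fun i _ => ?_
  rw [Matrix.vecMul_smul, denom_pow, smul_smul]

theorem denom_adj (S : Sys2) (c : Fin 5 → ℤ) :
    (((nmQ c).det : ℤ) : E) = (∑ i, (c i : E) * S.a ^ (i : ℕ)) *
      ∑ k, (((nmQ c).adjugate k 0 : ℤ) : E) * S.a ^ (k : ℕ) := by
  have h1 : Matrix.vecMul (denomP S) (denomM (nmQ c) * denomM (nmQ c).adjugate) =
      (((nmQ c).det : ℤ) : E) • denomP S := by
    have h2 : denomM (nmQ c) * denomM (nmQ c).adjugate =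
        (((nmQ c).det : ℤ) : E) • (1 : Matrix (Fin 5) (Fin 5) E) := by
      unfold denomM
      rw [← map_mul, Matrix.mul_adjugate, map_zsmul, map_one, Int.cast_smul_eq_zsmul]
    rw [h2, Matrix.vecMul_smul, Matrix.vecMul_one]
  rw [← Matrix.vecMul_vecMul, denom_Q, Matrix.smul_vecMul] at h1
  have h3 := congrFun h1 0
  simp only [Pi.smul_apply, smul_eq_mul, Matrix.vecMul, dotProduct, denomP, denomM,
    RingHom.mapMatrix_apply, Matrix.map_apply, Int.coe_castRingHom, Fin.val_zero, pow_zero,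
    mul_one] at h3
  rw [← h3]
  refine congrArg _ (Finset.sum_congr rfl fun k _ => mul_comm _ _)

theorem denom_pow_mem (S : Sys2) (k : ℕ) {c : E} (hc : c ∈ S.Lam) : S.a ^ k * c ∈ S.Lam := by
  induction k with
  | zero => simpa using hc
  | succ k ih =>
    have := S.a_mul_mem _ ih
    rwa [← mul_assoc, ← pow_succ'] at this

theorem denom_mul_mem (S : Sys2) (d : Fin 5 → ℤ) {c : E} (hc : c ∈ S.Lam) :
    (∑ k, (d k : E) * S.a ^ (k : ℕ)) * c ∈ S.Lam := by
  rw [Finset.sum_mul]
  refine S.Lam.sum_mem fun k _ => ?_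
  rw [mul_assoc, ← zsmul_eq_mul]
  exact S.Lam.zsmul_mem (denom_pow_mem S _ hc) _

theorem denom (S : Sys2) (hS : LamForm S) (z : E) (hz : z ∈ S.Lam) (hz0 : z ≠ 0) :
    ∃ N : ℕ, 1 ≤ N ∧ ∀ c ∈ S.Lam, ∃ w ∈ S.Lam, z * w = (N : E) * c := by
  obtain ⟨d, hd⟩ := (hS z).1 hz
  have hd0 : d ≠ 0 := by
    rintro rfl
    apply hz0
    rw [hd]
    simp
  have hdet := nm_det d hd0
  have hadj := denom_adj S d
  rw [← hd] at hadj
  refine ⟨(nmQ d).det.natAbs, Int.natAbs_pos.2 hdet, fun c hc => ?_⟩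
  have hm := denom_mul_mem S (fun k => (nmQ d).adjugate k 0) hc
  have hN : (((nmQ d).det.natAbs : ℕ) : E) = (((nmQ d).det.natAbs : ℤ) : E) :=
    (Int.cast_natCast _).symm
  rcases Int.natAbs_eq (nmQ d).det with h | h
  · refine ⟨_, hm, ?_⟩
    rw [hN, ← h, hadj]
    ring
  · refine ⟨_, S.Lam.neg_mem hm, ?_⟩
    have h' : (((nmQ d).det.natAbs : ℤ)) = -(nmQ d).det := by omega
    rw [hN, h', Int.cast_neg, hadj]
    ring

end Pool.Agent.H49.PP
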