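import Pool.Agent.H49.PP.BaseType
import Pool.Agent.H49.PP.BaseBox
import Pool.Agent.H49.PP.BaseFix
import Pool.Agent.H49.PP.Denom

/-!
# JOB PP-21. The starting point

`base_type` gives `(a, b)`, `a + b = m`. `‖W‖_2 = exp (lw a b) ≤ exp(-0.08 m + √m) ≤ 1/2` and `‖W‖_3 ≤ (6/7)^m ≤ 1/2` (`cmplat_W3_le`) for `m` large. `base_box` gives `w0`,
`base_fix` (for `w0`) gives `y`. `denom` with `z = 1 - W` (in `Lam`: `S.one_mem`, `W_mul_mem S a b S.one_mem`; not `0`: second component, `‖W‖_2 ≤ 1/2`) and `c = off w0`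
(`off_mem`): `(1 - W) w = N off w0 = (1 - W) (N y)`, so `N y = w ∈ Lam` (`1 - W` has nonzero components: `|W.1| > 1` since
`α, β > 1`, `a ≥ 1`). `L0 = - lw a b`, so `exp L0 = ‖W‖_2⁻¹`. For `L0 ≤ L ≤ L0 + 1`: `gs (exp L) 1 z ≥ gs (exp L0) 1 z` (monotone in the radius), `cls a b ⊆ words m`,
`exp(L)² ≤ exp(2) exp(L0)²`, so `fr S m L y ≥ exp(-2) ‖W‖_2² ∑_{w ∈ cls a b} gs (exp L0) 1 (gw w y) ≥ exp(-2) c card ‖W‖_3² ‖W‖_2² = exp(-2) c bn a b ≥ exp(-2) c c'/m`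
(`card_cls`, `W1`, `W_prod`).
-/

set_option autoImplicit false

namespace Pool.Agent.H49.PP

open Pool.Agent.H67.Tent Pool.Agent.H49.AB Finset

private theorem Base_W2 (S : Sys2) {a b m : ℕ} (hm : 400 ≤ m)
    (h : |lw S a b + gam2 S * m| ≤ Real.sqrt m) : ‖(W S a b).2.1‖ ≤ 1 / 2 := by
  rw [← exp_lw]
  have hm' : (400 : ℝ) ≤ m := by exact_mod_cast hm
  have h1 : Real.sqrt m ≤ m / 20 := by
    rw [Real.sqrt_le_left (by positivity)]
    nlinarith
  have h2 := (gam2_bd S).1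
  have h3 := (abs_le.1 h).2
  have h4 : lw S a b ≤ -1 := by nlinarith
  have h5 : Real.exp (lw S a b) ≤ Real.exp (-1) := Real.exp_le_exp.2 h4
  have h6 : Real.exp (-1) ≤ 1 / 2 := by
    rw [Real.exp_neg, inv_le_comm₀ (Real.exp_pos 1) (by norm_num)]
    have := Real.add_one_le_exp (1 : ℝ)
    linarith
  linarith

private theorem Base_W3 (S : Sys2) {a b m : ℕ} (hm : 400 ≤ m) (hab : a + b = m) :
    ‖(W S a b).2.2‖ ≤ 1 / 2 := by
  refine (cmplat_W3_le S a b).trans ?_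
  rw [hab]
  calc ((6 : ℝ) / 7) ^ m ≤ (6 / 7) ^ 5 :=
        pow_le_pow_of_le_one (by norm_num) (by norm_num) (by omega)
    _ ≤ 1 / 2 := by norm_num

private theorem Base_W1 (S : Sys2) {a b : ℕ} (ha : 1 ≤ a) : 1 < |(W S a b).1| := by
  rw [W1]
  have h1 : 1 < S.a.1 := lt_of_lt_of_le (by norm_num) S.a1l
  have h2 : 1 ≤ S.b.1 := le_trans (by norm_num) (b1l S)
  exact one_lt_mul_of_lt_of_le (one_lt_pow₀ h1 (by omega)) (one_le_pow₀ h2)

private theorem Base_gs {R R' Q : ℝ} (hR : 0 < R) (h : R ≤ R') (z : E) : gs R Q z ≤ gs R' Q z := by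
  unfold gs
  rw [Real.exp_le_exp, neg_le_neg_iff]
  refine mul_le_mul_of_nonneg_left (add_le_add ?_ le_rfl) Real.pi_pos.le
  exact div_le_div_of_nonneg_left (sq_nonneg _) (by positivity) (pow_le_pow_left₀ hR.le h 2)

private theorem Base_bn (S : Sys2) (a b : ℕ) :
    ((cls a b).card : ℝ) * ‖(W S a b).2.2‖ ^ 2 * ‖(W S a b).2.1‖ ^ 2 = bn S a b := by
  have h1 := W_prod S a b
  have h2 := W1_pos S a b
  have h3 : ‖(W S a b).2.2‖ ^ 2 * ‖(W S a b).2.1‖ ^ 2 = |(W S a b).1|⁻¹ := by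
    refine eq_inv_of_mul_eq_one_left ?_
    linarith
  rw [mul_assoc, h3, W1, card_cls, bn, bin, mul_inv, inv_pow, inv_pow]
  ring

theorem base (S : Sys2) (hS : LamForm S) : ∃ (c : ℝ) (n0 : ℕ), 0 < c ∧ 1 ≤ n0 ∧
    ∀ m : ℕ, n0 ≤ m → ∃ (L0 : ℝ) (y : E) (N : ℕ), 1 ≤ N ∧ GX S N y ∧ 0 < y.1 ∧ y.1 < 1 ∧
      (T S.toSys 1)^[m] y = y ∧ |L0 - gam2 S * m| ≤ Real.sqrt m ∧
      ∀ L, L0 ≤ L → L ≤ L0 + 1 → c / m ≤ fr S m L y := by
  obtain ⟨c1, n1, hc1, hn1, htype⟩ := base_type S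
  obtain ⟨c2, hc2, hbox⟩ := base_box S
  refine ⟨Real.exp (-2) * c2 * c1, max n1 400, by positivity, le_max_of_le_left hn1, ?_⟩
  intro m hm
  have hm1 : n1 ≤ m := le_trans (le_max_left _ _) hm
  have hm2 : 400 ≤ m := le_trans (le_max_right _ _) hm
  have hm0 : (0 : ℝ) < m := by
    have : (400 : ℝ) ≤ m := by exact_mod_cast hm2
    linarith
  obtain ⟨a, b, hab, ha, hb, hlw, hbn, hsum⟩ := htype m hm1
  have h2 := Base_W2 S hm2 hlw
  have h3 := Base_W3 S hm2 hab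
  obtain ⟨w0, hw0, hbig⟩ := hbox a b h2 h3 hsum
  obtain ⟨y, hy, hy0, hy1, hyT⟩ := base_fix S a b ha hb h2 h3 w0 hw0
  have hbig := hbig y hy
  -- the components of `1 - W`
  have k1 : (1 - W S a b).1 ≠ 0 := by
    intro h
    have h' : 1 - (W S a b).1 = 0 := h
    have h4 := Base_W1 S (b := b) ha
    have h5 : (W S a b).1 = 1 := by linarith
    rw [h5, abs_one] at h4
    exact lt_irrefl _ h4
  have k2 : (1 - W S a b).2.1 ≠ 0 := by
    intro h
    have h' : 1 - (W S a b).2.1 = 0 := h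
    have h5 : (W S a b).2.1 = 1 := (sub_eq_zero.1 h').symm
    rw [h5, norm_one] at h2
    norm_num at h2
  have k3 : (1 - W S a b).2.2 ≠ 0 := by
    intro h
    have h' : 1 - (W S a b).2.2 = 0 := h
    have h5 : (W S a b).2.2 = 1 := (sub_eq_zero.1 h').symm
    rw [h5, norm_one] at h3
    norm_num at h3
  have hz : 1 - W S a b ∈ S.Lam := by
    have := W_mul_mem S a b S.one_mem
    rw [mul_one] at this
    exact S.Lam.sub_mem S.one_mem this
  have hz0 : 1 - W S a b ≠ 0 := fun h => k1 (by rw [h]; rfl)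
  obtain ⟨N, hN, hden⟩ := denom S hS _ hz hz0
  obtain ⟨w, hw, hww⟩ := hden _ (off_mem S.toSys 1 w0)
  have hNy : (N : E) * y = w := by
    have e : (1 - W S a b) * ((N : E) * y) = (1 - W S a b) * w := by
      rw [hww, ← hy]
      ring
    refine Prod.ext ?_ (Prod.ext ?_ ?_)
    · exact mul_left_cancel₀ k1 (congrArg Prod.fst e)
    · exact mul_left_cancel₀ k2 (congrArg (fun z : E => z.2.1) e)
    · exact mul_left_cancel₀ k3 (congrArg (fun z : E => z.2.2) e)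
  refine ⟨-lw S a b, y, N, hN, ⟨by rw [hNy]; exact hw, hy0.le, hy1.le⟩, hy0, hy1, ?_, ?_, ?_⟩
  · rw [← hab]
    exact hyT
  · have : -lw S a b - gam2 S * m = -(lw S a b + gam2 S * m) := by ring
    rw [this, abs_neg]
    exact hlw
  · intro L hL1 hL2
    have hpos := W2_pos S a b
    have e0 : Real.exp (-lw S a b) = (‖(W S a b).2.1‖)⁻¹ := by rw [Real.exp_neg, exp_lw]
    have s1 : ∑ w ∈ cls a b, gs (‖(W S a b).2.1‖)⁻¹ 1 (gw S 1 w y) ≤
        ∑ w ∈ words m, gs (Real.exp L) 1 (gw S 1 w y) := by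
      calc ∑ w ∈ cls a b, gs (‖(W S a b).2.1‖)⁻¹ 1 (gw S 1 w y)
          ≤ ∑ w ∈ cls a b, gs (Real.exp L) 1 (gw S 1 w y) := by
            refine Finset.sum_le_sum fun w _ => Base_gs (inv_pos.2 hpos) ?_ _
            rw [← e0]
            exact Real.exp_le_exp.2 hL1
        _ ≤ ∑ w ∈ words m, gs (Real.exp L) 1 (gw S 1 w y) := by
            refine Finset.sum_le_sum_of_subset_of_nonneg ?_ fun w _ _ => (gs_pos _ _ _).le
            rw [← hab]
            exact Finset.filter_subset _ _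
    have s2 : Real.exp L ^ 2 ≤ Real.exp 2 * ((‖(W S a b).2.1‖)⁻¹) ^ 2 := by
      rw [← e0, ← Real.exp_nat_mul, ← Real.exp_nat_mul, ← Real.exp_add, Real.exp_le_exp]
      push_cast
      linarith
    have s3 := Base_bn S a b
    have hcard : (0 : ℝ) ≤ ((cls a b).card : ℝ) * ‖(W S a b).2.2‖ ^ 2 := by positivity
    unfold fr
    rw [le_div_iff₀ (by positivity)]
    calc Real.exp (-2) * c2 * c1 / m * Real.exp L ^ 2
        ≤ Real.exp (-2) * c2 * bn S a b * (Real.exp 2 * ((‖(W S a b).2.1‖)⁻¹) ^ 2) := by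
          refine mul_le_mul ?_ s2 (by positivity) ?_
          · rw [mul_div_assoc]
            exact mul_le_mul_of_nonneg_left hbn (by positivity)
          · exact mul_nonneg (by positivity) (bn_nonneg S a b)
      _ = c2 * (((cls a b).card : ℝ) * ‖(W S a b).2.2‖ ^ 2) := by
          rw [← s3, Real.exp_neg]
          field_simp
      _ ≤ _ := hbig.trans s1

end Pool.Agent.H49.PP
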