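import Pool.Agent.H49.PP.Defs

/-!
# JOB PP-04. The rates

`lw_eq`: `W2`, `Real.log_mul`, `Real.log_pow`; `p + q = 1` (`pq S`). Numerical bounds: `log ‖a2‖ = (1/2) log (‖a2‖²)`, with `1.1032 ≤ ‖a2‖² ≤ 1.1034`
(`S.a2l`, `S.a2u`), `0.2742 ≤ ‖b2‖² ≤ 0.2745` (`b2l`, `b2u`), `0.7329 ≤ ‖a3‖² ≤ 0.7332`, `0.6966 ≤ ‖b3‖² ≤ 0.6977`, `0.8086 ≤ p ≤ 0.8088`,
`0.1912 ≤ q ≤ 0.1914` (`pl, pu, ql, qu`). `log ‖a2‖ ∈ [0.0490, 0.0493]`, `log ‖b2‖ ∈ [-0.6471, -0.6462]`, `log ‖a3‖ ∈ [-0.1555, -0.1551]`,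
`log ‖b3‖ ∈ [-0.1810, -0.1799]`. For the logarithm bounds use `Real.log_le_sub_one_of_pos`, `Real.add_one_le_exp` for small powers, or `exp` bounds
(`Real.exp_one_gt_d9`, Taylor: `Real.exp_bound`, `Real.sum_le_exp_of_nonneg`), e.g. `x ≤ exp t` by comparing powers `x^k` with `exp (k t)`.
(Rough bounds are enough: `gam2 ≈ 0.0839`, `gam3 ≈ 0.1601`, `del2 ≈ 0.696`, `del3 ≈ 0.0251`.)
-/

set_option autoImplicit false

namespace Pool.Agent.H49.PP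

open Pool.Agent.H67.Tent Pool.Agent.H49.AB Finset

/-- Upper bound of a logarithm. -/
private theorem Num_up {t v : ℝ} (ht : 0 < t) (hv : 0 ≤ v) (n : ℕ) (h : t ≤ (1 + v + v ^ 2 / 2) ^ n) :
    Real.log t ≤ n * v := by
  rw [Real.log_le_iff_le_exp ht, Real.exp_nat_mul]
  exact h.trans (pow_le_pow_left₀ (by positivity) (Real.quadratic_le_exp_of_nonneg hv) _)

/-- Lower bound of a logarithm. -/
private theorem Num_lo {t v : ℝ} (hv : v < 1) (n : ℕ) (h : 1 ≤ t * (1 - v) ^ n) :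
    n * v ≤ Real.log t := by
  have h1 : 0 < 1 - v := by linarith
  have ht : 0 < t := by
    have : 0 < (1 - v) ^ n := pow_pos h1 n
    by_contra hc
    push Not at hc
    nlinarith
  rw [Real.le_log_iff_exp_le ht, Real.exp_nat_mul]
  have h2 : Real.exp v * (1 - v) ≤ 1 := by
    have h3 : 1 - v ≤ Real.exp (-v) := Real.one_sub_le_exp_neg v
    calc Real.exp v * (1 - v) ≤ Real.exp v * Real.exp (-v) :=
          mul_le_mul_of_nonneg_left h3 (Real.exp_pos _).le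
      _ = 1 := by rw [← Real.exp_add, add_neg_cancel, Real.exp_zero]
  have h4 : Real.exp v ^ n * (1 - v) ^ n ≤ 1 := by
    rw [← mul_pow]
    exact pow_le_one₀ (by positivity) h2
  exact le_of_mul_le_mul_right (h4.trans h) (pow_pos h1 n)

/-- Upper bound of a negative logarithm. -/
private theorem Num_up' {t v : ℝ} (ht : 0 < t) (hv : v ≤ 1) (n : ℕ) (h : t ≤ (1 - v) ^ n) :
    Real.log t ≤ -(n * v) := by
  have e : -((n : ℝ) * v) = n * (-v) := by ring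
  rw [e, Real.log_le_iff_le_exp ht, Real.exp_nat_mul]
  exact h.trans (pow_le_pow_left₀ (by linarith) (Real.one_sub_le_exp_neg v) _)

/-- Lower bound of a negative logarithm. -/
private theorem Num_lo' {t v : ℝ} (ht : 0 < t) (hv : 0 ≤ v) (n : ℕ)
    (h : 1 ≤ t * (1 + v + v ^ 2 / 2) ^ n) : -(n * v) ≤ Real.log t := by
  have h1 := Num_up (t := t⁻¹) (inv_pos.2 ht) hv n (by
    rw [inv_le_iff_one_le_mul₀' ht]
    exact h)
  rw [Real.log_inv] at h1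
  linarith

private theorem Num_sq (x : ℝ) : Real.log x = Real.log (x ^ 2) / 2 := by
  rw [Real.log_pow]
  push_cast
  ring

private theorem Num_a2 (S : Sys2) :
    0.048 ≤ Real.log ‖S.a.2.1‖ ∧ Real.log ‖S.a.2.1‖ ≤ 0.05 := by
  have h1 := S.a2l
  have h2 := S.a2u
  rw [Num_sq]
  have h3 : ((8 : ℕ) : ℝ) * 0.012 ≤ Real.log (‖S.a.2.1‖ ^ 2) :=
    Num_lo (by norm_num) 8 (by norm_num; nlinarith)
  have h4 : Real.log (‖S.a.2.1‖ ^ 2) ≤ ((1 : ℕ) : ℝ) * 0.1 :=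
    Num_up (by linarith) (by norm_num) 1 (by norm_num; linarith)
  push_cast at h3 h4
  constructor <;> linarith

private theorem Num_b2 (S : Sys2) :
    -0.65 ≤ Real.log ‖S.b.2.1‖ ∧ Real.log ‖S.b.2.1‖ ≤ -0.64 := by
  have h1 := b2l S
  have h2 := b2u S
  rw [Num_sq]
  have h3 : -(((13 : ℕ) : ℝ) * 0.1) ≤ Real.log (‖S.b.2.1‖ ^ 2) :=
    Num_lo' (by linarith) (by norm_num) 13 (by norm_num; linarith)
  have h4 : Real.log (‖S.b.2.1‖ ^ 2) ≤ -(((128 : ℕ) : ℝ) * 0.01) :=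
    Num_up' (by linarith) (by norm_num) 128 (h2.trans (by norm_num))
  push_cast at h3 h4
  constructor <;> linarith

private theorem Num_a3 (S : Sys2) :
    -0.158 ≤ Real.log ‖S.a.2.2‖ ∧ Real.log ‖S.a.2.2‖ ≤ -0.152 := by
  have h1 := S.a3l
  have h2 := S.a3u
  rw [Num_sq]
  have h3 : -(((1 : ℕ) : ℝ) * 0.316) ≤ Real.log (‖S.a.2.2‖ ^ 2) :=
    Num_lo' (by linarith) (by norm_num) 1 (by norm_num; linarith)
  have h4 : Real.log (‖S.a.2.2‖ ^ 2) ≤ -(((8 : ℕ) : ℝ) * 0.038) :=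
    Num_up' (by linarith) (by norm_num) 8 (h2.trans (by norm_num))
  push_cast at h3 h4
  constructor <;> linarith

private theorem Num_b3 (S : Sys2) :
    -0.182 ≤ Real.log ‖S.b.2.2‖ ∧ Real.log ‖S.b.2.2‖ ≤ -0.177 := by
  have h1 := b3l S
  have h2 := b3u S
  rw [Num_sq]
  have h3 : -(((2 : ℕ) : ℝ) * 0.182) ≤ Real.log (‖S.b.2.2‖ ^ 2) :=
    Num_lo' (by linarith) (by norm_num) 2 (by norm_num; linarith)
  have h4 : Real.log (‖S.b.2.2‖ ^ 2) ≤ -(((16 : ℕ) : ℝ) * 0.022125) :=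
    Num_up' (by linarith) (by norm_num) 16 (h2.trans (by norm_num))
  push_cast at h3 h4
  constructor <;> linarith

theorem lw_eq (S : Sys2) (a b : ℕ) :
    lw S a b = -(gam2 S * (a + b)) - del2 S * (b - (S.b.1)⁻¹ * (a + b)) := by
  have h := pq S
  unfold lw gam2 del2
  rw [W2, Real.log_mul (pow_pos (a2_pos S.toSys) _).ne' (pow_pos (b2_pos S.toSys) _).ne',
    Real.log_pow, Real.log_pow]
  linear_combination -(Real.log ‖S.a.2.1‖ * (a + b)) * h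

theorem lw3_eq (S : Sys2) (a b : ℕ) :
    lw3 S a b = -(gam3 S * (a + b)) - del3 S * (b - (S.b.1)⁻¹ * (a + b)) := by
  have h := pq S
  unfold lw3 gam3 del3
  rw [W3, Real.log_mul (pow_pos (a3_pos S.toSys) _).ne' (pow_pos (b3_pos S.toSys) _).ne',
    Real.log_pow, Real.log_pow]
  linear_combination -(Real.log ‖S.a.2.2‖ * (a + b)) * h

theorem gam2_bd (S : Sys2) : 0.08 ≤ gam2 S ∧ gam2 S ≤ 0.09 := by
  obtain ⟨h1, h2⟩ := Num_a2 S
  obtain ⟨h3, h4⟩ := Num_b2 S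
  have h5 := pl S
  have h6 := pu S
  have h7 := ql S
  have h8 := qu S
  unfold gam2
  constructor <;> nlinarith

theorem gam3_bd (S : Sys2) : 0.155 ≤ gam3 S ∧ gam3 S ≤ 0.165 := by
  obtain ⟨h1, h2⟩ := Num_a3 S
  obtain ⟨h3, h4⟩ := Num_b3 S
  have h5 := pl S
  have h6 := pu S
  have h7 := ql S
  have h8 := qu S
  unfold gam3
  constructor <;> nlinarith

theorem del2_bd (S : Sys2) : 0.6 ≤ del2 S ∧ del2 S ≤ 0.7 := by
  obtain ⟨h1, h2⟩ := Num_a2 S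
  obtain ⟨h3, h4⟩ := Num_b2 S
  unfold del2
  constructor <;> linarith

theorem del3_bd (S : Sys2) : 0 ≤ del3 S ∧ del3 S ≤ 0.03 := by
  obtain ⟨h1, h2⟩ := Num_a3 S
  obtain ⟨h3, h4⟩ := Num_b3 S
  unfold del3
  constructor <;> linarith

end Pool.Agent.H49.PP
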