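import Pool.Agent.H49.PP.BinLoc
import Pool.Agent.H49.PP.Num
import Pool.Agent.H49.AB.GW

/-!
# JOB PP-10. A good type

`second_moment` (`H67/Tent/Avg.lean`) with `N = 1`, `s = 0` (see the proof of `moment_cls` in `AB/GW.lean`): `∑_{w ∈ words n} |mul w|_1⁻¹ ‖off w‖_2² ≤ 25`, that is
(`sum_words_eq`, `mul_cls`, `W1`) `∑_{(a,b) ∈ AD n} |W_{ab}|_1⁻¹ M(a,b) ≤ 25`, `M(a,b) = ∑_{w ∈ cls a b} ‖off w‖_2²`. Let `F` be the set of the `(a,b) ∈ AD n` with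
`|b - q n| ≤ √n`. By `bin_cheb` (`p q ≤ 1/4`) `∑_F bn ≥ 3/4`. So some `(a,b) ∈ F` has `|W_{ab}|_1⁻¹ M(a,b) ≤ 50 bn a b` (else
`25 ≥ ∑_F > 50 · 3/4`), and `bn a b = card / |W_{ab}|_1` (`card_cls`, `W1`), so `M(a,b) ≤ 50 card`. `bin_local` with `K = 1`: `bn a b ≥ c/√n ≥ c/n`. `|lw + γ n| =
del2 |b - q n| ≤ 0.7 √n` (`lw_eq`, `del2_bd`). `a, b ≥ 1` because `|b - q n| ≤ √n` and `0.19 ≤ q ≤ 0.2` (`ql`, `qu`), `n` large.
-/

set_option autoImplicit false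

namespace Pool.Agent.H49.PP

open Pool.Agent.H67.Tent Pool.Agent.H49.AB Finset

private theorem bt_total (S : Sys2) (n : ℕ) :
    ∑ x ∈ AD n, |(W S x.1 x.2).1|⁻¹ * ∑ w ∈ cls x.1 x.2, ‖(off S.toSys 1 w).2.1‖ ^ 2 ≤ 25 := by
  have h := second_moment S.toSys 1 n 0 le_rfl
  rw [wsum_eq, sum_words_eq] at h
  have e : ∑ x ∈ AD n, |(W S x.1 x.2).1|⁻¹ * ∑ w ∈ cls x.1 x.2, ‖(off S.toSys 1 w).2.1‖ ^ 2 =
      ∑ x ∈ AD n, ∑ w ∈ cls x.1 x.2, |(mul S.toSys w).1|⁻¹ *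
      (‖(mul S.toSys w).2.1‖ * 0 + ‖(off S.toSys 1 w).2.1‖) ^ 2 := by
    refine Finset.sum_congr rfl fun x _ => ?_
    rw [Finset.mul_sum]
    refine Finset.sum_congr rfl fun w hw => ?_
    rw [mul_cls S hw, mul_zero, zero_add]
  rw [e]
  refine h.trans ?_
  norm_num

private theorem bt_bn (S : Sys2) (a b : ℕ) :
    bn S a b = (cls a b).card * |(W S a b).1|⁻¹ := by
  rw [bn, bin, card_cls, W1, mul_inv, inv_pow, inv_pow]
  ring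

theorem base_type (S : Sys2) : ∃ (c : ℝ) (n0 : ℕ), 0 < c ∧ 1 ≤ n0 ∧ ∀ n : ℕ, n0 ≤ n →
    ∃ a b : ℕ, a + b = n ∧ 1 ≤ a ∧ 1 ≤ b ∧ |lw S a b + gam2 S * n| ≤ Real.sqrt n ∧
      c / n ≤ bn S a b ∧
      ∑ w ∈ cls a b, ‖(off S.toSys 1 w).2.1‖ ^ 2 ≤ 50 * (cls a b).card := by
  classical
  have hp : 0 < (S.a.1)⁻¹ := inv_pos.2 (ap S)
  have hq : 0 < (S.b.1)⁻¹ := inv_pos.2 (bp S)
  obtain ⟨c, n1, hc, hc1, hn1, hloc⟩ := bin_local (S.a.1)⁻¹ (S.b.1)⁻¹ hp hq (pq S) 1 le_rfl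
  refine ⟨c, max n1 100, hc, le_trans hn1 (le_max_left _ _), fun n hn => ?_⟩
  have hnn1 : n1 ≤ n := (le_max_left _ _).trans hn
  have hn100 : 100 ≤ n := (le_max_right _ _).trans hn
  have hnR : (100 : ℝ) ≤ n := by exact_mod_cast hn100
  have hr0 : 0 ≤ Real.sqrt n := Real.sqrt_nonneg _
  have hrr : Real.sqrt n ^ 2 = n := Real.sq_sqrt (by linarith)
  have hr10 : 10 ≤ Real.sqrt n := by
    refine Real.le_sqrt_of_sq_le ?_
    have e : (10 : ℝ) ^ 2 = 100 := by norm_num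
    rw [e]
    exact hnR
  have hpq4 : (S.a.1)⁻¹ * (S.b.1)⁻¹ ≤ 1 / 4 := by
    have h := pq S
    nlinarith [sq_nonneg ((S.a.1)⁻¹ - (S.b.1)⁻¹)]
  have hcheb := bin_cheb hp.le hq.le (pq S) n (Real.sqrt n) (by linarith)
  have h34 : 3 / 4 ≤ ∑ x ∈ (AD n).filter (fun x => |(x.2 : ℝ) - (S.b.1)⁻¹ * n| ≤ Real.sqrt n),
      bn S x.1 x.2 := by
    refine le_trans ?_ hcheb
    rw [hrr, mul_div_assoc, div_self (by linarith), mul_one]
    linarith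
  obtain ⟨x, hxF, hx⟩ : ∃ x ∈ (AD n).filter (fun x => |(x.2 : ℝ) - (S.b.1)⁻¹ * n| ≤ Real.sqrt n),
      |(W S x.1 x.2).1|⁻¹ * ∑ w ∈ cls x.1 x.2, ‖(off S.toSys 1 w).2.1‖ ^ 2 ≤
        50 * bn S x.1 x.2 := by
    by_contra hcon
    push Not at hcon
    have h1 : ∑ x ∈ (AD n).filter (fun x => |(x.2 : ℝ) - (S.b.1)⁻¹ * n| ≤ Real.sqrt n),
        50 * bn S x.1 x.2 ≤
        ∑ x ∈ (AD n).filter (fun x => |(x.2 : ℝ) - (S.b.1)⁻¹ * n| ≤ Real.sqrt n),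
        |(W S x.1 x.2).1|⁻¹ * ∑ w ∈ cls x.1 x.2, ‖(off S.toSys 1 w).2.1‖ ^ 2 :=
      Finset.sum_le_sum fun x hx => (hcon x hx).le
    have h2 : ∑ x ∈ (AD n).filter (fun x => |(x.2 : ℝ) - (S.b.1)⁻¹ * n| ≤ Real.sqrt n),
        |(W S x.1 x.2).1|⁻¹ * ∑ w ∈ cls x.1 x.2, ‖(off S.toSys 1 w).2.1‖ ^ 2 ≤
        ∑ x ∈ AD n, |(W S x.1 x.2).1|⁻¹ *
          ∑ w ∈ cls x.1 x.2, ‖(off S.toSys 1 w).2.1‖ ^ 2 := by
      refine Finset.sum_le_sum_of_subset_of_nonneg (Finset.filter_subset _ _) fun x _ _ => ?_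
      exact mul_nonneg (inv_nonneg.2 (abs_nonneg _))
        (Finset.sum_nonneg fun w _ => by positivity)
    have h3 := bt_total S n
    rw [← Finset.mul_sum] at h1
    linarith
  obtain ⟨a, b⟩ := x
  rw [Finset.mem_filter, mem_AD] at hxF
  obtain ⟨hab, hb⟩ := hxF
  dsimp only at hab hb hx
  subst hab
  have hql := ql S
  have hqu := qu S
  have hb' := abs_le.1 hb
  have hcast : ((a + b : ℕ) : ℝ) = (a : ℝ) + b := by push_cast; ring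
  refine ⟨a, b, rfl, ?_, ?_, ?_, ?_, ?_⟩
  · have h1 : (0 : ℝ) < a := by
      have h2 : (S.b.1)⁻¹ * ((a + b : ℕ) : ℝ) ≤ 0.1914 * ((a + b : ℕ) : ℝ) :=
        mul_le_mul_of_nonneg_right hqu (by linarith)
      have h3 : 10 * Real.sqrt ((a + b : ℕ) : ℝ) ≤ ((a + b : ℕ) : ℝ) := by
        nlinarith
      have h4 := hb'.2
      have h5 : (a : ℝ) = ((a + b : ℕ) : ℝ) - b := by rw [hcast]; ring
      rw [h5]
      linarith
    exact_mod_cast h1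
  · have h1 : (0 : ℝ) < b := by
      nlinarith [hb'.1]
    exact_mod_cast h1
  · have h1 : lw S a b + gam2 S * ((a + b : ℕ) : ℝ) =
        -(del2 S * ((b : ℝ) - (S.b.1)⁻¹ * ((a + b : ℕ) : ℝ))) := by
      rw [lw_eq, hcast]
      ring
    rw [h1, abs_neg, abs_mul]
    have h2 := del2_bd S
    have h3 : |del2 S| ≤ 1 := by
      rw [abs_of_nonneg (by linarith [h2.1])]
      linarith [h2.2]
    calc _ ≤ 1 * Real.sqrt ((a + b : ℕ) : ℝ) :=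
          mul_le_mul h3 hb (abs_nonneg _) (by norm_num)
      _ = _ := one_mul _
  · refine le_trans ?_ (hloc a b hnn1 (by rw [one_mul]; exact hb))
    refine div_le_div_of_nonneg_left hc.le (by linarith) ?_
    nlinarith
  · rw [bt_bn] at hx
    have hW := W1_pos S a b
    have h1 := mul_le_mul_of_nonneg_left hx hW.le
    have h2 : |(W S a b).1| * (|(W S a b).1|⁻¹ *
        ∑ w ∈ cls a b, ‖(off S.toSys 1 w).2.1‖ ^ 2) =
        ∑ w ∈ cls a b, ‖(off S.toSys 1 w).2.1‖ ^ 2 := by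
      rw [← mul_assoc, mul_inv_cancel₀ hW.ne', one_mul]
    have h3 : |(W S a b).1| * (50 * ((cls a b).card * |(W S a b).1|⁻¹)) =
        50 * (cls a b).card := by
      field_simp
    rw [h2, h3] at h1
    exact h1

end Pool.Agent.H49.PP
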