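import Pool.Agent.H49.PP.BinVar

/-!
# JOB PP-06. Local lower bound for the binomial distribution

Fix `K ≥ 1`, `n = i + j` large. Ratio: `bin (i-1) (j+1) · (j+1) · p = bin i j · i · q` (`Nat.succ_mul_choose_eq`-type identities). With `j = q n + x`,
`i = p n - x`, `|x| ≤ K √n`: `bin(i-1,j+1)/bin(i,j) = (p n - x) q / ((q n + x + 1) p)` lies in `[1 - c1/√n, 1 + c1/√n]` with
`c1 = c1(K,p,q)`; so for `x, x'` both in `[-K√n, K√n]` (at most `2 K √n` steps apart) `bin ≥ exp(-4 K c1) bin'` (use `1 - t ≥ exp(-2t)` for `0 ≤ t ≤ 1/2`,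
and `1/(1+t) ≥ exp(-t)`). Chebyshev (`bin_cheb` with `t = √n`, `p q ≤ 1/4`): the `j'` with `|j' - q n| ≤ √n` have total mass `≥ 3/4`; there are at most `2 √n + 1 ≤ 3 √n` of
them; so one of them has `bin ≥ 1/(4 √n)`. Hence `bin i j ≥ exp(-4 K c1)/(4 √n)` for all `|j - q n| ≤ K √n`.
It is convenient to prove the comparison of `j` and `j'` by induction on `|j - j'|`.
-/

set_option autoImplicit false

namespace Pool.Agent.H49.PP

open Pool.Agent.H67.Tent Pool.Agent.H49.AB Finset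

theorem binloc_ratio (p q : ℝ) (i j : ℕ) :
    bin p q i (j + 1) * ((j + 1 : ℝ) * p) = bin p q (i + 1) j * ((i + 1 : ℝ) * q) := by
  unfold bin
  have h1 : (((i + (j + 1)).choose (j + 1) : ℕ) : ℝ) * ((j : ℝ) + 1) =
      (((i + 1 + j).choose j : ℕ) : ℝ) * ((i : ℝ) + 1) := by
    have h2 := Nat.choose_succ_right_eq (i + 1 + j) j
    have h3 : i + 1 + j - j = i + 1 := by omega
    have h4 : i + (j + 1) = i + 1 + j := by omega
    rw [h3] at h2
    rw [h4]
    exact_mod_cast h2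
  have h5 : (((i + (j + 1)).choose (j + 1) : ℕ) : ℝ) * p ^ i * q ^ (j + 1) *
      (((j : ℝ) + 1) * p) =
      ((((i + (j + 1)).choose (j + 1) : ℕ) : ℝ) * ((j : ℝ) + 1)) * p ^ (i + 1) * q ^ (j + 1) := by
    rw [pow_succ p]
    ring
  rw [h5, h1, pow_succ q]
  ring

/-- One step of the comparison. -/
theorem binloc_step (p q : ℝ) (hp : 0 < p) (hq : 0 < q) (hpq : p + q = 1) (K s : ℝ)
    (hK : 1 ≤ K) (hs1 : 1 ≤ s) (hsp : 2 * K / p ≤ s) (hsq : 2 * K / q ≤ s)
    (i j : ℕ) (hn : ((i : ℝ) + 1 + j) = s ^ 2)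
    (h1 : |(j : ℝ) - q * s ^ 2| ≤ K * s) (h2 : |((j : ℝ) + 1) - q * s ^ 2| ≤ K * s) :
    (1 - 4 * K / (p * q) / s) * bin p q (i + 1) j ≤ bin p q i (j + 1) ∧
      (1 - 4 * K / (p * q) / s) * bin p q i (j + 1) ≤ bin p q (i + 1) j := by
  have hs : 0 < s := by linarith
  have hsp' : 2 * K ≤ s * p := by rwa [div_le_iff₀ hp] at hsp
  have hsq' : 2 * K ≤ s * q := by rwa [div_le_iff₀ hq] at hsq
  have hpq0 : 0 < p * q := mul_pos hp hq
  obtain ⟨h3, h4⟩ := abs_le.1 h1
  obtain ⟨h5, h6⟩ := abs_le.1 h2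
  have hb1 : 0 ≤ bin p q (i + 1) j := by
    unfold bin
    positivity
  have hb2 : 0 ≤ bin p q i (j + 1) := by
    unfold bin
    positivity
  have hr := binloc_ratio p q i j
  have hj : 0 < (j : ℝ) + 1 := by positivity
  have hi : 0 < (i : ℝ) + 1 := by positivity
  -- lower bounds for i, j
  have hKs : K * s ≤ q * s ^ 2 / 2 := by nlinarith
  have hKs' : K * s ≤ p * s ^ 2 / 2 := by nlinarith
  have hj2 : q * s ^ 2 / 2 ≤ (j : ℝ) + 1 := by linarith
  have hi' : (i : ℝ) + 1 = p * s ^ 2 - ((j : ℝ) - q * s ^ 2) := by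
    have : p = 1 - q := by linarith
    rw [this]
    linarith
  have hi2 : p * s ^ 2 / 2 ≤ (i : ℝ) + 1 := by linarith
  have hc : 4 * K / (p * q) / s * (p * q * s) = 4 * K := by
    field_simp
  have hcpos : 0 ≤ 4 * K / (p * q) / s := by positivity
  have hone : 1 ≤ K * s := by nlinarith
  constructor
  · -- bin i (j+1) = ratio * bin (i+1) j
    have h7 : bin p q i (j + 1) = ((i : ℝ) + 1) * q / (((j : ℝ) + 1) * p) *
        bin p q (i + 1) j := by
      rw [div_mul_eq_mul_div, eq_div_iff (mul_pos hj hp).ne', hr]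
      ring
    rw [h7]
    refine mul_le_mul_of_nonneg_right ?_ hb1
    rw [le_div_iff₀ (mul_pos hj hp)]
    -- (1 - c/s) (j+1) p ≤ (i+1) q
    have h8 : ((j : ℝ) + 1) * p - ((i : ℝ) + 1) * q = ((j : ℝ) - q * s ^ 2) + p := by
      rw [hi']
      have : p = 1 - q := by linarith
      rw [this]
      ring
    have h9 : 2 * K * s ≤ 4 * K / (p * q) / s * (((j : ℝ) + 1) * p) := by
      have h10 : 4 * K / (p * q) / s * (q * s ^ 2 / 2 * p) = 2 * K * s := by
        field_simp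
        ring
      rw [← h10]
      exact mul_le_mul_of_nonneg_left (mul_le_mul_of_nonneg_right hj2 hp.le) hcpos
    have h11 : p ≤ 1 := by linarith
    nlinarith
  · have h7 : bin p q (i + 1) j = ((j : ℝ) + 1) * p / (((i : ℝ) + 1) * q) *
        bin p q i (j + 1) := by
      rw [div_mul_eq_mul_div, eq_div_iff (mul_pos hi hq).ne', ← hr]
      ring
    rw [h7]
    refine mul_le_mul_of_nonneg_right ?_ hb2
    rw [le_div_iff₀ (mul_pos hi hq)]
    have h8 : ((i : ℝ) + 1) * q - ((j : ℝ) + 1) * p = -((j : ℝ) - q * s ^ 2) - p := by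
      rw [hi']
      have : p = 1 - q := by linarith
      rw [this]
      ring
    have h9 : 2 * K * s ≤ 4 * K / (p * q) / s * (((i : ℝ) + 1) * q) := by
      have h10 : 4 * K / (p * q) / s * (p * s ^ 2 / 2 * q) = 2 * K * s := by
        field_simp
        ring
      rw [← h10]
      exact mul_le_mul_of_nonneg_left (mul_le_mul_of_nonneg_right hi2 hq.le) hcpos
    nlinarith

theorem binloc_exp {t : ℝ} (h0 : 0 ≤ t) (h1 : t ≤ 1 / 2) : Real.exp (-(2 * t)) ≤ 1 - t := by
  have h2 : 1 + 2 * t ≤ Real.exp (2 * t) := by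
    have := Real.add_one_le_exp (2 * t)
    linarith
  have h3 : 0 < 1 + 2 * t := by linarith
  rw [Real.exp_neg]
  have h4 : (Real.exp (2 * t))⁻¹ ≤ (1 + 2 * t)⁻¹ := inv_anti₀ h3 h2
  refine h4.trans ?_
  rw [inv_le_iff_one_le_mul₀ h3]
  nlinarith

/-- Comparison of two points of the window. -/
theorem binloc_cmp (p q : ℝ) (hp : 0 < p) (hq : 0 < q) (hpq : p + q = 1) (K s : ℝ)
    (hK : 1 ≤ K) (hs1 : 1 ≤ s) (hsp : 2 * K / p ≤ s) (hsq : 2 * K / q ≤ s)
    (hsc : 2 * (4 * K / (p * q)) ≤ s) (d : ℕ) :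
    ∀ i j : ℕ, ((i : ℝ) + d + j) = s ^ 2 → |(j : ℝ) - q * s ^ 2| ≤ K * s →
      |((j : ℝ) + d) - q * s ^ 2| ≤ K * s →
      Real.exp (-(2 * (4 * K / (p * q) / s)) * d) * bin p q (i + d) j ≤ bin p q i (j + d) ∧
        Real.exp (-(2 * (4 * K / (p * q) / s)) * d) * bin p q i (j + d) ≤ bin p q (i + d) j := by
  have hs : 0 < s := by linarith
  have hpq0 : 0 < p * q := mul_pos hp hq
  have ht0 : 0 ≤ 4 * K / (p * q) / s := by positivity
  have ht1 : 4 * K / (p * q) / s ≤ 1 / 2 := by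
    rw [div_le_iff₀ hs]
    linarith
  have he := binloc_exp ht0 ht1
  induction d with
  | zero =>
    intro i j _ _ _
    simp
  | succ d ih =>
    intro i j hn h1 h2
    obtain ⟨h3, h4⟩ := abs_le.1 h1
    obtain ⟨h5, h6⟩ := abs_le.1 h2
    push_cast at hn h5 h6
    have hd : (0 : ℝ) ≤ d := Nat.cast_nonneg d
    -- first d steps from (i + 1 + d, j) to (i + 1, j + d)
    obtain ⟨ha, hb⟩ := ih (i + 1) j (by push_cast; linarith) h1
      (abs_le.2 ⟨by linarith, by linarith⟩)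
    obtain ⟨hc, hd'⟩ := binloc_step p q hp hq hpq K s hK hs1 hsp hsq i (j + d)
      (by push_cast; linarith) (abs_le.2 ⟨by push_cast; linarith, by push_cast; linarith⟩)
      (abs_le.2 ⟨by push_cast; linarith, by push_cast; linarith⟩)
    have hb1 : 0 ≤ bin p q (i + 1) (j + d) := by
      unfold bin
      positivity
    have hb2 : 0 ≤ bin p q i (j + d + 1) := by
      unfold bin
      positivity
    have e1 : i + (d + 1) = i + 1 + d := by omega
    have e2 : j + (d + 1) = j + d + 1 := by omega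
    have e3 : Real.exp (-(2 * (4 * K / (p * q) / s)) * ((d + 1 : ℕ) : ℝ)) =
        Real.exp (-(2 * (4 * K / (p * q) / s))) *
          Real.exp (-(2 * (4 * K / (p * q) / s)) * d) := by
      rw [← Real.exp_add]
      congr 1
      push_cast
      ring
    rw [e1, e2, e3]
    constructor
    · calc Real.exp (-(2 * (4 * K / (p * q) / s))) *
            Real.exp (-(2 * (4 * K / (p * q) / s)) * d) * bin p q (i + 1 + d) j
          = Real.exp (-(2 * (4 * K / (p * q) / s))) *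
            (Real.exp (-(2 * (4 * K / (p * q) / s)) * d) * bin p q (i + 1 + d) j) := by ring
        _ ≤ Real.exp (-(2 * (4 * K / (p * q) / s))) * bin p q (i + 1) (j + d) :=
            mul_le_mul_of_nonneg_left ha (Real.exp_pos _).le
        _ ≤ (1 - 4 * K / (p * q) / s) * bin p q (i + 1) (j + d) :=
            mul_le_mul_of_nonneg_right he hb1
        _ ≤ _ := hc
    · calc Real.exp (-(2 * (4 * K / (p * q) / s))) *
            Real.exp (-(2 * (4 * K / (p * q) / s)) * d) * bin p q i (j + d + 1)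
          = Real.exp (-(2 * (4 * K / (p * q) / s)) * d) *
            (Real.exp (-(2 * (4 * K / (p * q) / s))) * bin p q i (j + d + 1)) := by ring
        _ ≤ Real.exp (-(2 * (4 * K / (p * q) / s)) * d) *
            ((1 - 4 * K / (p * q) / s) * bin p q i (j + d + 1)) :=
            mul_le_mul_of_nonneg_left (mul_le_mul_of_nonneg_right he hb2) (Real.exp_pos _).le
        _ ≤ Real.exp (-(2 * (4 * K / (p * q) / s)) * d) * bin p q (i + 1) (j + d) :=
            mul_le_mul_of_nonneg_left hd' (Real.exp_pos _).le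
        _ ≤ _ := hb

open Classical in
/-- The number of points of the window. -/
theorem binloc_card (q s : ℝ) (hs1 : 1 ≤ s) (n : ℕ) :
    (((AD n).filter (fun x => |(x.2 : ℝ) - q * n| ≤ s)).card : ℝ) ≤ 3 * s := by
  set F := (AD n).filter (fun x => |(x.2 : ℝ) - q * n| ≤ s) with hF
  have h1 : F.card ≤ (Finset.Icc ⌈q * n - s⌉₊ ⌊q * n + s⌋₊).card := by
    refine Finset.card_le_card_of_injOn Prod.snd ?_ ?_
    · intro x hx
      obtain ⟨-, h2⟩ := Finset.mem_filter.1 (Finset.mem_coe.1 hx)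
      obtain ⟨h3, h4⟩ := abs_le.1 h2
      refine Finset.mem_coe.2 (Finset.mem_Icc.2 ⟨?_, ?_⟩)
      · exact Nat.ceil_le.2 (by linarith)
      · exact Nat.le_floor (by linarith)
    · intro x hx y hy hxy
      have hx' := (Finset.mem_filter.1 (Finset.mem_coe.1 hx)).1
      have hy' := (Finset.mem_filter.1 (Finset.mem_coe.1 hy)).1
      rw [Finset.HasAntidiagonal.mem_antidiagonal] at hx' hy'
      ext
      · have : x.2 = y.2 := hxy
        omega
      · exact hxy
  rw [Nat.card_Icc] at h1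
  by_cases h2 : ⌈q * n - s⌉₊ ≤ ⌊q * n + s⌋₊ + 1
  · have h3 : ((F.card : ℕ) : ℝ) ≤ ((⌊q * n + s⌋₊ + 1 - ⌈q * n - s⌉₊ : ℕ) : ℝ) := by
      exact_mod_cast h1
    rw [Nat.cast_sub h2] at h3
    push_cast at h3
    have h4 := Nat.le_ceil (q * n - s)
    by_cases h5 : 0 ≤ q * n + s
    · have h6 := Nat.floor_le h5
      linarith
    · have h6 : ⌊q * n + s⌋₊ = 0 := Nat.floor_of_nonpos (by linarith)
      rw [h6] at h3
      have h7 : (0 : ℝ) ≤ (⌈q * n - s⌉₊ : ℝ) := Nat.cast_nonneg _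
      push_cast at h3
      linarith
  · have h3 : F.card = 0 := by omega
    rw [h3]
    push_cast
    linarith

theorem bin_local (p q : ℝ) (hp : 0 < p) (hq : 0 < q) (hpq : p + q = 1) (K : ℝ) (hK : 1 ≤ K) :
    ∃ (c : ℝ) (n0 : ℕ), 0 < c ∧ c ≤ 1 ∧ 1 ≤ n0 ∧ ∀ i j : ℕ, n0 ≤ i + j →
      |(j : ℝ) - q * (i + j : ℕ)| ≤ K * Real.sqrt (i + j : ℕ) →
      c / Real.sqrt (i + j : ℕ) ≤ bin p q i j := by
  classical
  have hpq0 : 0 < p * q := mul_pos hp hq
  have hpq4 : p * q ≤ 1 / 4 := by nlinarith [sq_nonneg (p - q)]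
  set c1 : ℝ := 4 * K / (p * q) with hc1
  have hc1pos : 0 < c1 := by positivity
  set M : ℝ := 2 * K / p + 2 * K / q + 2 * c1 + 1 with hM
  have ha : 0 < 2 * K / p := by positivity
  have hb : 0 < 2 * K / q := by positivity
  refine ⟨Real.exp (-(4 * K * c1)) / 8, ⌈M ^ 2⌉₊ + 1, by positivity, ?_, by omega, ?_⟩
  · have : Real.exp (-(4 * K * c1)) ≤ 1 := Real.exp_le_one_iff.2 (by
      have : 0 ≤ 4 * K * c1 := by positivity
      linarith)
    linarith
  intro i j hij hwin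
  set n : ℕ := i + j with hn
  set s : ℝ := Real.sqrt (n : ℝ) with hs
  have hs2 : s ^ 2 = n := Real.sq_sqrt (Nat.cast_nonneg n)
  have hMs : M ≤ s := by
    refine Real.le_sqrt_of_sq_le ?_
    have h1 : M ^ 2 ≤ (⌈M ^ 2⌉₊ : ℝ) := Nat.le_ceil _
    have h2 : ((⌈M ^ 2⌉₊ + 1 : ℕ) : ℝ) ≤ (n : ℝ) := by exact_mod_cast hij
    push_cast at h2
    linarith
  have hs1 : 1 ≤ s := by linarith
  have hs0 : 0 < s := by linarith
  have hnpos : (0 : ℝ) < n := by
    rw [← hs2]
    positivity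
  -- a point with large mass
  obtain ⟨x, hx1, hx2, hx3⟩ : ∃ x ∈ AD n, |(x.2 : ℝ) - q * n| ≤ s ∧
      1 / (8 * s) ≤ bin p q x.1 x.2 := by
    by_contra hcon
    push Not at hcon
    have h1 := bin_cheb hp.le hq.le hpq n s hs0
    have h2 : p * q * n / s ^ 2 = p * q := by
      rw [hs2]
      field_simp
    rw [h2] at h1
    have h3 : ∑ x ∈ (AD n).filter (fun x => |(x.2 : ℝ) - q * n| ≤ s), bin p q x.1 x.2 ≤
        ∑ x ∈ (AD n).filter (fun x => |(x.2 : ℝ) - q * n| ≤ s), 1 / (8 * s) := by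
      refine Finset.sum_le_sum fun x hx => ?_
      obtain ⟨h4, h5⟩ := Finset.mem_filter.1 hx
      exact (hcon x h4 h5).le
    rw [Finset.sum_const, nsmul_eq_mul] at h3
    have h6 := binloc_card q s hs1 n
    have h7 : (((AD n).filter (fun x => |(x.2 : ℝ) - q * n| ≤ s)).card : ℝ) * (1 / (8 * s)) ≤
        3 * s * (1 / (8 * s)) := mul_le_mul_of_nonneg_right h6 (by positivity)
    have h8 : 3 * s * (1 / (8 * s)) = 3 / 8 := by
      field_simp
      try norm_num
    linarith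
  rw [Finset.HasAntidiagonal.mem_antidiagonal] at hx1
  have hKs : s ≤ K * s := by nlinarith
  have hwin' : |(j : ℝ) - q * s ^ 2| ≤ K * s := by
    rw [hs2]
    exact hwin
  have hx2' : |(x.2 : ℝ) - q * s ^ 2| ≤ K * s := by
    rw [hs2]
    exact hx2.trans hKs
  have hsp : 2 * K / p ≤ s := by linarith
  have hsq : 2 * K / q ≤ s := by linarith
  have hsc : 2 * (4 * K / (p * q)) ≤ s := by
    rw [← hc1]
    linarith
  -- the exponential factor
  have hfac : ∀ d : ℕ, (d : ℝ) ≤ 2 * K * s →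
      Real.exp (-(4 * K * c1)) ≤ Real.exp (-(2 * (4 * K / (p * q) / s)) * d) := by
    intro d hd
    refine Real.exp_le_exp.2 ?_
    rw [← hc1]
    have h1 : 2 * (c1 / s) * (d : ℝ) ≤ 2 * (c1 / s) * (2 * K * s) :=
      mul_le_mul_of_nonneg_left hd (by positivity)
    have h2 : 2 * (c1 / s) * (2 * K * s) = 4 * K * c1 := by
      field_simp
      ring
    linarith
  have hfin : ∀ B : ℝ, Real.exp (-(4 * K * c1)) * bin p q x.1 x.2 ≤ B →
      Real.exp (-(4 * K * c1)) / 8 / s ≤ B := by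
    intro B hB
    refine le_trans ?_ hB
    have h1 : Real.exp (-(4 * K * c1)) / 8 / s = Real.exp (-(4 * K * c1)) * (1 / (8 * s)) := by
      field_simp
    rw [h1]
    exact mul_le_mul_of_nonneg_left hx3 (Real.exp_pos _).le
  have hb0 : 0 ≤ bin p q x.1 x.2 := by
    unfold bin
    positivity
  apply hfin
  obtain ⟨g1, g2⟩ := abs_le.1 hwin'
  obtain ⟨g3, g4⟩ := abs_le.1 hx2'
  rcases le_total x.2 j with hle | hle
  · -- j = x.2 + d
    obtain ⟨d, hd⟩ := Nat.exists_eq_add_of_le hle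
    have hx1' : x.1 = i + d := by omega
    have hdr : (j : ℝ) = x.2 + d := by exact_mod_cast hd
    have hnr : ((i : ℝ) + d + x.2) = s ^ 2 := by
      rw [hs2, hn]
      push_cast
      rw [hdr]
      ring
    obtain ⟨h1, -⟩ := binloc_cmp p q hp hq hpq K s hK hs1 hsp hsq hsc d i x.2 hnr hx2'
      (by rw [← hdr]; exact hwin')
    rw [← hx1', ← hd] at h1
    refine le_trans (mul_le_mul_of_nonneg_right (hfac d ?_) hb0) h1
    linarith
  · obtain ⟨d, hd⟩ := Nat.exists_eq_add_of_le hle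
    have hx1' : i = x.1 + d := by omega
    have hdr : (x.2 : ℝ) = j + d := by exact_mod_cast hd
    have hnr : ((x.1 : ℝ) + d + j) = s ^ 2 := by
      rw [hs2, hn]
      push_cast
      rw [hx1']
      push_cast
      ring
    obtain ⟨-, h1⟩ := binloc_cmp p q hp hq hpq K s hK hs1 hsp hsq hsc d x.1 j hnr hwin'
      (by rw [← hdr]; exact hx2')
    rw [← hx1', ← hd] at h1
    refine le_trans (mul_le_mul_of_nonneg_right (hfac d ?_) hb0) h1
    linarith

end Pool.Agent.H49.PP
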