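import Pool.Agent.H49.PP.Defs

/-!
# JOB PP-05. Variance of the binomial distribution, Chebyshev

`bin_sum_one`: `sum_bin` (`AB/VFacts.lean`) with `x = y = 1`. `bin_var`: generating function or induction on `n` (for general real centre `c`: put
`M_n(c) = ∑_{AD n} bin(i,j) (j - c)²`; `bin p q i j` satisfies Pascal's rule, so `M_{n+1}(c) = p M_n(c) + q M_n(c-1)`; guess `M_n(c) = n p q + (q n - c)²`), or from
Mathlib (`Nat.choose` identities `j C(n,j) = n C(n-1,j-1)`). `bin_cheb`: Chebyshev's inequality.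
-/

set_option autoImplicit false

namespace Pool.Agent.H49.PP

open Pool.Agent.H67.Tent Pool.Agent.H49.AB Finset

theorem bin_sum_one {p q : ℝ} (hpq : p + q = 1) (n : ℕ) : ∑ x ∈ AD n, bin p q x.1 x.2 = 1 := by
  have h := sum_bin p q 1 1 n
  rw [mul_one, mul_one, hpq, one_pow] at h
  rw [← h]
  refine Finset.sum_congr rfl fun x _ => ?_
  rw [one_pow, one_pow, mul_one, mul_one]

/-- Pascal's rule for binomial expectations. -/
theorem binVar_succ (p q : ℝ) (f : ℕ → ℝ) (n : ℕ) :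
    ∑ x ∈ AD (n + 1), bin p q x.1 x.2 * f x.2 =
      p * (∑ x ∈ AD n, bin p q x.1 x.2 * f x.2) +
        q * ∑ x ∈ AD n, bin p q x.1 x.2 * f (x.2 + 1) := by
  have h := Finset.sum_antidiagonal_choose_succ_mul (R := ℝ)
    (fun i j => p ^ i * q ^ j * f j) n
  have e1 : ∑ x ∈ AD (n + 1), bin p q x.1 x.2 * f x.2 =
      ∑ ij ∈ antidiagonal (n + 1), ((n + 1).choose ij.1 : ℝ) * (p ^ ij.1 * q ^ ij.2 * f ij.2) := by
    refine Finset.sum_congr rfl fun x hx => ?_
    have hx' : x.1 + x.2 = n + 1 := mem_AD.1 hx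
    unfold bin
    rw [hx', ← Nat.choose_symm_of_eq_add hx'.symm]
    ring
  rw [e1, h, add_comm, Finset.mul_sum, Finset.mul_sum]
  refine congrArg₂ (· + ·) (Finset.sum_congr rfl fun x hx => ?_)
    (Finset.sum_congr rfl fun x hx => ?_)
  · have hx' : x.1 + x.2 = n := mem_AD.1 hx
    unfold bin
    rw [hx']
    ring
  · have hx' : x.1 + x.2 = n := mem_AD.1 hx
    unfold bin
    rw [hx', ← Nat.choose_symm_of_eq_add hx'.symm]
    ring

theorem binVar_general {p q : ℝ} (hpq : p + q = 1) (n : ℕ) : ∀ c : ℝ,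
    ∑ x ∈ AD n, bin p q x.1 x.2 * ((x.2 : ℝ) - c) ^ 2 = p * q * n + (q * n - c) ^ 2 := by
  induction n with
  | zero =>
    intro c
    have h0 : AD 0 = {(0, 0)} := rfl
    rw [h0, Finset.sum_singleton]
    simp [bin]
  | succ n ih =>
    intro c
    have h := binVar_succ p q (fun j => ((j : ℝ) - c) ^ 2) n
    have h2 := ih (c - 1)
    have h3 : ∑ x ∈ AD n, bin p q x.1 x.2 * (((x.2 + 1 : ℕ) : ℝ) - c) ^ 2 =
        ∑ x ∈ AD n, bin p q x.1 x.2 * ((x.2 : ℝ) - (c - 1)) ^ 2 := by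
      refine Finset.sum_congr rfl fun x _ => ?_
      push_cast
      ring
    rw [h, h3, h2, ih c]
    push_cast
    have hp : p = 1 - q := by linarith
    subst hp
    ring

theorem bin_var {p q : ℝ} (hpq : p + q = 1) (n : ℕ) :
    ∑ x ∈ AD n, bin p q x.1 x.2 * ((x.2 : ℝ) - q * n) ^ 2 = p * q * n := by
  rw [binVar_general hpq n (q * n)]
  ring

open Classical in
theorem bin_cheb {p q : ℝ} (hp : 0 ≤ p) (hq : 0 ≤ q) (hpq : p + q = 1) (n : ℕ) (t : ℝ)
    (ht : 0 < t) : 1 - p * q * n / t ^ 2 ≤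
      ∑ x ∈ (AD n).filter (fun x => |(x.2 : ℝ) - q * n| ≤ t), bin p q x.1 x.2 := by
  have h1 := bin_sum_one hpq n
  rw [← Finset.sum_filter_add_sum_filter_not (AD n) (fun x => |(x.2 : ℝ) - q * n| ≤ t)] at h1
  have h2 : ∑ x ∈ (AD n).filter (fun x => ¬ |(x.2 : ℝ) - q * n| ≤ t), bin p q x.1 x.2 ≤
      p * q * n / t ^ 2 := by
    rw [le_div_iff₀ (by positivity), Finset.sum_mul, ← bin_var hpq n]
    have hsub := Finset.sum_le_sum_of_subset_of_nonneg
      (f := fun x : ℕ × ℕ => bin p q x.1 x.2 * ((x.2 : ℝ) - q * n) ^ 2)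
      (Finset.filter_subset (fun x => ¬ |(x.2 : ℝ) - q * n| ≤ t) (AD n))
      (fun x _ _ => mul_nonneg (bin_nonneg hp hq _ _) (sq_nonneg _))
    refine le_trans (Finset.sum_le_sum fun x hx => ?_) hsub
    refine mul_le_mul_of_nonneg_left ?_ (bin_nonneg hp hq _ _)
    have hx' := (Finset.mem_filter.1 hx).2
    rw [not_le] at hx'
    rw [← sq_abs ((x.2 : ℝ) - q * n)]
    exact pow_le_pow_left₀ ht.le hx'.le 2
  linarith

end Pool.Agent.H49.PP
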