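import Pool.Agent.H49.PP.BinVar
import Pool.Agent.H49.PP.Num

/-!
# PP-18: the mass of the good types (proof of `good_mass`, `PP/BoxH.lean`)
-/

set_option autoImplicit false

namespace Pool.Agent.H49.PP

open Pool.Agent.H67.Tent Pool.Agent.H49.AB Finset

/-- Good types, logarithmic form of the four conditions. -/
theorem BoxH_good (S : Sys2) (L2 l : ℝ) (hl : 100000 + 3 * |L2| ≤ l) (m : ℕ)
    (hm1 : gam3 S * m ≤ 0.9996 * l) (hm2 : 0.9996 * l < gam3 S * m + gam3 S) (t : ℕ × ℕ)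
    (ht : t ∈ AD m) (hdev : |(t.2 : ℝ) - (S.b.1)⁻¹ * m| ≤ 0.001 * m) :
    goodT S (Real.exp l) L2 t := by
  obtain ⟨i, j⟩ := t
  have hij : i + j = m := mem_AD.1 ht
  have hijR : (i : ℝ) + j = m := by exact_mod_cast hij
  dsimp only at hdev
  obtain ⟨g2l, g2u⟩ := gam2_bd S
  obtain ⟨g3l, g3u⟩ := gam3_bd S
  obtain ⟨d2l, d2u⟩ := del2_bd S
  obtain ⟨d3l, d3u⟩ := del3_bd S
  have hL0 : 0 ≤ |L2| := abs_nonneg _
  have hL1 : L2 ≤ |L2| := le_abs_self _
  have hl0 : (100000 : ℝ) ≤ l := by linarith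
  have hmn : (0 : ℝ) ≤ m := Nat.cast_nonneg m
  have hm3 : (m : ℝ) ≤ 6.45 * l := by nlinarith
  -- the second place
  have e2 : Real.log (Real.exp l * ‖(W S i j).2.1‖) = l + lw S i j := by
    rw [Real.log_mul (Real.exp_pos l).ne' (W2_pos S i j).ne', Real.log_exp]
    rfl
  have e3 : Real.log (Real.exp l * ‖(W S i j).2.2‖) = l + lw3 S i j := by
    rw [Real.log_mul (Real.exp_pos l).ne' (W3_pos S i j).ne', Real.log_exp]
    rfl
  have p2 : 0 < Real.exp l * ‖(W S i j).2.1‖ := mul_pos (Real.exp_pos l) (W2_pos S i j)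
  have p3 : 0 < Real.exp l * ‖(W S i j).2.2‖ := mul_pos (Real.exp_pos l) (W3_pos S i j)
  have h2 := lw_eq S i j
  have h3 := lw3_eq S i j
  rw [hijR] at h2 h3
  obtain ⟨dv1, dv2⟩ := abs_le.1 hdev
  have hd2 : del2 S * ((j : ℝ) - (S.b.1)⁻¹ * m) ≤ 0.7 * (0.001 * m) := by
    have h4 : del2 S * ((j : ℝ) - (S.b.1)⁻¹ * m) ≤ del2 S * (0.001 * m) :=
      mul_le_mul_of_nonneg_left dv2 (by linarith)
    have h5 : del2 S * (0.001 * m) ≤ 0.7 * (0.001 * m) :=
      mul_le_mul_of_nonneg_right d2u (by positivity)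
    linarith
  have hd3 : del3 S * ((j : ℝ) - (S.b.1)⁻¹ * m) ≤ 0.03 * (0.001 * m) := by
    have h4 : del3 S * ((j : ℝ) - (S.b.1)⁻¹ * m) ≤ del3 S * (0.001 * m) :=
      mul_le_mul_of_nonneg_left dv2 d3l
    have h5 : del3 S * (0.001 * m) ≤ 0.03 * (0.001 * m) :=
      mul_le_mul_of_nonneg_right d3u (by positivity)
    linarith
  have hd3' : -(0.03 * (0.001 * m)) ≤ del3 S * ((j : ℝ) - (S.b.1)⁻¹ * m) := by
    have h4 : del3 S * (-(0.001 * m)) ≤ del3 S * ((j : ℝ) - (S.b.1)⁻¹ * m) :=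
      mul_le_mul_of_nonneg_left dv1 d3l
    have h5 : del3 S * (0.001 * m) ≤ 0.03 * (0.001 * m) :=
      mul_le_mul_of_nonneg_right d3u (by positivity)
    linarith
  have hg2 : gam2 S * m ≤ 0.09 * m := mul_le_mul_of_nonneg_right g2u hmn
  have lo2 : 0.414 * l ≤ l + lw S i j := by linarith
  have lo3 : 0.0002 * l ≤ l + lw3 S i j := by linarith
  have up3 : l + lw3 S i j ≤ 0.000594 * l + 0.165 := by linarith
  have hlog2 : Real.log 2 ≤ 0.6932 := by
    have := Real.log_two_lt_d9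
    linarith
  have hlog2' : 0.6931 ≤ Real.log 2 := by
    have := Real.log_two_gt_d9
    linarith
  refine ⟨?_, ?_, ?_, ?_⟩
  · show 2 ≤ Real.exp l * ‖(W S i j).2.2‖
    rw [← Real.log_le_log_iff (by norm_num) p3, e3]
    linarith
  · show Real.exp L2 ≤ Real.exp l * ‖(W S i j).2.1‖ / 2
    rw [← Real.le_log_iff_exp_le (by positivity), Real.log_div p2.ne' (by norm_num), e2]
    linarith
  · show Real.exp l * ‖(W S i j).2.2‖ / 2 ≤
      (7 / 6) ^ ⌊Real.log (Real.exp l * ‖(W S i j).2.1‖ / 2) / 81⌋₊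
    rw [Real.log_div p2.ne' (by norm_num), e2]
    set k := ⌊(l + lw S i j - Real.log 2) / 81⌋₊ with hk
    have hk1 : (l + lw S i j - Real.log 2) / 81 < (k : ℝ) + 1 := Nat.lt_floor_add_one _
    have hk2 : 0.0051 * l - 1.01 ≤ (k : ℝ) := by linarith
    have h76 : 0.15 ≤ Real.log (7 / 6) := by
      rw [Real.le_log_iff_exp_le (by norm_num)]
      have h5 : Real.exp 0.05 ≤ 1 / (1 - 0.05) :=
        Real.exp_bound_div_one_sub_of_interval (by norm_num) (by norm_num)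
      have h7 : Real.exp 0.15 = (Real.exp 0.05) ^ 3 := by
        rw [← Real.exp_nat_mul]
        congr 1
        norm_num
      rw [h7]
      calc (Real.exp 0.05) ^ 3 ≤ (1 / (1 - 0.05)) ^ 3 :=
            pow_le_pow_left₀ (Real.exp_pos _).le h5 3
        _ ≤ 7 / 6 := by norm_num
    rw [← Real.log_le_log_iff (by positivity) (by positivity), Real.log_div p3.ne' (by norm_num),
      e3, Real.log_pow]
    have h6 : 0.15 * (k : ℝ) ≤ (k : ℝ) * Real.log (7 / 6) := by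
      rw [mul_comm]
      exact mul_le_mul_of_nonneg_left h76 (Nat.cast_nonneg k)
    linarith
  · intro w hw
    show ‖(off S.toSys 1 w).2.1‖ ≤ Real.exp l * ‖(W S i j).2.1‖
    have hlen : w.length = m := by
      have := count_add w
      have h7 := mem_cls.1 hw
      dsimp only at h7
      omega
    have h8 := off2_bound S 1 w
    rw [hlen, Nat.cast_one, one_mul] at h8
    refine h8.trans ?_
    have h9 : (1.0505 : ℝ) ≤ Real.exp 0.0505 := by
      have := Real.add_one_le_exp (0.0505 : ℝ)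
      linarith
    have h10 : (1.0505 : ℝ) ^ m ≤ Real.exp (0.326 * l) := by
      calc (1.0505 : ℝ) ^ m ≤ (Real.exp 0.0505) ^ m := pow_le_pow_left₀ (by norm_num) h9 m
        _ = Real.exp (m * 0.0505) := (Real.exp_nat_mul _ _).symm
        _ ≤ Real.exp (0.326 * l) := by
          rw [Real.exp_le_exp]
          linarith
    have h11 : (m : ℝ) ≤ Real.exp (0.088 * l) := by
      have h12 : (0.044 * l) + 1 ≤ Real.exp (0.044 * l) := Real.add_one_le_exp _
      have h13 : Real.exp (0.088 * l) = Real.exp (0.044 * l) * Real.exp (0.044 * l) := by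
        rw [← Real.exp_add]
        congr 1
        ring
      rw [h13]
      nlinarith
    have h14 : Real.exp (0.414 * l) ≤ Real.exp l * ‖(W S i j).2.1‖ := by
      rw [← Real.le_log_iff_exp_le p2, e2]
      exact lo2
    refine le_trans ?_ h14
    calc (m : ℝ) * 1.0505 ^ m ≤ Real.exp (0.088 * l) * Real.exp (0.326 * l) :=
          mul_le_mul h11 h10 (by positivity) (Real.exp_pos _).le
      _ = Real.exp (0.414 * l) := by
          rw [← Real.exp_add]
          congr 1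
          ring

open Classical in
theorem BoxH_good_mass (S : Sys2) (L2 : ℝ) : ∃ H0 : ℝ, 1 ≤ H0 ∧ ∀ H : ℝ, H0 ≤ H → ∃ m : ℕ,
    1 / 2 ≤ ∑ t ∈ (AD m).filter (fun t => goodT S H L2 t), bn S t.1 t.2 := by
  have hL0 : 0 ≤ |L2| := abs_nonneg _
  refine ⟨Real.exp (100000 + 3 * |L2|), Real.one_le_exp (by positivity), fun H hH => ?_⟩
  have Hpos : 0 < H := lt_of_lt_of_le (Real.exp_pos _) hH
  obtain ⟨l, hl⟩ : ∃ l, l = Real.log H := ⟨_, rfl⟩
  have hl1 : 100000 + 3 * |L2| ≤ l := by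
    rw [hl, Real.le_log_iff_exp_le Hpos]
    exact hH
  have hHl : H = Real.exp l := by rw [hl, Real.exp_log Hpos]
  subst hHl
  clear hl hH
  obtain ⟨g3l, g3u⟩ := gam3_bd S
  have g3p : 0 < gam3 S := by linarith
  have hl0 : 100000 ≤ l := by linarith
  obtain ⟨m, hm⟩ : ∃ m : ℕ, m = ⌊0.9996 * l / gam3 S⌋₊ := ⟨_, rfl⟩
  have hm1 : (m : ℝ) ≤ 0.9996 * l / gam3 S := by
    rw [hm]
    exact Nat.floor_le (by positivity)
  have hm2 : 0.9996 * l / gam3 S < (m : ℝ) + 1 := by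
    rw [hm]
    exact Nat.lt_floor_add_one _
  rw [le_div_iff₀ g3p, mul_comm] at hm1
  rw [div_lt_iff₀ g3p] at hm2
  have hm2' : 0.9996 * l < gam3 S * m + gam3 S := by linarith
  have hmbig : (400000 : ℝ) ≤ m := by nlinarith
  refine ⟨m, ?_⟩
  have hp0 : 0 ≤ (S.a.1)⁻¹ := (inv_pos.2 (ap S)).le
  have hq0 : 0 ≤ (S.b.1)⁻¹ := (inv_pos.2 (bp S)).le
  have hch := bin_cheb hp0 hq0 (pq S) m (0.001 * m) (by linarith)
  have hpp := pu S
  have hqq := qu S
  have h1 : (1 : ℝ) / 2 ≤ 1 - (S.a.1)⁻¹ * (S.b.1)⁻¹ * m / (0.001 * m) ^ 2 := by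
    have hmp : (0 : ℝ) < m := by linarith
    have h2 : (S.a.1)⁻¹ * (S.b.1)⁻¹ ≤ 0.8088 * 0.1914 := mul_le_mul hpp hqq hq0 (by norm_num)
    have h3 : (S.a.1)⁻¹ * (S.b.1)⁻¹ * m / (0.001 * m) ^ 2 ≤ 1 / 2 := by
      rw [div_le_iff₀ (by positivity)]
      have h4 : (S.a.1)⁻¹ * (S.b.1)⁻¹ * m ≤ 0.8088 * 0.1914 * m :=
        mul_le_mul_of_nonneg_right h2 hmp.le
      nlinarith
    linarith
  refine (h1.trans hch).trans ?_
  refine Finset.sum_le_sum_of_subset_of_nonneg ?_ fun t _ _ => bn_nonneg S t.1 t.2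
  intro t ht
  rw [Finset.mem_filter] at ht ⊢
  exact ⟨ht.1, BoxH_good S L2 l hl1 m hm1 hm2' t ht.1 ht.2⟩

end Pool.Agent.H49.PP
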