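import Pool.Agent.H49.PP.XN
import Pool.Agent.H49.PP.BinVar
import Pool.Agent.H49.PP.Num
import Pool.Agent.H49.PP.BoxHa

/-!
# JOBS PP-18 (`good_mass`), PP-19 (`boxH`). Large boxes

`good_mass`: `m = ⌊(1 - 0.0004) log H / gam3⌋₊`. By `bin_cheb` with `t = 0.001 m`, the `(i,j) ∈ AD m` with `|j - q m| ≤ 0.001 m` have mass `≥ 1 - 10^6 p q/m ≥ 1/2` for `H` large.
For such `(i, j)` (`lw_eq`, `lw3_eq`, `Num.lean`), with `ℓ = log H` and `m ≤ ℓ/0.155`, `|gam3 m - 0.9996 ℓ| ≤ 1`: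
`log (H ‖W‖_3) = ℓ - gam3 m - del3 (j - q m)` is `≥ 0.0004 ℓ - 0.03 · 0.001 · 6.46 ℓ ≥ 0.0002 ℓ` and `≤ 0.0006 ℓ + 1`;
`log (H ‖W‖_2) = ℓ - gam2 m - del2 (j - q m) ≥ ℓ - 0.09 · 6.46 ℓ - 0.0007 · 6.46 ℓ ≥ 0.41 ℓ`. So `2 ≤ H‖W‖_3`, `exp L2 ≤ H‖W‖_2/2` for `H` large;
`⌊log(H‖W‖_2/2)/81⌋ ≥ 0.005 ℓ` and `(7/6)^(0.005 ℓ) ≥ exp(0.15 · 0.005 ℓ) = exp(0.00075 ℓ) ≥ H‖W‖_3/2` (`log(7/6) ≥ 0.15`);
`‖off w‖_2 ≤ m 1.0505^m ≤ m exp(0.0495 m) ≤ 6.46 ℓ exp(0.32 ℓ) ≤ exp(0.41 ℓ)` (`off2_bound`, `log 1.0505 ≤ 0.0495`; for `w ∈ cls i j` the length is `m`).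

`boxH`: let `u` be invariant, `m` from `good_mass`. `SmX H H u = SS (fun z => u (T^m z) * ofReal (gs H H z)) = SS (fun y => u y * ∑_{w ∈ words m} ofReal (gs H H (gw w y)))`
(`reX`) `≥ ∑_{t good} ∑_{w ∈ cls t} SS (fun y => u y * ofReal (gs H H (gw w y)))` (`sum_words_eq`). For `w ∈ cls t`, `t` good, by `gs_gw`, `‖y - o‖² ≤ 2 ‖y‖² + 2 ‖o‖²`, `‖off w‖_2 ≤ H‖W‖_2`,
`‖off w‖_3 ≤ 6` (`off3_bound`), `H ‖W‖_3 ≥ 2`: `gs H H (gw w y) ≥ exp(-π(2 + 18)) gs (H‖W‖_2/2) (H‖W‖_3/2) y`. So with `R = H‖W‖_2/2`, `Q = H‖W‖_3/2`, `1 ≤ Q ≤ (7/6)^⌊log R/81⌋`,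
`R ≥ exp L2`, the hypothesis gives `≥ exp(-20π) c' R² Q² = exp(-20π) (c'/16) H⁴ ‖W‖_2² ‖W‖_3²`; the sum over `w ∈ cls t` and good `t` is
`≥ exp(-20π)(c'/16) H⁴ ∑_{t good} bn t ≥ exp(-20π) (c'/32) H⁴` (`card_cls`, `W1`, `W_prod`).
-/

set_option autoImplicit false

namespace Pool.Agent.H49.PP

open Pool.Agent.H67.Tent Pool.Agent.H49.AB Finset

open Classical in
theorem good_mass (S : Sys2) (L2 : ℝ) : ∃ H0 : ℝ, 1 ≤ H0 ∧ ∀ H : ℝ, H0 ≤ H → ∃ m : ℕ,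
    1 / 2 ≤ ∑ t ∈ (AD m).filter (fun t => goodT S H L2 t), bn S t.1 t.2 :=
  BoxH_good_mass S L2

theorem BoxH_one (S : Sys2) (H L2 : ℝ) (hH : 1 ≤ H) (t : ℕ × ℕ) (ht : goodT S H L2 t)
    (w : List Bool) (hw : w ∈ cls t.1 t.2) (y : E) :
    Real.exp (-(20 * Real.pi)) * gs (H * ‖(W S t.1 t.2).2.1‖ / 2) (H * ‖(W S t.1 t.2).2.2‖ / 2) y ≤
      gs H H (gw S 1 w y) := by
  obtain ⟨g1, g2, g3, g4⟩ := ht
  have h2 := W2_pos S t.1 t.2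
  have h3 := W3_pos S t.1 t.2
  have hoff2 := g4 w hw
  have hoff3 := off3_bound S 1 w
  rw [gs_gw S 1 H H hw y]
  unfold gs
  rw [← Real.exp_add, Real.exp_le_exp]
  set x2 := H * ‖(W S t.1 t.2).2.1‖ with hx2
  set x3 := H * ‖(W S t.1 t.2).2.2‖ with hx3
  have hx2p : 0 < x2 := by positivity
  have hx3p : 0 < x3 := by linarith
  set o2 := (off S.toSys 1 w).2.1
  set o3 := (off S.toSys 1 w).2.2
  have q2 : ‖y.2.1 - o2‖ ^ 2 ≤ 2 * ‖y.2.1‖ ^ 2 + 2 * ‖o2‖ ^ 2 := by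
    have h := norm_sub_le y.2.1 o2
    have h' : ‖y.2.1 - o2‖ ^ 2 ≤ (‖y.2.1‖ + ‖o2‖) ^ 2 := by
      apply pow_le_pow_left₀ (norm_nonneg _) h
    nlinarith [sq_nonneg (‖y.2.1‖ - ‖o2‖)]
  have q3 : ‖y.2.2 - o3‖ ^ 2 ≤ 2 * ‖y.2.2‖ ^ 2 + 2 * ‖o3‖ ^ 2 := by
    have h := norm_sub_le y.2.2 o3
    have h' : ‖y.2.2 - o3‖ ^ 2 ≤ (‖y.2.2‖ + ‖o3‖) ^ 2 := by
      apply pow_le_pow_left₀ (norm_nonneg _) h
    nlinarith [sq_nonneg (‖y.2.2‖ - ‖o3‖)]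
  have r2 : ‖y.2.1 - o2‖ ^ 2 / x2 ^ 2 ≤ ‖y.2.1‖ ^ 2 / (x2 / 2) ^ 2 + 2 := by
    have e : ‖y.2.1‖ ^ 2 / (x2 / 2) ^ 2 + 2 = (4 * ‖y.2.1‖ ^ 2 + 2 * x2 ^ 2) / x2 ^ 2 := by
      field_simp
      ring
    rw [e]
    apply div_le_div_of_nonneg_right _ (by positivity)
    have : ‖o2‖ ^ 2 ≤ x2 ^ 2 := pow_le_pow_left₀ (norm_nonneg _) hoff2 2
    nlinarith [sq_nonneg ‖y.2.1‖]
  have r3 : ‖y.2.2 - o3‖ ^ 2 / x3 ^ 2 ≤ ‖y.2.2‖ ^ 2 / (x3 / 2) ^ 2 + 18 := by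
    have e : ‖y.2.2‖ ^ 2 / (x3 / 2) ^ 2 + 18 = (4 * ‖y.2.2‖ ^ 2 + 18 * x3 ^ 2) / x3 ^ 2 := by
      field_simp
      ring
    rw [e]
    apply div_le_div_of_nonneg_right _ (by positivity)
    have h6 : ‖o3‖ ≤ 6 := by simpa using hoff3
    have : ‖o3‖ ^ 2 ≤ 6 ^ 2 := pow_le_pow_left₀ (norm_nonneg _) h6 2
    have h4 : (2:ℝ) ^ 2 ≤ x3 ^ 2 := pow_le_pow_left₀ (by norm_num) g1 2
    nlinarith [sq_nonneg ‖y.2.2‖]
  have := Real.pi_pos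
  nlinarith [mul_le_mul_of_nonneg_left (add_le_add r2 r3) this.le]

theorem boxH (S : Sys2) {N : ℕ} (hN : 1 ≤ N) (u : E → ENNReal) (h0 : u 0 = 0) (h1 : u 1 = 0)
    (hu : ∀ (m : ℕ) (z : E), u ((T S.toSys 1)^[m] z) = u z) (c' L2 : ℝ) (hc' : 0 < c')
    (h : ∀ R Q : ℝ, Real.exp L2 ≤ R → 1 ≤ Q → Q ≤ (7 / 6) ^ ⌊Real.log R / 81⌋₊ →
      ENNReal.ofReal (c' * (R ^ 2 * Q ^ 2)) ≤ SmX S N R Q u) :
    ∃ c H0 : ℝ, 0 < c ∧ 1 ≤ H0 ∧ ∀ H : ℝ, H0 ≤ H →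
      ENNReal.ofReal (c * H ^ 4) ≤ SmX S N H H u := by
  classical
  obtain ⟨H0, hH0, hm⟩ := good_mass S L2
  refine ⟨Real.exp (-(20 * Real.pi)) * c' / 32, H0, by positivity, hH0, fun H hH => ?_⟩
  obtain ⟨m, hmass⟩ := hm H hH
  have hH1 : 1 ≤ H := hH0.trans hH
  set X := Real.exp (-(20 * Real.pi)) with hX
  have hXp : 0 < X := Real.exp_pos _
  -- the change of variables
  have e1 : SmX S N H H u = SS (ptX S N) (fun y => u y *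
      ∑ w ∈ words m, ENNReal.ofReal (gs H H (gw S 1 w y))) := by
    rw [← reX S hN u (fun z => ENNReal.ofReal (gs H H z)) h0 h1 m]
    unfold SmX
    apply SS_congr
    intro i
    rw [hu]
  have e2 : SmX S N H H u = ∑ t ∈ AD m, ∑ w ∈ cls t.1 t.2,
      SS (ptX S N) (fun y => u y * ENNReal.ofReal (gs H H (gw S 1 w y))) := by
    rw [e1, ← sum_words_eq m (fun w => SS (ptX S N) (fun y => u y *
      ENNReal.ofReal (gs H H (gw S 1 w y)))), ← SS_sum]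
    congr 1
    funext y
    rw [Finset.mul_sum]
  -- good types
  have key : ∀ t ∈ (AD m).filter (fun t => goodT S H L2 t),
      ENNReal.ofReal (X * c' / 16 * H ^ 4 * bn S t.1 t.2) ≤ ∑ w ∈ cls t.1 t.2,
        SS (ptX S N) (fun y => u y * ENNReal.ofReal (gs H H (gw S 1 w y))) := by
    intro t ht
    have hg := (mem_filter.1 ht).2
    have h2 := W2_pos S t.1 t.2
    have h3 := W3_pos S t.1 t.2
    have hW1 := W1_pos S t.1 t.2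
    set R := H * ‖(W S t.1 t.2).2.1‖ / 2 with hR
    set Q := H * ‖(W S t.1 t.2).2.2‖ / 2 with hQ
    have hh := h R Q hg.2.1 (by have := hg.1; rw [hQ]; linarith) hg.2.2.1
    have hRQ : R ^ 2 * Q ^ 2 = H ^ 4 / 16 / |(W S t.1 t.2).1| := by
      rw [eq_div_iff hW1.ne', hR, hQ]
      calc _ = H ^ 4 / 16 * (|(W S t.1 t.2).1| * ‖(W S t.1 t.2).2.1‖ ^ 2 *
          ‖(W S t.1 t.2).2.2‖ ^ 2) := by ring
        _ = _ := by rw [W_prod S t.1 t.2, mul_one]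
    have hbn : bn S t.1 t.2 = ((cls t.1 t.2).card : ℝ) / |(W S t.1 t.2).1| := by
      have ha := ap S
      have hb := bp S
      rw [card_cls, W1]
      unfold bn bin
      rw [inv_pow, inv_pow]
      field_simp
    have each : ∀ w ∈ cls t.1 t.2, ENNReal.ofReal (X * (c' * (R ^ 2 * Q ^ 2))) ≤
        SS (ptX S N) (fun y => u y * ENNReal.ofReal (gs H H (gw S 1 w y))) := by
      intro w hw
      rw [ENNReal.ofReal_mul hXp.le]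
      calc ENNReal.ofReal X * ENNReal.ofReal (c' * (R ^ 2 * Q ^ 2))
          ≤ ENNReal.ofReal X * SmX S N R Q u := by gcongr
        _ = SS (ptX S N) (fun y => ENNReal.ofReal X * (u y * ENNReal.ofReal (gs R Q y))) := by
            rw [SS_const_mul]; rfl
        _ ≤ _ := by
            apply SS_mono
            intro i
            rw [← mul_assoc, mul_comm (ENNReal.ofReal X), mul_assoc, ← ENNReal.ofReal_mul hXp.le]
            gcongr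
            exact BoxH_one S H L2 hH1 t hg w hw _
    calc ENNReal.ofReal (X * c' / 16 * H ^ 4 * bn S t.1 t.2)
        = ∑ w ∈ cls t.1 t.2, ENNReal.ofReal (X * (c' * (R ^ 2 * Q ^ 2))) := by
          rw [Finset.sum_const, nsmul_eq_mul, ← ENNReal.ofReal_natCast,
            ← ENNReal.ofReal_mul (Nat.cast_nonneg _)]
          congr 1
          rw [hRQ, hbn]
          ring
      _ ≤ _ := Finset.sum_le_sum each
  rw [e2]
  calc ENNReal.ofReal (X * c' / 32 * H ^ 4)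
      ≤ ENNReal.ofReal (∑ t ∈ (AD m).filter (fun t => goodT S H L2 t),
          X * c' / 16 * H ^ 4 * bn S t.1 t.2) := by
        apply ENNReal.ofReal_le_ofReal
        rw [← Finset.mul_sum]
        have : 0 ≤ X * c' / 16 * H ^ 4 := by positivity
        nlinarith [mul_le_mul_of_nonneg_left hmass this]
    _ = ∑ t ∈ (AD m).filter (fun t => goodT S H L2 t),
          ENNReal.ofReal (X * c' / 16 * H ^ 4 * bn S t.1 t.2) := by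
        apply ENNReal.ofReal_sum_of_nonneg
        intro t _
        have := bn_nonneg S t.1 t.2
        positivity
    _ ≤ ∑ t ∈ (AD m).filter (fun t => goodT S H L2 t), ∑ w ∈ cls t.1 t.2,
        SS (ptX S N) (fun y => u y * ENNReal.ofReal (gs H H (gw S 1 w y))) :=
        Finset.sum_le_sum key
    _ ≤ _ := Finset.sum_le_sum_of_subset (filter_subset _ _)

end Pool.Agent.H49.PP
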