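import Pool.Agent.H49.PP.Window

/-!
# JOB PP-08. Proof of `chain1a`

The proof is described in the header of `Chain1.lean`.
-/

set_option autoImplicit false

namespace Pool.Agent.H49.PP

open Pool.Agent.H67.Tent Pool.Agent.H49.AB Finset

/-- The real number estimates at the end of the step. -/
theorem chain1a_num (A : ℕ) (hA : 5 ≤ A) (C c c0 : ℝ) (hC : 1 ≤ C) (hc : 0 < c) (hc0 : 0 < c0)
    (m n o : ℝ) (hm : 1 ≤ m) (hn : n ≤ 1.0018 * m) (ho : 0.001 * m ≤ o)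
    (hbig : (1 + 3 * C * 1000 ^ A) / (c * c0) ≤ m) :
    1 / m ^ 3 + C * (n + 1) / o ^ A ≤ c / m * (c0 / m) := by
  have hm0 : 0 < m := by linarith
  have ho0 : 0 < o := by linarith
  have hcc : 0 < c * c0 := mul_pos hc hc0
  rw [div_le_iff₀ hcc] at hbig
  have h1 : C * (n + 1) / o ^ A ≤ 3 * C * 1000 ^ A / m ^ 4 := by
    have h2 : (m / 1000) ^ A ≤ o ^ A := pow_le_pow_left₀ (by positivity) (by linarith) A
    have h3 : m ^ 5 ≤ m ^ A := pow_le_pow_right₀ hm hA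
    have h4 : (m / 1000) ^ A = m ^ A / 1000 ^ A := div_pow _ _ _
    rw [div_le_div_iff₀ (pow_pos ho0 A) (pow_pos hm0 4)]
    have h5 : C * (n + 1) ≤ 3 * C * m := by
      have := mul_le_mul_of_nonneg_left (by linarith : n + 1 ≤ 3 * m) (by linarith : 0 ≤ C)
      linarith
    have h6 : 3 * C * 1000 ^ A * (m / 1000) ^ A = 3 * C * m ^ A := by
      rw [h4]
      field_simp
    calc C * (n + 1) * m ^ 4 ≤ 3 * C * m * m ^ 4 :=
          mul_le_mul_of_nonneg_right h5 (by positivity)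
      _ = 3 * C * m ^ 5 := by ring
      _ ≤ 3 * C * m ^ A := mul_le_mul_of_nonneg_left h3 (by linarith)
      _ = 3 * C * 1000 ^ A * (m / 1000) ^ A := h6.symm
      _ ≤ 3 * C * 1000 ^ A * o ^ A := mul_le_mul_of_nonneg_left h2 (by positivity)
  refine (add_le_add_right h1 _).trans ?_
  have h7 : 1 / m ^ 3 + 3 * C * 1000 ^ A / m ^ 4 = (m + 3 * C * 1000 ^ A) / m ^ 4 := by
    field_simp
  have h8 : c / m * (c0 / m) = (c * c0 * m ^ 2) / m ^ 4 := by
    field_simp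
  rw [h7, h8]
  refine div_le_div_of_nonneg_right ?_ (by positivity)
  have h9 : 0 ≤ 3 * C * 1000 ^ A := by positivity
  have h10 : 3 * C * 1000 ^ A * 1 ≤ 3 * C * 1000 ^ A * m := mul_le_mul_of_nonneg_left hm h9
  have h11 : (1 + 3 * C * 1000 ^ A) * m ≤ m * (c * c0) * m :=
    mul_le_mul_of_nonneg_right hbig hm0.le
  have h12 : m * (c * c0) * m = c * c0 * m ^ 2 := by ring
  linarith

theorem chain1a_aux (S : Sys2) (A : ℕ) (hA : 5 ≤ A) (C : ℝ) (hC : 1 ≤ C) (o0 : ℕ) (c0 : ℝ)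
    (hc0 : 0 < c0) : ∃ n2 : ℕ, 1 ≤ n2 ∧ ∀ f : ℕ → ℝ → ℝ, (∀ n L, 0 ≤ f n L) →
      (∀ (n o : ℕ) (L : ℝ), o0 ≤ o → 17 * o ≤ n → 40 * (o : ℝ) ≤ L →
        ∑ x ∈ AD o, bn S x.1 x.2 * f (n - o) (L + lw S x.1 x.2) ≤
          f n L + C * (n + 1) / (o : ℝ) ^ A) →
      ∀ (m : ℕ) (L0 : ℝ), n2 ≤ m → |L0 - gam2 S * m| ≤ Real.sqrt m →
      (∀ L, L0 ≤ L → L ≤ L0 + 1 → c0 / m ≤ f m L) →
      ∀ (n : ℕ) (L : ℝ), 1.001 * (m : ℝ) ≤ n → (n : ℝ) ≤ 1.0018 * m →
        |L - gam2 S * n| ≤ Real.sqrt n → 1 / (m : ℝ) ^ 3 ≤ f n L := by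
  obtain ⟨c, n0, hc, hc1, hn0, hloc⟩ := bin_local (S.a.1)⁻¹ (S.b.1)⁻¹ (inv_pos.2 (ap S))
    (inv_pos.2 (bp S)) (pq S) 200 (by norm_num)
  set M : ℕ := ⌈(1 + 3 * C * 1000 ^ A) / (c * c0)⌉₊ with hM
  refine ⟨10 ^ 9 + 1000 * o0 + 1000 * n0 + M, by omega, ?_⟩
  intro f hf0 hstep m L0 hm hL0 hfm n L hn1 hn2 hL
  have hm9 : 10 ^ 9 ≤ m := by omega
  have hmR : (10 : ℝ) ^ 9 ≤ m := by exact_mod_cast hm9
  have hm0 : (0 : ℝ) < m := lt_of_lt_of_le (by norm_num) hmR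
  have hmn : m ≤ n := by
    have : (m : ℝ) ≤ n := by linarith
    exact_mod_cast this
  obtain ⟨o, rfl⟩ := Nat.exists_eq_add_of_le hmn
  push_cast at hn1 hn2 hL
  have ho1 : 0.001 * (m : ℝ) ≤ o := by linarith
  have ho2 : (o : ℝ) ≤ 0.0018 * m := by linarith
  have ho0 : (0 : ℝ) < o := by linarith
  obtain ⟨g1, g2⟩ := gam2_bd S
  obtain ⟨d1, d2⟩ := del2_bd S
  have q1 := ql S
  have q2 := qu S
  -- square roots
  set s : ℝ := Real.sqrt m with hs
  have hs2 : s ^ 2 = m := Real.sq_sqrt hm0.le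
  have hs0 : 0 ≤ s := Real.sqrt_nonneg _
  have hs31 : 31000 ≤ s := by
    rw [hs]
    refine Real.le_sqrt_of_sq_le ?_
    linarith
  set r : ℝ := Real.sqrt ((m : ℝ) + o) with hr
  have hr2 : r ^ 2 = m + o := Real.sq_sqrt (by linarith)
  have hr0 : 0 ≤ r := Real.sqrt_nonneg _
  have hs3 : 31000 * s ≤ m := by
    rw [← hs2, sq]
    exact mul_le_mul_of_nonneg_right hs31 hs0
  have hrs : r ≤ 2 * s := by
    rw [hr]
    refine Real.sqrt_le_iff.2 ⟨by linarith, ?_⟩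
    rw [mul_pow, hs2]
    linarith
  set u : ℝ := Real.sqrt o with hu
  have hu2 : u ^ 2 = o := Real.sq_sqrt ho0.le
  have hu0 : 0 < u := Real.sqrt_pos.2 ho0
  have hsu : s ≤ 32 * u := by
    rw [hs]
    refine Real.sqrt_le_iff.2 ⟨by linarith, ?_⟩
    rw [mul_pow, hu2]
    linarith
  have hu1 : 1 ≤ u := by linarith
  obtain ⟨e1, e2⟩ := abs_le.1 hL0
  obtain ⟨e3, e4⟩ := abs_le.1 hL
  -- the integer j
  set Y : ℝ := L - gam2 S * o - L0 with hY
  have hY1 : Y ≤ 3 * s := by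
    rw [hY]
    linarith
  have hY2 : -(3 * s) ≤ Y := by
    rw [hY]
    linarith
  have hd0 : 0 < del2 S := by linarith
  have hdiv1 : Y / del2 S ≤ 5 * s := by
    rw [div_le_iff₀ hd0]
    have h1 := mul_le_mul_of_nonneg_left d1 (by linarith : (0 : ℝ) ≤ 5 * s)
    linarith
  have hdiv2 : -(5 * s) ≤ Y / del2 S := by
    rw [le_div_iff₀ hd0]
    have h1 := mul_le_mul_of_nonneg_left d1 (by linarith : (0 : ℝ) ≤ 5 * s)
    linarith
  set X : ℝ := Y / del2 S + (S.b.1)⁻¹ * o with hX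
  have hqo1 := mul_le_mul_of_nonneg_right q1 ho0.le
  have hqo2 := mul_le_mul_of_nonneg_right q2 ho0.le
  have hX0 : 0 ≤ X := by
    rw [hX]
    linarith
  have hXo : X ≤ o := by
    rw [hX]
    linarith
  set j : ℕ := ⌊X⌋₊ with hj
  have hj1 : (j : ℝ) ≤ X := Nat.floor_le hX0
  have hj2 : X < j + 1 := Nat.lt_floor_add_one X
  have hjo : j ≤ o := by
    have : (j : ℝ) ≤ o := hj1.trans hXo
    exact_mod_cast this
  obtain ⟨i, hi⟩ := Nat.exists_eq_add_of_le' hjo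
  -- o = i + j
  have hiR : (i : ℝ) + j = o := by
    rw [hi]
    push_cast
    ring
  have hmem : ((i, j) : ℕ × ℕ) ∈ AD o := mem_AD.2 hi.symm
  have hlw : lw S i j = -(gam2 S * o) - del2 S * (j - (S.b.1)⁻¹ * o) := by
    rw [lw_eq, hiR]
  have hXY : del2 S * (X - (S.b.1)⁻¹ * o) = Y := by
    rw [hX]
    field_simp
    ring
  have hw1 : L0 ≤ L + lw S i j := by
    rw [hlw]
    have : del2 S * (j - (S.b.1)⁻¹ * o) ≤ Y := by
      rw [← hXY]
      exact mul_le_mul_of_nonneg_left (by linarith) hd0.le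
    rw [hY] at this
    linarith
  have hw2 : L + lw S i j ≤ L0 + 1 := by
    rw [hlw]
    have : Y - 1 ≤ del2 S * (j - (S.b.1)⁻¹ * o) := by
      have h1 : del2 S * (X - 1 - (S.b.1)⁻¹ * o) ≤ del2 S * (j - (S.b.1)⁻¹ * o) :=
        mul_le_mul_of_nonneg_left (by linarith) hd0.le
      have h2 : del2 S * (X - 1 - (S.b.1)⁻¹ * o) = Y - del2 S := by
        rw [← hXY]
        ring
      linarith
    rw [hY] at this
    linarith
  have hterm := hfm _ hw1 hw2
  -- the weight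
  have hbn : c / m ≤ bn S i j := by
    have h1 : |(j : ℝ) - (S.b.1)⁻¹ * ((i + j : ℕ) : ℝ)| ≤ 200 * Real.sqrt ((i + j : ℕ) : ℝ) := by
      rw [← hi, ← hu, abs_le]
      constructor
      · have : -(5 * s) ≤ X - (S.b.1)⁻¹ * o := by
          rw [hX]
          linarith
        linarith
      · have : X - (S.b.1)⁻¹ * o ≤ 5 * s := by
          rw [hX]
          linarith
        linarith
    have h2 := hloc i j (by
      rw [← hi]
      have : (n0 : ℝ) ≤ o := by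
        have h3 : 1000 * n0 ≤ m := by omega
        have h4 : (1000 : ℝ) * n0 ≤ m := by exact_mod_cast h3
        linarith
      exact_mod_cast this) h1
    rw [← hi, ← hu] at h2
    refine le_trans ?_ h2
    refine div_le_div_of_nonneg_left hc.le hu0 ?_
    have h3 : u * 1 ≤ u * u := mul_le_mul_of_nonneg_left hu1 hu0.le
    rw [← sq, hu2] at h3
    linarith
  have hstep1 := hstep (m + o) o L (by
      have : (o0 : ℝ) ≤ o := by
        have h3 : 1000 * o0 ≤ m := by omega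
        have h4 : (1000 : ℝ) * o0 ≤ m := by exact_mod_cast h3
        linarith
      exact_mod_cast this) (by
      have : (17 : ℝ) * o ≤ m + o := by linarith
      exact_mod_cast this) (by
      have h1 := mul_le_mul_of_nonneg_right g1 (by linarith : (0 : ℝ) ≤ (m : ℝ) + o)
      linarith)
  rw [Nat.add_sub_cancel] at hstep1
  have hsum : c / m * (c0 / m) ≤
      ∑ x ∈ AD o, bn S x.1 x.2 * f m (L + lw S x.1 x.2) := by
    refine le_trans ?_ (Finset.single_le_sum (f := fun x : ℕ × ℕ =>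
      bn S x.1 x.2 * f m (L + lw S x.1 x.2))
      (fun x _ => mul_nonneg (bn_nonneg S _ _) (hf0 _ _)) hmem)
    exact mul_le_mul hbn hterm (by positivity) (bn_nonneg S _ _)
  have hfin := chain1a_num A hA C c c0 hC hc hc0 m (m + o) o (by linarith) (by linarith) ho1 (by
    refine (Nat.le_ceil _).trans ?_
    have : M ≤ m := by omega
    exact Nat.cast_le.2 this)
  push_cast at hstep1
  linarith

end Pool.Agent.H49.PP
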