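import Pool.Agent.H49.PP.Window

/-!
# Helper lemma for `chain1b` (PP-09): the error term
-/

set_option autoImplicit false

namespace Pool.Agent.H49.PP

open Pool.Agent.H67.Tent Pool.Agent.H49.AB Finset

theorem chain1b_err {C : ℝ} (hC : 1 ≤ C) (B m n o : ℕ) (hm : 1 ≤ m) (hmn : m ≤ n)
    (hno : n ≤ 2000 * o) (hK : 2 * C * 2000 ^ (B + 5) * 2 ^ B ≤ (m : ℝ)) :
    C * (n + 1) / (o : ℝ) ^ (B + 5) ≤ 1 / (m : ℝ) ^ 3 * ((m : ℝ) / (2 * n)) ^ B := by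
  have hm1 : (1 : ℝ) ≤ m := by exact_mod_cast hm
  have hn1 : (m : ℝ) ≤ n := by exact_mod_cast hmn
  have hm0 : (0 : ℝ) < m := by linarith
  have hn0 : (0 : ℝ) < n := by linarith
  have hno' : (n : ℝ) ≤ 2000 * o := by exact_mod_cast hno
  have ho0 : (0 : ℝ) < o := by linarith
  have h1 : (n : ℝ) ^ (B + 5) ≤ 2000 ^ (B + 5) * (o : ℝ) ^ (B + 5) := by
    rw [← mul_pow]
    exact pow_le_pow_left₀ hn0.le hno' _
  have h2 : C * (n + 1) / (o : ℝ) ^ (B + 5) ≤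
      2 * C * 2000 ^ (B + 5) * n / (n : ℝ) ^ (B + 5) := by
    rw [div_le_div_iff₀ (by positivity) (by positivity)]
    calc C * (n + 1) * (n : ℝ) ^ (B + 5)
        ≤ C * (2 * n) * (2000 ^ (B + 5) * (o : ℝ) ^ (B + 5)) := by
          refine mul_le_mul ?_ h1 (by positivity) (by positivity)
          exact mul_le_mul_of_nonneg_left (by linarith) (by linarith)
      _ = 2 * C * 2000 ^ (B + 5) * n * (o : ℝ) ^ (B + 5) := by ring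
  refine h2.trans ?_
  rw [div_pow, mul_pow, div_mul_div_comm, one_mul,
    div_le_div_iff₀ (by positivity) (by positivity)]
  have h3 : 2 * C * 2000 ^ (B + 5) * 2 ^ B * (m : ℝ) ^ 3 ≤ (m : ℝ) ^ B * (n : ℝ) ^ 4 := by
    have h5 : (m : ℝ) ^ 4 ≤ (n : ℝ) ^ 4 := pow_le_pow_left₀ hm0.le hn1 4
    have h4 : (1 : ℝ) ≤ (m : ℝ) ^ B := one_le_pow₀ hm1
    calc 2 * C * 2000 ^ (B + 5) * 2 ^ B * (m : ℝ) ^ 3 ≤ m * (m : ℝ) ^ 3 :=
          mul_le_mul_of_nonneg_right hK (by positivity)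
      _ = 1 * (m : ℝ) ^ 4 := by ring
      _ ≤ (m : ℝ) ^ B * (n : ℝ) ^ 4 := mul_le_mul h4 h5 (by positivity) (by positivity)
  calc 2 * C * 2000 ^ (B + 5) * n * ((m : ℝ) ^ 3 * (2 ^ B * (n : ℝ) ^ B))
      = (2 * C * 2000 ^ (B + 5) * 2 ^ B * (m : ℝ) ^ 3) * (n : ℝ) ^ (B + 1) := by ring
    _ ≤ ((m : ℝ) ^ B * (n : ℝ) ^ 4) * (n : ℝ) ^ (B + 1) :=
        mul_le_mul_of_nonneg_right h3 (by positivity)
    _ = (m : ℝ) ^ B * (n : ℝ) ^ (B + 5) := by ring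

theorem chain1b_ratio {p1 : ℝ} (hp : 0 < p1) {B : ℕ} (hB : 2 / p1 < (1 + 1 / 2000 : ℝ) ^ B)
    {m n k : ℝ} (hm : 0 < m) (hk : 0 < k) (hn : 0 < n) (hkn : (1 + 1 / 2000) * k ≤ n) :
    2 * (1 / m ^ 3 * (m / (2 * n)) ^ B) ≤ p1 * (1 / m ^ 3 * (m / (2 * k)) ^ B) := by
  have h1 : m / (2 * n) * (1 + 1 / 2000) ≤ m / (2 * k) := by
    rw [div_mul_eq_mul_div, div_le_div_iff₀ (by positivity) (by positivity)]
    have h2 : m * ((1 + 1 / 2000) * k) ≤ m * n := mul_le_mul_of_nonneg_left hkn hm.le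
    linarith
  have h2 : (m / (2 * n)) ^ B * (1 + 1 / 2000) ^ B ≤ (m / (2 * k)) ^ B := by
    rw [← mul_pow]
    exact pow_le_pow_left₀ (by positivity) h1 _
  have h3 : 2 ≤ p1 * (1 + 1 / 2000 : ℝ) ^ B := by
    rw [div_lt_iff₀ hp] at hB
    linarith
  have h4 : 0 ≤ (m / (2 * n)) ^ B := by positivity
  have h5 : 0 ≤ 1 / m ^ 3 := by positivity
  calc 2 * (1 / m ^ 3 * (m / (2 * n)) ^ B) ≤
        (p1 * (1 + 1 / 2000 : ℝ) ^ B) * (1 / m ^ 3 * (m / (2 * n)) ^ B) :=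
        mul_le_mul_of_nonneg_right h3 (by positivity)
    _ = p1 * (1 / m ^ 3 * ((m / (2 * n)) ^ B * (1 + 1 / 2000) ^ B)) := by ring
    _ ≤ p1 * (1 / m ^ 3 * (m / (2 * k)) ^ B) :=
        mul_le_mul_of_nonneg_left (mul_le_mul_of_nonneg_left h2 h5) hp.le

end Pool.Agent.H49.PP
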