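import Pool.Agent.H49.PP.Window
import Pool.Agent.H49.PP.Chain1a
import Pool.Agent.H49.PP.Chain1b

/-!
# JOBS PP-08 (`chain1a`), PP-09 (`chain1b`). The chain for the preimages of a point

`StepF S A C o0 f`: `f` satisfies the lower step inequality.

`chain1a` (the first step, from one point `(m, L0)` to all `n` in `[1.001 m, 1.0018 m]` and all `L` in the window). Let `o = n - m`, so `0.001 m ≤ o ≤ 0.0018 m`. Then
`17 o ≤ n`, `o0 ≤ o` for `m` large, `40 o ≤ 0.072 m ≤ 0.08 n - √n ≤ L` for `m` large (`gam2_bd`). We look for `(i, j) ∈ AD o` with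
`L0 ≤ L + lw(i,j) ≤ L0 + 1`: by `lw_eq` this says `L - γ o - L0 - 1 ≤ del2 (j - q o) ≤ L - γ o - L0`, an interval of length `1/del2 ≥ 1/0.7 > 1` for `j`, so there is an integer `j`
in it; `|L - γ o - L0| ≤ |L - γ n| + |γ m - L0| ≤ √n + √m ≤ 3 √m`, so `|j - q o| ≤ (3 √m + 1)/0.6 ≤ 6 √m ≤ 6 √(1000 o) ≤ 200 √o`, and then `0 ≤ j ≤ o` for
`m` large. `bin_local` with `K = 200`: `bn i j ≥ c/√o ≥ c/√m ≥ c/m`. All terms of the sum are `≥ 0`, hence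
`f n L ≥ (c/m)(c0/m) - C (n+1)/o^A ≥ c c0/m² - C · 3 m · 1000^A / m^A ≥ 1/m³` for `m` large, since `A ≥ 5`.

`chain1b`: `p1` from `window_prob`, `B` with `(1 + 1/2000)^B ≥ 2/p1`, `A = B + 5`. Strong induction on `n`: the claim is `(1/m³)(m/(2n))^B ≤ f n L` for `n ≥ 1.001 m`,
`|L - γ n| ≤ √n`. For `n ≤ 1.0018 m` it follows from the hypothesis (`m/(2n) ≤ 1`). For `n > 1.0018 m` let `o = ⌊n/2000⌋ + 1`: `n ≤ 2000 o`, `1000 o ≤ n`,
`n - o ≥ 1.0018 m (1 - 1/2000) - 1 ≥ 1.001 m`, `17 o ≤ n`, `o0 ≤ o`, `40 o ≤ 0.04 n ≤ 0.08 n - √n ≤ L`. Restrict the sum to the `x` with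
`|L + lw x - γ (n-o)| ≤ √(n-o)`, use the induction hypothesis for `n - o` there, and `window_prob`:
`f n L ≥ p1 (1/m³)(m/(2(n-o)))^B - C (n+1)/o^A`. As `n/(n-o) ≥ 1 + 1/2000`, the first term is `≥ 2 (1/m³)(m/(2n))^B`, and the error is
`≤ 2 C n (2000/n)^A ≤ (1/m³)(m/(2n))^B` because `2 C 2000^A 2^B n^(1-A+B) ≤ 2 C 2000^A 2^B m^(-4) ≤ m^(B-3-B)...`: precisely one needs
`2 C 2000^A 2^B n^(B+1) m³ ≤ m^B n^A`, and `n^A = n^(B+1) n^4 ≥ n^(B+1) m^4`, so `2 C 2000^A 2^B ≤ m^(B+1)`: true for `m` large.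
-/

set_option autoImplicit false

namespace Pool.Agent.H49.PP

open Pool.Agent.H67.Tent Pool.Agent.H49.AB Finset

/-- The lower step inequality. -/
def StepF (S : Sys2) (A : ℕ) (C : ℝ) (o0 : ℕ) (f : ℕ → ℝ → ℝ) : Prop :=
  (∀ n L, 0 ≤ f n L) ∧ ∀ (n o : ℕ) (L : ℝ), o0 ≤ o → 17 * o ≤ n → 40 * (o : ℝ) ≤ L →
    ∑ x ∈ AD o, bn S x.1 x.2 * f (n - o) (L + lw S x.1 x.2) ≤ f n L + C * (n + 1) / (o : ℝ) ^ A

theorem chain1a (S : Sys2) (A : ℕ) (hA : 5 ≤ A) (C : ℝ) (hC : 1 ≤ C) (o0 : ℕ) (c0 : ℝ)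
    (hc0 : 0 < c0) : ∃ n2 : ℕ, 1 ≤ n2 ∧ ∀ f : ℕ → ℝ → ℝ, StepF S A C o0 f →
      ∀ (m : ℕ) (L0 : ℝ), n2 ≤ m → |L0 - gam2 S * m| ≤ Real.sqrt m →
      (∀ L, L0 ≤ L → L ≤ L0 + 1 → c0 / m ≤ f m L) →
      ∀ (n : ℕ) (L : ℝ), 1.001 * (m : ℝ) ≤ n → (n : ℝ) ≤ 1.0018 * m →
        |L - gam2 S * n| ≤ Real.sqrt n → 1 / (m : ℝ) ^ 3 ≤ f n L := by
  obtain ⟨n2, h1, h2⟩ := chain1a_aux S A hA C hC o0 c0 hc0
  exact ⟨n2, h1, fun f hf => h2 f hf.1 hf.2⟩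

theorem chain1b (S : Sys2) : ∃ B : ℕ, ∀ (C : ℝ) (o0 : ℕ), 1 ≤ C → ∃ n3 : ℕ, 1 ≤ n3 ∧
    ∀ f : ℕ → ℝ → ℝ, StepF S (B + 5) C o0 f → ∀ m : ℕ, n3 ≤ m →
      (∀ (n : ℕ) (L : ℝ), 1.001 * (m : ℝ) ≤ n → (n : ℝ) ≤ 1.0018 * m →
        |L - gam2 S * n| ≤ Real.sqrt n → 1 / (m : ℝ) ^ 3 ≤ f n L) →
      ∀ (n : ℕ) (L : ℝ), 1.001 * (m : ℝ) ≤ n → |L - gam2 S * n| ≤ Real.sqrt n →
        1 / (m : ℝ) ^ 3 * ((m : ℝ) / (2 * n)) ^ B ≤ f n L := by
  classical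
  obtain ⟨p1, n1, hp, hp1, hwin⟩ := window_prob S
  obtain ⟨B, hB⟩ := pow_unbounded_of_one_lt (2 / p1) (by norm_num : (1 : ℝ) < 1 + 1 / 2000)
  refine ⟨B, fun C o0 hC => ?_⟩
  obtain ⟨k, hk⟩ := exists_nat_ge (2 * C * 2000 ^ (B + 5) * 2 ^ B : ℝ)
  refine ⟨k + 10000 + 2000 * o0 + n1, by omega, fun f hf m hm H0 => ?_⟩
  have hmK : 2 * C * 2000 ^ (B + 5) * 2 ^ B ≤ (m : ℝ) :=
    hk.trans (by exact_mod_cast (by omega : k ≤ m))
  have hm0 : (10000 : ℝ) ≤ m := by exact_mod_cast (by omega : 10000 ≤ m)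
  intro n
  induction n using Nat.strong_induction_on with
  | _ n ih =>
    intro L hn hL
    have hmn : (m : ℝ) ≤ n := by linarith
    have hmnN : m ≤ n := by exact_mod_cast hmn
    have hn0 : (0 : ℝ) < n := by linarith
    by_cases hcase : (n : ℝ) ≤ 1.0018 * m
    · refine le_trans ?_ (H0 n L hn hcase hL)
      have h1 : ((m : ℝ) / (2 * n)) ^ B ≤ 1 :=
        pow_le_one₀ (by positivity) (by rw [div_le_one (by linarith)]; linarith)
      calc 1 / (m : ℝ) ^ 3 * ((m : ℝ) / (2 * n)) ^ B ≤ 1 / (m : ℝ) ^ 3 * 1 :=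
            mul_le_mul_of_nonneg_left h1 (by positivity)
        _ = 1 / (m : ℝ) ^ 3 := mul_one _
    · have hcase' : 1.0018 * (m : ℝ) < n := not_le.1 hcase
      obtain ⟨o, ho⟩ : ∃ o : ℕ, o = n / 2000 + 1 := ⟨_, rfl⟩
      have ho1 : n ≤ 2000 * o := by omega
      have ho2 : 1000 * o ≤ n := by omega
      have ho3 : o0 ≤ o := by omega
      have hon : o ≤ n := by omega
      have ho1r : (n : ℝ) ≤ 2000 * o := by exact_mod_cast ho1
      have ho2r : 1000 * (o : ℝ) ≤ n := by exact_mod_cast ho2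
      have hcast : ((n - o : ℕ) : ℝ) = n - o := Nat.cast_sub hon
      have ho4 : (o : ℝ) ≤ n / 2000 + 1 := by
        have h1 : 2000 * o ≤ n + 2000 := by omega
        have h2 : (2000 : ℝ) * o ≤ n + 2000 := by exact_mod_cast h1
        linarith
      have hlow : 1.001 * (m : ℝ) ≤ ((n - o : ℕ) : ℝ) := by
        rw [hcast]
        linarith
      have hsq : (25 : ℝ) ≤ Real.sqrt n := Real.le_sqrt_of_sq_le (by linarith)
      have hsq2 : Real.sqrt n ≤ 0.04 * n := by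
        have h1 := Real.mul_self_sqrt hn0.le
        nlinarith
      have hL40 : 40 * (o : ℝ) ≤ L := by
        have h1 := (abs_le.1 hL).1
        have h2 : 0.08 * (n : ℝ) ≤ gam2 S * n :=
          mul_le_mul_of_nonneg_right (gam2_bd S).1 hn0.le
        linarith
      have hstep := hf.2 n o L ho3 (by omega) hL40
      have hwp := hwin n o L (by omega) ho1 ho2 hL
      obtain ⟨δ, hδ⟩ : ∃ δ : ℝ, δ =
        1 / (m : ℝ) ^ 3 * ((m : ℝ) / (2 * ((n - o : ℕ) : ℝ))) ^ B := ⟨_, rfl⟩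
      have hδ0 : 0 ≤ δ := by
        rw [hδ]
        positivity
      have hsum : p1 * δ ≤
          ∑ x ∈ AD o, bn S x.1 x.2 * f (n - o) (L + lw S x.1 x.2) := by
        refine le_trans (mul_le_mul_of_nonneg_right hwp hδ0) ?_
        rw [Finset.sum_mul]
        refine le_trans (Finset.sum_le_sum (g := fun x : ℕ × ℕ =>
          bn S x.1 x.2 * f (n - o) (L + lw S x.1 x.2)) fun x hx => ?_) ?_
        · refine mul_le_mul_of_nonneg_left ?_ (bn_nonneg S _ _)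
          rw [hδ]
          exact ih (n - o) (by omega) _ hlow (Finset.mem_filter.1 hx).2
        · exact Finset.sum_le_sum_of_subset_of_nonneg (Finset.filter_subset _ _)
            fun x _ _ => mul_nonneg (bn_nonneg S _ _) (hf.1 _ _)
      have hrat := chain1b_ratio hp hB (m := (m : ℝ)) (n := (n : ℝ)) (k := ((n - o : ℕ) : ℝ))
        (by linarith) (by linarith) hn0 (by rw [hcast]; linarith)
      rw [← hδ] at hrat
      have herr := chain1b_err hC B m n o (by omega) hmnN ho1 hmK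
      linarith

end Pool.Agent.H49.PP
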