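import Pool.Agent.H49.PP.StepX

/-!
# JOB PP-17 (`chain2`, pure). The chain over the scales

`P L c` says that the density at the scale `exp L` is at least `c`. Choose `L0` large (depending on `A, B, C, o0, c0, L1`) and `c := c0/(4 L0^B)`. Claim: for all `L ≥ 79 L0/80`:
`P L (c (1 + L0/L))`. It is enough to prove for all `k : ℕ` that it holds for `79 L0/80 ≤ L ≤ L0 + k` (induction on `k`).
`L ≤ L0`: `c (1 + L0/L) ≤ c · 2.02 ≤ c0/L0^B ≤ c0/L^B`, `hbase` (if `L0 · 79/80 ≥ L1`) and `hmono`.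
`L0 + k < L ≤ L0 + k + 1`: let `o = ⌊L/80⌋₊`; `40 o ≤ L`, `o0 ≤ o`, `o ≥ L/81`. For `L - o ≤ L' ≤ L - o/50`: `L' ≥ 79 L/80 ≥ 79 L0/80` and
`L' ≤ L - L/4050 ≤ L - 1 ≤ L0 + k` (`L0 ≥ 4050`); so `P L' (c (1 + L0/L'))` and, as `1/L' ≥ (1/L)(1 + 1/4050)`, `P L' c1` with `c1 = c (1 + (L0/L)(1 + 1/4050))` (`hmono`). `hstep`:
`P L ((1 - 0.984^o) c1 - C/o^A)`, and this is `≥ c (1 + L0/L)`: one needs `c (L0/L)/4050 ≥ 0.984^o c1 + C/o^A`; `c1 ≤ 2.1 c`;
`0.984^o · 2.1 · 4050 · L ≤ L0/2` for `L ≥ L0`, `L0` large (`0.984^(L/81 ) L → 0`; note `o ≥ L/81`, `0.984^o ≤ 0.984^(L/81)` as real power, or use `0.984^o ≤ C''/o²`), and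
`C/o^A ≤ C 81^A/L^A`, `8100 C 81^A L/L^A ≤ 8100 C 81^A L0/L0^A ≤ c L0 = (c0/4) L0/L0^B` for `L0` large since `A ≥ B + 1`.
Conclusion with `c' = c`, `L2 = L0`.
-/

set_option autoImplicit false

namespace Pool.Agent.H49.PP

theorem chain2 (B A : ℕ) (hA : B + 1 ≤ A) (P : ℝ → ℝ → Prop)
    (hmono : ∀ L c c', c' ≤ c → P L c → P L c') (C : ℝ) (hC : 1 ≤ C) (o0 : ℕ) (ho0 : 1 ≤ o0)
    (hstep : ∀ (o : ℕ) (L c : ℝ), o0 ≤ o → 40 * (o : ℝ) ≤ L → 0 ≤ c →
      (∀ L', L - o ≤ L' → L' ≤ L - o / 50 → P L' c) →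
      P L ((1 - 0.984 ^ o) * c - C / (o : ℝ) ^ A))
    (c0 L1 : ℝ) (hc0 : 0 < c0) (hbase : ∀ L, L1 ≤ L → 1 ≤ L → P L (c0 / L ^ B)) :
    ∃ c' L2 : ℝ, 0 < c' ∧ 1 ≤ L2 ∧ ∀ L, L2 ≤ L → P L c' := by
  obtain ⟨L0, hL0def⟩ : ∃ L0 : ℝ, L0 = 10 ^ 8 + 2 * |L1| + 80 * o0 + 32400 * C * 81 ^ A / c0 :=
    ⟨_, rfl⟩
  have hL1a : 0 ≤ |L1| := abs_nonneg _
  have ho0r : (0 : ℝ) ≤ (o0 : ℝ) := Nat.cast_nonneg _
  have hK0 : 0 ≤ 32400 * C * 81 ^ A / c0 := by positivity
  have hL0big : (10 : ℝ) ^ 8 ≤ L0 := by rw [hL0def]; linarith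
  have hL0L1 : 2 * |L1| ≤ L0 := by
    rw [hL0def]
    have : (0 : ℝ) ≤ 10 ^ 8 := by positivity
    linarith
  have hL0o : 80 * (o0 : ℝ) ≤ L0 := by
    rw [hL0def]
    have : (0 : ℝ) ≤ 10 ^ 8 := by positivity
    linarith
  have hL0K : 32400 * C * 81 ^ A / c0 ≤ L0 := by
    rw [hL0def]
    have : (0 : ℝ) ≤ 10 ^ 8 := by positivity
    linarith
  have hL0pos : 0 < L0 := by
    have : (0 : ℝ) < 10 ^ 8 := by positivity
    linarith
  have hL01 : 1 ≤ L0 := by
    have : (1 : ℝ) ≤ 10 ^ 8 := by norm_num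
    linarith
  obtain ⟨c, hcdef⟩ : ∃ c : ℝ, c = c0 / (4 * L0 ^ B) := ⟨_, rfl⟩
  have hcpos : 0 < c := by rw [hcdef]; positivity
  have hc4 : 4 * c * L0 ^ B = c0 := by
    rw [hcdef]
    field_simp
  have main : ∀ k : ℕ, ∀ L : ℝ, 79 / 80 * L0 ≤ L → L ≤ L0 + k → P L (c * (1 + L0 / L)) := by
    intro k
    induction k with
    | zero =>
      intro L hL hLk
      have hLk' : L ≤ L0 := by simpa using hLk
      have hLpos : 0 < L := by linarith
      have hbig : (1 : ℝ) ≤ 79 / 80 * L0 := by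
        have : (1 : ℝ) ≤ 79 / 80 * 10 ^ 8 := by norm_num
        linarith
      have hb := hbase L (by linarith [le_abs_self L1]) (by linarith)
      refine hmono L _ _ ?_ hb
      have h1 : L0 / L ≤ 2 := by
        rw [div_le_iff₀ hLpos]
        linarith
      have h2 : L ^ B ≤ L0 ^ B := pow_le_pow_left₀ hLpos.le hLk' B
      rw [le_div_iff₀ (by positivity)]
      calc c * (1 + L0 / L) * L ^ B ≤ c * 4 * L0 ^ B := by
            apply mul_le_mul _ h2 (by positivity) (by positivity)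
            exact mul_le_mul_of_nonneg_left (by linarith) hcpos.le
        _ = c0 := by rw [← hc4]; ring
    | succ k ih =>
      intro L hL hLk
      by_cases hk : L ≤ L0 + k
      · exact ih L hL hk
      push Not at hk
      have hk0 : (0 : ℝ) ≤ (k : ℝ) := Nat.cast_nonneg _
      have hLL0 : L0 ≤ L := by linarith
      have hLbig : (10 : ℝ) ^ 8 ≤ L := by linarith
      have hLpos : 0 < L := by linarith
      push_cast at hLk
      obtain ⟨o, ho⟩ : ∃ o : ℕ, o = ⌊L / 80⌋₊ := ⟨_, rfl⟩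
      have ho1 : (o : ℝ) ≤ L / 80 := by rw [ho]; exact Nat.floor_le (by positivity)
      have ho2 : L / 80 - 1 < o := by
        have := Nat.lt_floor_add_one (L / 80)
        rw [← ho] at this
        linarith
      have ho3 : L / 81 ≤ o := by
        have : (6480 : ℝ) ≤ 10 ^ 8 := by norm_num
        linarith
      have ho4 : o0 ≤ o := by
        rw [ho]
        apply Nat.le_floor
        linarith
      have hopos : (0 : ℝ) < o := lt_of_lt_of_le (by positivity) ho3
      obtain ⟨c1, hc1⟩ : ∃ c1 : ℝ, c1 = c * (1 + L0 / L * (1 + 1 / 4050)) := ⟨_, rfl⟩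
      have hc1pos : 0 ≤ c1 := by rw [hc1]; positivity
      have hall : ∀ L', L - o ≤ L' → L' ≤ L - o / 50 → P L' c1 := by
        intro L' h1 h2
        have h3 : 79 / 80 * L ≤ L' := by linarith
        have h4 : L' ≤ L - L / 4050 := by linarith
        have h5 : L' ≤ L0 + k := by
          have : (4050 : ℝ) ≤ 10 ^ 8 := by norm_num
          linarith
        have hL'pos : 0 < L' := by linarith
        refine hmono L' _ _ ?_ (ih L' (by linarith) h5)
        rw [hc1]
        apply mul_le_mul_of_nonneg_left _ hcpos.le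
        have h6 : L0 / L * (1 + 1 / 4050) ≤ L0 / L' := by
          rw [div_mul_eq_mul_div, div_le_div_iff₀ hLpos hL'pos]
          have h7 : (1 + 1 / 4050) * L' ≤ L := by
            calc (1 + 1 / 4050) * L' ≤ (1 + 1 / 4050) * (L - L / 4050) :=
                  mul_le_mul_of_nonneg_left h4 (by norm_num)
              _ ≤ L := by nlinarith
          calc L0 * (1 + 1 / 4050) * L' = L0 * ((1 + 1 / 4050) * L') := by ring
            _ ≤ L0 * L := mul_le_mul_of_nonneg_left h7 hL0pos.le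
        linarith
      have hs := hstep o L c1 ho4 (by linarith) hc1pos hall
      refine hmono L _ _ ?_ hs
      -- the numerical inequality
      have hr0 : 0 < L0 / L := by positivity
      have hr1 : L0 / L ≤ 1 := by rw [div_le_one hLpos]; exact hLL0
      have hx0 : (0 : ℝ) ≤ 0.984 ^ o := by positivity
      have hc1le : c1 ≤ 2.1 * c := by
        rw [hc1]
        nlinarith
      -- (i)
      have hber : (0.984 : ℝ) ^ o * o ≤ 62.5 := by
        have h1 : (1 : ℝ) + o * (1 / 0.984 - 1) ≤ (1 + (1 / 0.984 - 1)) ^ o :=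
          one_add_mul_le_pow (by norm_num) o
        have h2 : (1 + (1 / 0.984 - 1) : ℝ) ^ o = 1 / 0.984 ^ o := by
          rw [show (1 + (1 / 0.984 - 1) : ℝ) = 1 / 0.984 by norm_num, one_div_pow]
        rw [h2] at h1
        have h3 : (0.016 : ℝ) * o ≤ 1 / 0.984 ^ o := by
          have : (0.016 : ℝ) ≤ 1 / 0.984 - 1 := by norm_num
          nlinarith
        have hxp : (0 : ℝ) < 0.984 ^ o := by positivity
        rw [le_div_iff₀ hxp] at h3
        nlinarith
      have hi : 0.984 ^ o * (2.1 * c) ≤ c * (L0 / L) / 8100 := by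
        have h1 : (0.984 : ℝ) ^ o * (2.1 * 8100 * L) ≤ L0 := by
          calc (0.984 : ℝ) ^ o * (2.1 * 8100 * L) ≤ 0.984 ^ o * (2.1 * 8100 * (81 * o)) := by
                apply mul_le_mul_of_nonneg_left _ hx0
                linarith
            _ = 2.1 * 8100 * 81 * (0.984 ^ o * o) := by ring
            _ ≤ 2.1 * 8100 * 81 * 62.5 := by
                apply mul_le_mul_of_nonneg_left hber (by norm_num)
            _ ≤ 10 ^ 8 := by norm_num
            _ ≤ L0 := hL0big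
        rw [le_div_iff₀ (by norm_num), mul_div_assoc', le_div_iff₀ hLpos]
        calc 0.984 ^ o * (2.1 * c) * 8100 * L = c * (0.984 ^ o * (2.1 * 8100 * L)) := by ring
          _ ≤ c * L0 := mul_le_mul_of_nonneg_left h1 hcpos.le
      -- (ii)
      have hii : C / (o : ℝ) ^ A ≤ c * (L0 / L) / 8100 := by
        have hAo : (L / 81) ^ A ≤ (o : ℝ) ^ A := pow_le_pow_left₀ (by positivity) ho3 A
        have h1 : C / (o : ℝ) ^ A ≤ C / (L / 81) ^ A :=
          div_le_div_of_nonneg_left (by linarith) (by positivity) hAo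
        refine le_trans h1 ?_
        obtain ⟨d, rfl⟩ : ∃ d, A = B + 1 + d := ⟨A - (B + 1), by omega⟩
        rw [div_le_div_iff₀ (by positivity) (by norm_num), div_pow, mul_div_assoc', mul_div_assoc',
          le_div_iff₀ (by positivity)]
        have h2 : c * L0 / L * L ^ (B + 1 + d) = c * L0 * L ^ (B + d) := by
          rw [show B + 1 + d = (B + d) + 1 by ring, pow_succ]
          field_simp
        rw [h2]
        have h3 : L0 ^ (B + d) ≤ L ^ (B + d) := pow_le_pow_left₀ hL0pos.le hLL0 _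
        have h4 : L0 ^ B ≤ L0 ^ (B + d) := pow_le_pow_right₀ hL01 (by omega)
        have h5 : c * L0 * L0 ^ B ≤ c * L0 * L ^ (B + d) :=
          mul_le_mul_of_nonneg_left (le_trans h4 h3) (by positivity)
        have h6 : c * L0 * L0 ^ B = c0 / 4 * L0 := by rw [← hc4]; ring
        have h7 : 32400 * C * 81 ^ (B + 1 + d) ≤ L0 * c0 := (div_le_iff₀ hc0).1 hL0K
        linarith
      have hfin : 0.984 ^ o * c1 ≤ 0.984 ^ o * (2.1 * c) :=
        mul_le_mul_of_nonneg_left hc1le hx0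
      have hdiff : c1 - c * (1 + L0 / L) = c * (L0 / L) / 4050 := by
        rw [hc1]; ring
      have : c * (1 + L0 / L) ≤ (1 - 0.984 ^ o) * c1 - C / (o : ℝ) ^ A := by
        have : (1 - 0.984 ^ o) * c1 = c1 - 0.984 ^ o * c1 := by ring
        rw [this]
        linarith
      exact this
  refine ⟨c, L0, hcpos, hL01, fun L hL => ?_⟩
  have hLpos : 0 < L := by linarith
  obtain ⟨k, hk⟩ := exists_nat_ge (L - L0)
  have := main k L (by linarith) (by linarith)
  refine hmono L _ _ ?_ this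
  have : 0 ≤ c * (L0 / L) := by positivity
  linarith

end Pool.Agent.H49.PP
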