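import Pool.Agent.H49.PP.XN

/-!
# JOB PP-20. From Gaussian sums to counting

Let `u` take the values `0, 1` and `ofReal (c H⁴) ≤ SmX H H u` for `H ≥ H0`. Let `K` be the constant of `GB_X`. For `s ≥ 1` the points with `‖z‖_2 > s H` or `‖z‖_3 > s H` satisfy
`gs H H z ≤ exp(-π s²/2) gs (2H) (2H) z` (if `‖z‖_2 > s H`: `‖z‖_2²/H² ≥ s²/2 + ‖z‖_2²/(2 H²)`, and `1/2 ≥ 1/4`), so their contribution is at most
`exp(-π s²/2) K (1 + 16 H⁴) ≤ 17 K exp(-π s²/2) H⁴`; choose `s ≥ 1` with `17 K exp(-π s²/2) ≤ c/2`. The remaining points `z` with `u z = 1` contribute at least `c/2 H⁴` and each contributes at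
most `1`, so there are at least `(c/2) H⁴` of them. Put `H' = s H`: for every `H' ≥ s H0` the set of the `z` with `GX z`, `‖z‖_2, ‖z‖_3 ≤ H'`, `u z = 1` has (at least)
`c/(2 s⁴) H'⁴` elements; if it is infinite take a large enough finite subset; the set is finite anyway (`count_box`).
A convenient way: `X = {i | ‖.‖_2 ≤ sH ∧ ‖.‖_3 ≤ sH ∧ u = 1}`; if every finite subset of `X` has less than `(c/2) H⁴` elements, then `∑' i, indicator X ≤ (c/2) H⁴`-ish
(`ENNReal.tsum_eq_iSup_sum`), contradiction (strictness: use a slightly smaller constant, e.g. prove `c/4`).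
-/

set_option autoImplicit false

namespace Pool.Agent.H49.PP

open Pool.Agent.H67.Tent Pool.Agent.H49.AB Finset

theorem CountX_far (H s x : ℝ) (hH : 1 ≤ H) (hs : 1 ≤ s) (hx : s * H < x) :
    s ^ 2 / 2 + x ^ 2 / (2 * H) ^ 2 ≤ x ^ 2 / H ^ 2 := by
  have hHp : 0 < H := by linarith
  have h1 : (s * H) ^ 2 ≤ x ^ 2 := pow_le_pow_left₀ (by positivity) hx.le 2
  have e1 : s ^ 2 / 2 + x ^ 2 / (2 * H) ^ 2 = (2 * (s * H) ^ 2 + x ^ 2) / (4 * H ^ 2) := by
    field_simp
    ring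
  have e2 : x ^ 2 / H ^ 2 = (4 * x ^ 2) / (4 * H ^ 2) := by
    field_simp
  rw [e1, e2]
  apply div_le_div_of_nonneg_right _ (by positivity)
  nlinarith

theorem CountX_near (H x : ℝ) (hH : 1 ≤ H) : x ^ 2 / (2 * H) ^ 2 ≤ x ^ 2 / H ^ 2 := by
  have hHp : 0 < H := by linarith
  apply div_le_div_of_nonneg_left (sq_nonneg _) (by positivity)
  nlinarith

theorem CountX_gs (H s : ℝ) (hH : 1 ≤ H) (hs : 1 ≤ s) (z : E)
    (hz : ¬ (‖z.2.1‖ ≤ s * H ∧ ‖z.2.2‖ ≤ s * H)) :
    gs H H z ≤ Real.exp (-(Real.pi * s ^ 2 / 2)) * gs (2 * H) (2 * H) z := by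
  unfold gs
  rw [← Real.exp_add, Real.exp_le_exp]
  have hpi := Real.pi_pos
  have key : s ^ 2 / 2 + (‖z.2.1‖ ^ 2 / (2 * H) ^ 2 + ‖z.2.2‖ ^ 2 / (2 * H) ^ 2) ≤
      ‖z.2.1‖ ^ 2 / H ^ 2 + ‖z.2.2‖ ^ 2 / H ^ 2 := by
    rw [not_and_or, not_le, not_le] at hz
    rcases hz with hz | hz
    · have := CountX_far H s _ hH hs hz
      have := CountX_near H ‖z.2.2‖ hH
      linarith
    · have := CountX_far H s _ hH hs hz
      have := CountX_near H ‖z.2.1‖ hH
      linarith
  have := mul_le_mul_of_nonneg_left key hpi.le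
  nlinarith

theorem count_X (S : Sys2) {N : ℕ} (hN : 1 ≤ N) (u : E → ENNReal)
    (hu : ∀ z, u z = 0 ∨ u z = 1) (c H0 : ℝ) (hc : 0 < c) (hH0 : 1 ≤ H0)
    (h : ∀ H : ℝ, H0 ≤ H → ENNReal.ofReal (c * H ^ 4) ≤ SmX S N H H u) :
    ∃ c' H1 : ℝ, 0 < c' ∧ 1 ≤ H1 ∧ ∀ H : ℝ, H1 ≤ H → ∃ Y : Finset E,
      (∀ z ∈ Y, GX S N z ∧ ‖z.2.1‖ ≤ H ∧ ‖z.2.2‖ ≤ H ∧ u z = 1) ∧ c' * H ^ 4 ≤ (Y.card : ℝ) := by
  classical
  obtain ⟨K, hK1, hK⟩ := GB_X S hN
  obtain ⟨s, hs1, hs⟩ : ∃ s : ℝ, 1 ≤ s ∧ 17 * K * Real.exp (-(Real.pi * s ^ 2 / 2)) ≤ c / 2 := by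
    refine ⟨max 1 (Real.log (34 * K / c)), le_max_left _ _, ?_⟩
    set s := max 1 (Real.log (34 * K / c)) with hsd
    have hs1 : 1 ≤ s := le_max_left _ _
    have hs2 : Real.log (34 * K / c) ≤ s := le_max_right _ _
    have hpi := Real.pi_gt_three
    have h1 : s ≤ Real.pi * s ^ 2 / 2 := by nlinarith [mul_nonneg (by linarith : (0:ℝ) ≤ s) (by linarith : (0:ℝ) ≤ s - 1), sq_nonneg s, mul_pos (by linarith : (0:ℝ) < s) (by linarith : (0:ℝ) < s)]
    have h2 : Real.exp (-(Real.pi * s ^ 2 / 2)) ≤ Real.exp (-Real.log (34 * K / c)) := by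
      rw [Real.exp_le_exp]; linarith
    have h3 : Real.exp (-Real.log (34 * K / c)) = c / (34 * K) := by
      rw [Real.exp_neg, Real.exp_log (by positivity), inv_div]
    rw [h3] at h2
    have h4 : 17 * K * (c / (34 * K)) = c / 2 := by
      field_simp
      ring
    calc 17 * K * Real.exp (-(Real.pi * s ^ 2 / 2)) ≤ 17 * K * (c / (34 * K)) := by
          apply mul_le_mul_of_nonneg_left h2 (by linarith)
      _ = c / 2 := h4
  have hsp : 0 < s := by linarith
  -- main claim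
  have main : ∀ H : ℝ, H0 ≤ H → ∃ Y : Finset E,
      (∀ z ∈ Y, GX S N z ∧ ‖z.2.1‖ ≤ s * H ∧ ‖z.2.2‖ ≤ s * H ∧ u z = 1) ∧
        c / 4 * H ^ 4 ≤ (Y.card : ℝ) := by
    intro H hH
    have hH1 : 1 ≤ H := hH0.trans hH
    have hHp : 0 < H := by linarith
    set P : E → Prop := fun z => ‖z.2.1‖ ≤ s * H ∧ ‖z.2.2‖ ≤ s * H ∧ u z = 1 with hP
    set X := Real.exp (-(Real.pi * s ^ 2 / 2)) with hX
    have hXp : 0 < X := Real.exp_pos _
    have hpt : ∀ z : E, u z * ENNReal.ofReal (gs H H z) ≤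
        (if P z then 1 else 0) + ENNReal.ofReal X * ENNReal.ofReal (gs (2 * H) (2 * H) z) := by
      intro z
      by_cases hz : P z
      · rw [if_pos hz, hz.2.2, one_mul]
        refine le_trans ?_ le_self_add
        rw [← ENNReal.ofReal_one]
        exact ENNReal.ofReal_le_ofReal (gs_le_one _ _ _)
      · rw [if_neg hz, zero_add]
        rcases hu z with h0 | h1
        · rw [h0, zero_mul]
          exact zero_le
        · rw [h1, one_mul, ← ENNReal.ofReal_mul hXp.le]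
          apply ENNReal.ofReal_le_ofReal
          apply CountX_gs H s hH1 hs1 z
          intro hh
          exact hz ⟨hh.1, hh.2, h1⟩
    have hG : SS (ptX S N) (fun z => ENNReal.ofReal (gs (2 * H) (2 * H) z)) ≤
        ENNReal.ofReal (K * (1 + (2 * H) ^ 2 * (2 * H) ^ 2)) := by
      have := hK (2 * H) (2 * H) 0 0 (by positivity) (by positivity)
      refine le_trans (le_of_eq ?_) this
      apply SS_congr
      intro i
      unfold gs
      rw [sub_zero, sub_zero]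
    have h1 : ENNReal.ofReal (c * H ^ 4) ≤ SS (ptX S N) (fun z => if P z then 1 else 0) +
        ENNReal.ofReal (c / 2 * H ^ 4) := by
      calc ENNReal.ofReal (c * H ^ 4) ≤ SmX S N H H u := h H hH
        _ ≤ SS (ptX S N) (fun z => (if P z then 1 else 0) +
            ENNReal.ofReal X * ENNReal.ofReal (gs (2 * H) (2 * H) z)) :=
            SS_mono _ fun i => hpt _
        _ = SS (ptX S N) (fun z => if P z then 1 else 0) +
            ENNReal.ofReal X * SS (ptX S N) (fun z => ENNReal.ofReal (gs (2 * H) (2 * H) z)) := by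
            rw [SS_add, SS_const_mul]
        _ ≤ SS (ptX S N) (fun z => if P z then 1 else 0) +
            ENNReal.ofReal X * ENNReal.ofReal (K * (1 + (2 * H) ^ 2 * (2 * H) ^ 2)) := by gcongr
        _ ≤ _ := by
            rw [← ENNReal.ofReal_mul hXp.le]
            refine add_le_add le_rfl (ENNReal.ofReal_le_ofReal ?_)
            have hH4 : 1 ≤ H ^ 4 := one_le_pow₀ hH1
            have e : K * (1 + (2 * H) ^ 2 * (2 * H) ^ 2) ≤ 17 * K * H ^ 4 := by
              nlinarith [mul_le_mul_of_nonneg_left hH4 (by linarith : (0:ℝ) ≤ K)]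
            calc X * (K * (1 + (2 * H) ^ 2 * (2 * H) ^ 2)) ≤ X * (17 * K * H ^ 4) := by
                  apply mul_le_mul_of_nonneg_left e hXp.le
              _ = (17 * K * X) * H ^ 4 := by ring
              _ ≤ c / 2 * H ^ 4 := by
                  apply mul_le_mul_of_nonneg_right hs (by positivity)
    have h2 : ENNReal.ofReal (c / 2 * H ^ 4) ≤
        SS (ptX S N) (fun z => if P z then 1 else 0) := by
      have e : c * H ^ 4 = c / 2 * H ^ 4 + c / 2 * H ^ 4 := by ring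
      rw [e, ENNReal.ofReal_add (by positivity) (by positivity)] at h1
      exact ENNReal.le_of_add_le_add_right ENNReal.ofReal_ne_top h1
    have h3 : ENNReal.ofReal (c / 4 * H ^ 4) <
        ⨆ Z : Finset {z : E // GX S N z}, ∑ i ∈ Z, (if P (ptX S N i) then 1 else 0) := by
      rw [← ENNReal.tsum_eq_iSup_sum]
      refine lt_of_lt_of_le ?_ h2
      rw [ENNReal.ofReal_lt_ofReal_iff (by positivity)]
      have : 0 < c * H ^ 4 := by positivity
      linarith
    obtain ⟨Z, hZ⟩ := lt_iSup_iff.1 h3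
    refine ⟨(Z.filter fun i => P (ptX S N i)).image Subtype.val, ?_, ?_⟩
    · intro z hz
      obtain ⟨i, hi, rfl⟩ := mem_image.1 hz
      have hi' := (mem_filter.1 hi).2
      exact ⟨i.2, hi'.1, hi'.2.1, hi'.2.2⟩
    · rw [card_image_of_injective _ Subtype.val_injective]
      rw [Finset.sum_ite, Finset.sum_const_zero, add_zero, Finset.sum_const, nsmul_eq_mul,
        mul_one, ← ENNReal.ofReal_natCast] at hZ
      exact ((ENNReal.ofReal_lt_ofReal_iff_of_nonneg (by positivity)).1 hZ).le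
  refine ⟨c / 4 / s ^ 4, s * H0, by positivity, by nlinarith, fun H hH => ?_⟩
  obtain ⟨Y, hY1, hY2⟩ := main (H / s) (by rw [le_div_iff₀ hsp]; linarith)
  have es : s * (H / s) = H := by field_simp
  rw [es] at hY1
  refine ⟨Y, hY1, ?_⟩
  have e : c / 4 / s ^ 4 * H ^ 4 = c / 4 * (H / s) ^ 4 := by
    rw [div_pow]
    ring
  rw [e]
  exact hY2

end Pool.Agent.H49.PP
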