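import Pool.Agent.H49.PP.Fam
import Pool.Agent.H49.AB.Reidx

/-!
# PP: definitions
-/

set_option autoImplicit false

namespace Pool.Agent.H49.PP

open Pool.Agent.H67.Tent Pool.Agent.H49.AB Finset

/-- Logarithm of the slope at the second place. -/
noncomputable def lw (S : Sys2) (a b : ℕ) : ℝ := Real.log ‖(W S a b).2.1‖

/-- Logarithm of the slope at the third place. -/
noncomputable def lw3 (S : Sys2) (a b : ℕ) : ℝ := Real.log ‖(W S a b).2.2‖

/-- Contraction rate at the second place (about `0.0839`). -/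
noncomputable def gam2 (S : Sys2) : ℝ :=
  -((S.a.1)⁻¹ * Real.log ‖S.a.2.1‖ + (S.b.1)⁻¹ * Real.log ‖S.b.2.1‖)

/-- Contraction rate at the third place (about `0.1601`). -/
noncomputable def gam3 (S : Sys2) : ℝ :=
  -((S.a.1)⁻¹ * Real.log ‖S.a.2.2‖ + (S.b.1)⁻¹ * Real.log ‖S.b.2.2‖)

/-- About `0.696`. -/
noncomputable def del2 (S : Sys2) : ℝ := Real.log ‖S.a.2.1‖ - Real.log ‖S.b.2.1‖

/-- About `0.0251`. -/
noncomputable def del3 (S : Sys2) : ℝ := Real.log ‖S.a.2.2‖ - Real.log ‖S.b.2.2‖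

/-- Probability of a pair: `bin` with `p = 1/α`, `q = 1/β`. -/
noncomputable def bn (S : Sys2) (i j : ℕ) : ℝ := bin (S.a.1)⁻¹ (S.b.1)⁻¹ i j

/-- Points with denominator `N` (not scaled). -/
def GX (S : Sys2) (N : ℕ) (z : E) : Prop := (N : E) * z ∈ S.Lam ∧ 0 ≤ z.1 ∧ z.1 ≤ 1

/-- The family of all points with denominator `N`. -/
def ptX (S : Sys2) (N : ℕ) : {z : E // GX S N z} → E := Subtype.val

/-- Gaussian sum of `u` over the points with denominator `N`. -/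
noncomputable def SmX (S : Sys2) (N : ℕ) (R Q : ℝ) (u : E → ENNReal) : ENNReal :=
  SS (ptX S N) fun z => u z * ENNReal.ofReal (gs R Q z)

/-- Normalised number of `n`-th preimages of `y` at the scale `exp L`. -/
noncomputable def fr (S : Sys2) (n : ℕ) (L : ℝ) (y : E) : ℝ :=
  (∑ w ∈ words n, gs (Real.exp L) 1 (gw S 1 w y)) / Real.exp L ^ 2

open Classical in
/-- Indicator function of the set of the points whose orbit meets `y`. -/
noncomputable def uP (S : Sys2) (y z : E) : ENNReal :=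
  if ∃ m : ℕ, (T S.toSys 1)^[m] z = y then 1 else 0

/-- The types used in the passage to large boxes. -/
def goodT (S : Sys2) (H L2 : ℝ) (t : ℕ × ℕ) : Prop :=
  2 ≤ H * ‖(W S t.1 t.2).2.2‖ ∧ Real.exp L2 ≤ H * ‖(W S t.1 t.2).2.1‖ / 2 ∧
    H * ‖(W S t.1 t.2).2.2‖ / 2 ≤
      (7 / 6) ^ ⌊Real.log (H * ‖(W S t.1 t.2).2.1‖ / 2) / 81⌋₊ ∧
    ∀ w ∈ cls t.1 t.2, ‖(off S.toSys 1 w).2.1‖ ≤ H * ‖(W S t.1 t.2).2.1‖

theorem fr_nonneg (S : Sys2) (n : ℕ) (L : ℝ) (y : E) : 0 ≤ fr S n L y :=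
  div_nonneg (Finset.sum_nonneg fun _ _ => (gs_pos _ _ _).le) (by positivity)

theorem bn_nonneg (S : Sys2) (i j : ℕ) : 0 ≤ bn S i j :=
  bin_nonneg (inv_nonneg.2 (ap S).le) (inv_nonneg.2 (bp S).le) i j

theorem exp_lw (S : Sys2) (a b : ℕ) : Real.exp (lw S a b) = ‖(W S a b).2.1‖ :=
  Real.exp_log (W2_pos S a b)

end Pool.Agent.H49.PP
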