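import Pool.Agent.H49.AB.SGB
import Pool.Agent.H49.AB.Transfer
import Pool.Agent.H49.AB.CmpShift
import Pool.Agent.H49.AB.CmpLat

/-!
# PP: a positive proportion of the points of `(1/N) ℤ[α]` is eventually periodic. Families of points

Paper proof: notes table, `MP_df7698_an`, kind `paper-proof` (helper49, PP). Notation of `H67/Tent` and `H49/AB`, with `N = 1` in `gw S 1`, `off S.toSys 1`:
points are not scaled. `SS pt f` is the sum of `f` over a family `pt : ι → E` of points, `GB pt K` is the bound of all Gaussian sums over the family.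
-/

set_option autoImplicit false

namespace Pool.Agent.H49.PP

open Pool.Agent.H67.Tent Pool.Agent.H49.AB Finset

/-- Sum over a family of points. -/
noncomputable def SS {ι : Type} (pt : ι → E) (f : E → ENNReal) : ENNReal := ∑' i, f (pt i)

/-- The Gaussian sums over the family are bounded with the constant `K`. -/
def GB {ι : Type} (pt : ι → E) (K : ℝ) : Prop :=
  ∀ (r2 r3 : ℝ) (c2 c3 : ℂ), 0 < r2 → 0 < r3 →
    SS pt (fun z => ENNReal.ofReal (Real.exp (-(Real.pi *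
      (‖z.2.1 - c2‖ ^ 2 / r2 ^ 2 + ‖z.2.2 - c3‖ ^ 2 / r3 ^ 2))))) ≤
    ENNReal.ofReal (K * (1 + r2 ^ 2 * r3 ^ 2))

variable {ι : Type} (pt : ι → E)

theorem SS_mono {f g : E → ENNReal} (h : ∀ i, f (pt i) ≤ g (pt i)) : SS pt f ≤ SS pt g :=
  ENNReal.tsum_le_tsum fun i => h i

theorem SS_congr {f g : E → ENNReal} (h : ∀ i, f (pt i) = g (pt i)) : SS pt f = SS pt g :=
  tsum_congr fun i => h i

theorem SS_add (f g : E → ENNReal) : SS pt (fun z => f z + g z) = SS pt f + SS pt g :=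
  ENNReal.tsum_add

theorem SS_const_mul (c : ENNReal) (f : E → ENNReal) :
    SS pt (fun z => c * f z) = c * SS pt f := ENNReal.tsum_mul_left

theorem SS_sum {κ : Type*} (I : Finset κ) (f : κ → E → ENNReal) :
    SS pt (fun z => ∑ i ∈ I, f i z) = ∑ i ∈ I, SS pt (f i) := by
  classical
  induction I using Finset.induction_on with
  | empty => simp [SS]
  | insert a s ha ih =>
    rw [Finset.sum_insert ha, ← ih, ← SS_add]
    congr 1
    funext z
    rw [Finset.sum_insert ha]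

theorem SS_ofReal_sum {κ : Type*} (I : Finset κ) (f : κ → E → ℝ) (hf : ∀ i ∈ I, ∀ z, 0 ≤ f i z) :
    SS pt (fun z => ENNReal.ofReal (∑ i ∈ I, f i z)) =
      ∑ i ∈ I, SS pt (fun z => ENNReal.ofReal (f i z)) := by
  rw [← SS_sum]
  congr 1
  funext z
  exact ENNReal.ofReal_sum_of_nonneg fun i hi => hf i hi z

theorem SS_abs_sum {κ : Type*} (I : Finset κ) (f : κ → E → ℝ) :
    SS pt (fun z => ENNReal.ofReal |∑ i ∈ I, f i z|) ≤
      ∑ i ∈ I, SS pt (fun z => ENNReal.ofReal |f i z|) := by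
  rw [← SS_ofReal_sum pt I (fun i z => |f i z|) (fun _ _ _ => abs_nonneg _)]
  exact SS_mono pt fun z => ENNReal.ofReal_le_ofReal (Finset.abs_sum_le_sum_abs _ _)

/-- Gaussian sums moved by an inverse branch. -/
theorem word_sumX (S : Sys2) {K : ℝ} (hK : 1 ≤ K) (h : GB pt K) (a b : ℕ) (R Q : ℝ)
    (hR : 0 < R) (hQ : 0 < Q) (w : List Bool) (hw : w ∈ cls a b) :
    SS pt (fun y => ENNReal.ofReal (gs R Q (gw S 1 w y))) ≤
      ENNReal.ofReal (K * (1 + R ^ 2 * Q ^ 2 / |(W S a b).1|)) := by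
  have h2 := W2_pos S a b
  have h3 := W3_pos S a b
  have h1 := W1_pos S a b
  have key := h (R * ‖(W S a b).2.1‖) (Q * ‖(W S a b).2.2‖) (off S.toSys 1 w).2.1
    (off S.toSys 1 w).2.2 (by positivity) (by positivity)
  have e : (fun y => ENNReal.ofReal (gs R Q (gw S 1 w y))) = fun y : E =>
      ENNReal.ofReal (Real.exp (-(Real.pi *
        (‖y.2.1 - (off S.toSys 1 w).2.1‖ ^ 2 / (R * ‖(W S a b).2.1‖) ^ 2 +
          ‖y.2.2 - (off S.toSys 1 w).2.2‖ ^ 2 / (Q * ‖(W S a b).2.2‖) ^ 2)))) := by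
    funext y
    rw [gs_gw S 1 R Q hw y]
  rw [e]
  refine key.trans (ENNReal.ofReal_le_ofReal ?_)
  refine mul_le_mul_of_nonneg_left ?_ (by linarith)
  have hp := W_prod S a b
  have e2 : (R * ‖(W S a b).2.1‖) ^ 2 * (Q * ‖(W S a b).2.2‖) ^ 2 =
      R ^ 2 * Q ^ 2 / |(W S a b).1| := by
    rw [eq_div_iff h1.ne']
    calc _ = R ^ 2 * Q ^ 2 * (|(W S a b).1| * ‖(W S a b).2.1‖ ^ 2 * ‖(W S a b).2.2‖ ^ 2) := by ring
      _ = _ := by rw [hp, mul_one]
  rw [e2]

end Pool.Agent.H49.PP
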