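import Pool.Agent.H49.PP.Main
import Pool.Agent.Results.MP_df7698_an.AlmostAllBounded

/-!
# JOB PP-22. Translation to real numbers

`exists_sys2 α hα` gives `S`; `LamForm S` follows from its third statement (`α = S.a.1`). `mainX` gives `N₀`, `y`, `n`, `c`, `H1`. Let `y₀ = y.1`.
`semi_iter` (in `Results/MP_df7698_an/AlmostAllBounded.lean`, with `N = 1`; `Good`): the first coordinate of `(T S 1)^[k] z` is `(tent α)^[k] z.1` (`(1 : ℝ) * x`). So `y₀` is periodic.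
Let `N = k N₀`. If `z ∈ Y`: `N₀ z ∈ Lam`, so `N z ∈ Lam`, and `x = z.1` satisfies `HeightLE α N H x` (`H ≥ 1`; as in `height_of`, applied to `N z`: `(N z).1 = N x`,
`|(N z).1| ≤ N ≤ N H`, `‖(N z).2.1‖ = N ‖z.2.1‖ ≤ N H`), and `(tent α)^[m] x = y₀`. Different `z` have different `x`: if `z.1 = z'.1` then `N (z - z') ∈ Lam` has first coordinate `0`, so
it is `0` (`norm_ge'`). So the number of the `x` with `HeightLE α N H x` whose orbit meets `y₀` is at least `c H⁴` for `H ≥ H1`. Upper bound: `upper` with `A = 0` and `M = 2` gives the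
finiteness of `{x ∈ [0,1], HeightLE α N H x}`; and `htriv` there (`count_box`, through `transfer` with `Q = True`) gives `ncard ≤ (128 N⁵ + 18) H⁴`. So `δ = c/(128 N⁵ + 18)` works.
(`tent`, `HeightLE`, `Good`, `transfer`, `semi_iter`, `height_of` are in the namespace `Pool.Agent.Results.MP_df7698_an.AlmostAllBounded`; they can be used, the final file will copy them.)
-/

set_option autoImplicit false

namespace Pool.Agent.H49.PP

open ComplexConjugate Pool.Agent.H67.Tent Pool.Agent.H49.AB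
open Pool.Agent.Results.MP_df7698_an.AlmostAllBounded

theorem fin_lamForm {α : ℝ} {S : Sys2} (h1 : S.a.1 = α)
    (h3 : ∀ z : E, z ∈ S.Lam ↔ ∃ c : Fin 5 → ℤ, z = (∑ i, (c i : ℝ) * α ^ (i : ℕ),
      ∑ i, (c i : ℂ) * S.a.2.1 ^ (i : ℕ), ∑ i, (c i : ℂ) * S.a.2.2 ^ (i : ℕ))) :
    LamForm S := by
  intro z
  rw [h3]
  refine exists_congr fun c => ?_
  have e : (∑ i, (c i : E) * S.a ^ (i : ℕ)) = ((∑ i, (c i : ℝ) * α ^ (i : ℕ),
      ∑ i, (c i : ℂ) * S.a.2.1 ^ (i : ℕ), ∑ i, (c i : ℂ) * S.a.2.2 ^ (i : ℕ)) : E) := by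
    refine Prod.ext ?_ (Prod.ext ?_ ?_)
    · rw [Prod.fst_sum]
      change _ = ∑ i, (c i : ℝ) * α ^ (i : ℕ)
      refine Finset.sum_congr rfl fun i _ => ?_
      rw [Prod.fst_mul, Prod.pow_fst, h1]
      rfl
    · rw [Prod.snd_sum, Prod.fst_sum]
      change _ = ∑ i, (c i : ℂ) * S.a.2.1 ^ (i : ℕ)
      refine Finset.sum_congr rfl fun i _ => ?_
      rw [Prod.snd_mul, Prod.fst_mul, Prod.pow_snd, Prod.pow_fst]
      rfl
    · rw [Prod.snd_sum, Prod.snd_sum]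
      change _ = ∑ i, (c i : ℂ) * S.a.2.2 ^ (i : ℕ)
      refine Finset.sum_congr rfl fun i _ => ?_
      rw [Prod.snd_mul, Prod.snd_mul, Prod.pow_snd, Prod.pow_snd]
      rfl
  rw [e]

theorem fin_upper {α : ℝ} {S : Sys2} (hS : Good α S.toSys) (N : ℕ) (hN : 1 ≤ N) (H : ℝ)
    (hH : 2 ≤ H) :
    {x : ℝ | x ∈ Set.Icc (0 : ℝ) 1 ∧ HeightLE α N H x}.Finite ∧
      ({x : ℝ | x ∈ Set.Icc (0 : ℝ) 1 ∧ HeightLE α N H x}.ncard : ℝ) ≤
        (128 * N ^ 5 + 18) * H ^ 4 := by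
  have hN' : (1 : ℝ) ≤ N := by exact_mod_cast hN
  have hN0 : (0 : ℝ) < N := by linarith
  have htriv : ∀ X : Finset E,
      (∀ z ∈ X, G S.toSys N z ∧ ‖z.2.1‖ ≤ N * H ∧ ‖z.2.2‖ ≤ N * H) →
      (X.card : ℝ) ≤ (128 * N ^ 5 + 18) * H ^ 4 := by
    intro X hX
    have h1 := count_box S.toSys X 0 N (N * H) (N * H) 0 0 hN0 (by positivity) (by positivity)
      (fun z hz => ⟨(hX z hz).1.1, (hX z hz).1.2.1, by simpa using (hX z hz).1.2.2,
        by simpa using (hX z hz).2.1, by simpa using (hX z hz).2.2⟩)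
    have h2 : (1 : ℝ) ≤ H ^ 4 := one_le_pow₀ (by linarith)
    calc (X.card : ℝ) ≤ 128 * N * (N * H) ^ 2 * (N * H) ^ 2 + 18 := h1
      _ = 128 * N ^ 5 * H ^ 4 + 18 * 1 := by ring
      _ ≤ 128 * N ^ 5 * H ^ 4 + 18 * H ^ 4 := by gcongr
      _ = _ := by ring
  exact transfer (Q := fun _ => True) hS hN (fun x hx => hx) (fun _ _ _ _ _ _ _ => trivial)
      (fun X hX => htriv X (fun z hz => ⟨(hX z hz).1, (hX z hz).2.1, (hX z hz).2.2.1⟩))

theorem fin_inj (S : Sys2) {N : ℕ} (hN : 1 ≤ N) {z z' : E} (h : (N : E) * z ∈ S.Lam)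
    (h' : (N : E) * z' ∈ S.Lam) (he : z.1 = z'.1) : z = z' := by
  have hN0 : (N : ℝ) ≠ 0 := by
    have : (1 : ℝ) ≤ N := by exact_mod_cast hN
    linarith
  have hN1 : (N : ℂ) ≠ 0 := by
    exact_mod_cast (show N ≠ 0 by omega)
  have h1 : (N : E) * z - (N : E) * z' ∈ S.Lam := S.Lam.sub_mem h h'
  have h2 : ((N : E) * z - (N : E) * z').1 = 0 := by
    rw [Prod.fst_sub, Prod.fst_mul, Prod.fst_mul, he, sub_self]
  have h3 : (N : E) * z - (N : E) * z' = 0 := by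
    by_contra hne
    have h4 := norm_ge' S h1 hne
    rw [h2, abs_zero, zero_mul, zero_mul] at h4
    linarith
  have h5 : (N : E) * z = (N : E) * z' := sub_eq_zero.1 h3
  refine Prod.ext he (Prod.ext ?_ ?_)
  · have h6 : (N : ℂ) * z.2.1 = (N : ℂ) * z'.2.1 := congrArg (fun w : E => w.2.1) h5
    exact mul_left_cancel₀ hN1 h6
  · have h6 : (N : ℂ) * z.2.2 = (N : ℂ) * z'.2.2 := congrArg (fun w : E => w.2.2) h5
    exact mul_left_cancel₀ hN1 h6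

theorem final (α : ℝ) (hα : α ^ 5 - α ^ 3 - 1 = 0) : ∃ (N₀ : ℕ) (y₀ : ℝ) (n : ℕ),
    1 ≤ N₀ ∧ 1 ≤ n ∧ 0 < y₀ ∧ y₀ < 1 ∧ (tent α)^[n] y₀ = y₀ ∧
    ∀ N : ℕ, 1 ≤ N → N₀ ∣ N → ∃ δ H₀ : ℝ, 0 < δ ∧ ∀ H : ℝ, H₀ ≤ H →
      {x : ℝ | x ∈ Set.Icc (0 : ℝ) 1 ∧ HeightLE α N H x}.Finite ∧
      0 < {x : ℝ | x ∈ Set.Icc (0 : ℝ) 1 ∧ HeightLE α N H x}.ncard ∧
      δ * ({x : ℝ | x ∈ Set.Icc (0 : ℝ) 1 ∧ HeightLE α N H x}.ncard : ℝ) ≤
        ({x : ℝ | x ∈ Set.Icc (0 : ℝ) 1 ∧ HeightLE α N H x ∧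
          ∃ m : ℕ, (tent α)^[m] x = y₀}.ncard : ℝ) := by
  classical
  obtain ⟨S, e1, e2, e3, e4, e5⟩ := exists_sys2 α hα
  have hS : Good α S.toSys := ⟨e1, e2, e3, e4, e5⟩
  obtain ⟨N₀, y, n, hN₀, hn, hGy, hy0, hy1, hper, c, H1, hc, hH1, hmain⟩ :=
    mainX S (fin_lamForm e1 e3)
  have hiter : ∀ (m : ℕ) (z : E), ((T S.toSys 1)^[m] z).1 = (tent α)^[m] z.1 := by
    intro m z
    have := semi_iter hS (N := 1) le_rfl m (x := z.1) (z := z) (by rw [Nat.cast_one, one_mul])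
    rw [Nat.cast_one, one_mul] at this
    exact this
  refine ⟨N₀, y.1, n, hN₀, hn, hy0, hy1, by rw [← hiter, hper], fun N hN hdvd => ?_⟩
  obtain ⟨k, hk⟩ := hdvd
  have hN' : (1 : ℝ) ≤ N := by exact_mod_cast hN
  have hC : (0 : ℝ) < 128 * N ^ 5 + 18 := by positivity
  refine ⟨c / (128 * N ^ 5 + 18), max H1 2, by positivity, fun H hH => ?_⟩
  have hHa : H1 ≤ H := (le_max_left _ _).trans hH
  have hHb : 2 ≤ H := (le_max_right _ _).trans hH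
  obtain ⟨hfin, hub⟩ := fin_upper hS N hN H hHb
  obtain ⟨Y, hY, hYc⟩ := hmain H hHa
  have hsub : {x : ℝ | x ∈ Set.Icc (0 : ℝ) 1 ∧ HeightLE α N H x ∧
      ∃ m : ℕ, (tent α)^[m] x = y.1} ⊆ {x : ℝ | x ∈ Set.Icc (0 : ℝ) 1 ∧ HeightLE α N H x} :=
    fun x hx => ⟨hx.1, hx.2.1⟩
  have hfin2 := hfin.subset hsub
  have hinj : Set.InjOn (fun z : E => z.1) (Y : Set E) := by
    intro z hz z' hz' he
    exact fin_inj S hN₀ (hY z hz).1.1 (hY z' hz').1.1 he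
  have hle : (Y.card : ℝ) ≤ ({x : ℝ | x ∈ Set.Icc (0 : ℝ) 1 ∧ HeightLE α N H x ∧
      ∃ m : ℕ, (tent α)^[m] x = y.1}.ncard : ℝ) := by
    rw [← Finset.card_image_of_injOn hinj, ← Set.ncard_coe_finset, Nat.cast_le]
    refine Set.ncard_le_ncard ?_ hfin2
    intro x hx
    rw [Finset.mem_coe, Finset.mem_image] at hx
    obtain ⟨z, hz, rfl⟩ := hx
    obtain ⟨⟨g1, g2, g3⟩, g4, g5, m, hm⟩ := hY z hz
    refine ⟨⟨g2, g3⟩, ?_, m, by rw [← hiter, hm]⟩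
    have hmem : (N : E) * z ∈ S.Lam := by
      have : (N : E) * z = k • ((N₀ : E) * z) := by
        rw [hk, nsmul_eq_mul]
        push_cast
        ring
      rw [this]
      exact S.Lam.nsmul_mem g1 k
    have f1 : ((N : E) * z).1 = N * z.1 := rfl
    have f2 : ‖((N : E) * z).2.1‖ = N * ‖z.2.1‖ := by
      have : ((N : E) * z).2.1 = (N : ℂ) * z.2.1 := rfl
      rw [this, norm_mul, Complex.norm_natCast]
    have f3 : ‖((N : E) * z).2.2‖ = N * ‖z.2.2‖ := by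
      have : ((N : E) * z).2.2 = (N : ℂ) * z.2.2 := rfl
      rw [this, norm_mul, Complex.norm_natCast]
    refine height_of hS hmem f1 ?_ ?_ ?_
    · rw [f1, abs_of_nonneg (mul_nonneg (by linarith) g2)]
      exact mul_le_mul_of_nonneg_left (by linarith) (by linarith)
    · rw [f2]
      exact mul_le_mul_of_nonneg_left g4 (by linarith)
    · rw [f3]
      exact mul_le_mul_of_nonneg_left g5 (by linarith)
  have hH4 : 0 < H ^ 4 := by positivity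
  have hpos : 0 < c * H ^ 4 := mul_pos hc hH4
  have hmono : ({x : ℝ | x ∈ Set.Icc (0 : ℝ) 1 ∧ HeightLE α N H x ∧
      ∃ m : ℕ, (tent α)^[m] x = y.1}.ncard : ℝ) ≤
      ({x : ℝ | x ∈ Set.Icc (0 : ℝ) 1 ∧ HeightLE α N H x}.ncard : ℝ) := by
    rw [Nat.cast_le]
    exact Set.ncard_le_ncard hsub hfin
  refine ⟨hfin, ?_, ?_⟩
  · have : (0 : ℝ) < ({x : ℝ | x ∈ Set.Icc (0 : ℝ) 1 ∧ HeightLE α N H x}.ncard : ℝ) := by
      linarith
    exact_mod_cast this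
  · calc c / (128 * N ^ 5 + 18) *
          ({x : ℝ | x ∈ Set.Icc (0 : ℝ) 1 ∧ HeightLE α N H x}.ncard : ℝ)
        ≤ c / (128 * N ^ 5 + 18) * ((128 * N ^ 5 + 18) * H ^ 4) :=
          mul_le_mul_of_nonneg_left hub (by positivity)
      _ = c * H ^ 4 := by field_simp
      _ ≤ (Y.card : ℝ) := hYc
      _ ≤ _ := hle

end Pool.Agent.H49.PP
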