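import Pool.Agent.H49.PP.Defs

/-!
# JOB PP-02. The preimages of a point

`GB_cls`: finite sum over `w ∈ cls a b` (`tsum_fintype`/`Finset` over a subtype of a Finset; `SS` of the family is a finite sum, push `ENNReal.ofReal` out by
`ENNReal.ofReal_sum_of_nonneg`). If the class is empty nothing to prove; else fix `w0` in it and put `z_w = gw w y - gw w0 y`. `gw_eq` and `mul_cls`: `gw w y = W_{ab}⁻¹ (y - off w)`, so
`z_w = W_{ab}⁻¹ (off w0 - off w) ∈ Lam`: `off` is in `Lam` (`off_mem`), and `W_{ab}⁻¹ z ∈ Lam` for `z ∈ Lam` (iterate `ainv_mem`, `binv_mem`; work with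
components or with `a_ne`, `b_ne`). `|z_w.1| ≤ 1` by `gw_first`. The map `w ↦ z_w` is injective (`off_inj S 1 le_rfl`). So the sum over `w` of the Gaussians is the
sum over the Finset `Y` of the `z_w` of the Gaussians with the centres moved by `gw w0 y`; `lat_gen` (`AB/Lat.lean`) with `u = -1`, `δ = 2` gives the bound with
`K0 = (∑' latw)² (128 · 2 + 18) + 1`.

`GB_words`: `words n` is the disjoint union of the `n + 1` classes (`sum_words_eq`, `AD n` has `n + 1` elements).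

`gw_T`: `T (gb c y) = y` for `0 ≤ y.1 < 1` (as in `T_gb`, `AB/Reidx.lean`, the case `y.1 = N` does not occur), `gw_first` strictly: `0 < y.1 < 1` gives
`0 < (gw w y).1 < 1` (`GW_ainv` etc.: `1/α + 1/β = 1`); induction on `w`.
`gw_inj`: induction on `n`: apply `T`; `gw (c :: w) y = gw (c' :: w') y` gives `gw w y = gw w' y`, so `w = w'`, and if `c ≠ c'` then `a⁻¹ z = 1 - b⁻¹ z` with
`z = gw w y`, first coordinate: `z.1 = 1`, contradiction.
-/

set_option autoImplicit false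

namespace Pool.Agent.H49.PP

open Pool.Agent.H67.Tent Pool.Agent.H49.AB Finset

theorem Nodes_cancel (S : Sys2) (a b : ℕ) (x : E) : (W S a b)⁻¹ * (W S a b * x) = x := by
  have h1 : (W S a b).1 ≠ 0 := abs_pos.1 (W1_pos S a b)
  have h2 : (W S a b).2.1 ≠ 0 := norm_pos_iff.1 (W2_pos S a b)
  have h3 : (W S a b).2.2 ≠ 0 := norm_pos_iff.1 (W3_pos S a b)
  refine Prod.ext ?_ (Prod.ext ?_ ?_)
  · exact inv_mul_cancel_left₀ h1 x.1
  · exact inv_mul_cancel_left₀ h2 x.2.1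
  · exact inv_mul_cancel_left₀ h3 x.2.2

theorem Nodes_cancel' (S : Sys2) (a b : ℕ) (x : E) : W S a b * ((W S a b)⁻¹ * x) = x := by
  have h1 : (W S a b).1 ≠ 0 := abs_pos.1 (W1_pos S a b)
  have h2 : (W S a b).2.1 ≠ 0 := norm_pos_iff.1 (W2_pos S a b)
  have h3 : (W S a b).2.2 ≠ 0 := norm_pos_iff.1 (W3_pos S a b)
  refine Prod.ext ?_ (Prod.ext ?_ ?_)
  · exact mul_inv_cancel_left₀ h1 x.1
  · exact mul_inv_cancel_left₀ h2 x.2.1
  · exact mul_inv_cancel_left₀ h3 x.2.2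

theorem Nodes_exists (S : Sys2) (a b : ℕ) : ∀ z ∈ S.Lam, ∃ x ∈ S.Lam, W S a b * x = z := by
  induction a with
  | zero =>
    induction b with
    | zero => exact fun z hz => ⟨z, hz, by rw [W_zero, one_mul]⟩
    | succ b ih =>
      intro z hz
      obtain ⟨x, hx, h⟩ := ih (-(S.b⁻¹ * z)) (S.Lam.neg_mem (binv_mem S hz))
      refine ⟨x, hx, ?_⟩
      rw [W_succ_right, mul_assoc, h]
      calc -S.b * -(S.b⁻¹ * z) = (S.b * S.b⁻¹) * z := by ring
        _ = z := by rw [b_ne, one_mul]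
  | succ a ih =>
    intro z hz
    obtain ⟨x, hx, h⟩ := ih (S.a⁻¹ * z) (ainv_mem S hz)
    refine ⟨x, hx, ?_⟩
    rw [W_succ_left, mul_assoc, h, ← mul_assoc, a_ne, one_mul]

theorem Winv_mem (S : Sys2) (a b : ℕ) {z : E} (hz : z ∈ S.Lam) : (W S a b)⁻¹ * z ∈ S.Lam := by
  obtain ⟨x, hx, rfl⟩ := Nodes_exists S a b z hz
  rw [Nodes_cancel]
  exact hx

theorem Nodes_SS (s : Finset (List Bool)) (pt : List Bool → E) (f : E → ENNReal) :
    SS (fun w : {w : List Bool // w ∈ s} => pt w.1) f = ∑ w ∈ s, f (pt w) := by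
  unfold SS
  rw [tsum_fintype]
  exact Finset.sum_coe_sort s fun w => f (pt w)

theorem Nodes_sum (S : Sys2) (a b : ℕ) (y : E) (h0 : 0 ≤ y.1) (h1 : y.1 ≤ 1) (r2 r3 : ℝ)
    (c2 c3 : ℂ) (h2 : 0 < r2) (h3 : 0 < r3) :
    ∑ w ∈ cls a b, Real.exp (-(Real.pi * (‖(gw S 1 w y).2.1 - c2‖ ^ 2 / r2 ^ 2 +
      ‖(gw S 1 w y).2.2 - c3‖ ^ 2 / r3 ^ 2))) ≤
      (∑' k, latw k) ^ 2 * (128 * 2 + 18) * (1 + r2 ^ 2 * r3 ^ 2) := by
  classical
  rcases (cls a b).eq_empty_or_nonempty with he | ⟨w0, hw0⟩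
  · rw [he, Finset.sum_empty]
    positivity
  · obtain ⟨Z, hZ⟩ : ∃ Z : List Bool → E, Z = fun w => gw S 1 w y - gw S 1 w0 y := ⟨_, rfl⟩
    have hZw : ∀ w, Z w = gw S 1 w y - gw S 1 w0 y := fun w => by rw [hZ]
    have h1' : y.1 ≤ ((1 : ℕ) : ℝ) := by rw [Nat.cast_one]; exact h1
    have hinj : Set.InjOn Z (cls a b : Finset (List Bool)) := by
      intro w hw w' hw' h
      have hw := Finset.mem_coe.1 hw
      have hw' := Finset.mem_coe.1 hw'
      rw [hZw, hZw, sub_left_inj, gw_eq, gw_eq, mul_cls S hw, mul_cls S hw'] at h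
      have h5 := congrArg (fun x => W S a b * x) h
      simp only [Nodes_cancel', sub_right_inj] at h5
      exact off_inj S 1 le_rfl hw hw' h5
    have hY : ∀ z ∈ (cls a b).image Z, z ∈ S.Lam ∧ (-1 : ℝ) ≤ z.1 ∧ z.1 ≤ -1 + 2 := by
      intro z hz
      obtain ⟨w, hw, rfl⟩ := Finset.mem_image.1 hz
      obtain ⟨i1, i2⟩ := gw_first S 1 w h0 h1'
      obtain ⟨j1, j2⟩ := gw_first S 1 w0 h0 h1'
      rw [Nat.cast_one] at i2 j2
      have e1 : (Z w).1 = (gw S 1 w y).1 - (gw S 1 w0 y).1 := by rw [hZw]; rfl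
      refine ⟨?_, by rw [e1]; linarith, by rw [e1]; linarith⟩
      rw [hZw, gw_eq, gw_eq, mul_cls S hw, mul_cls S hw0, ← mul_sub]
      have e2 : y - off S.toSys 1 w - (y - off S.toSys 1 w0) =
          off S.toSys 1 w0 - off S.toSys 1 w := by ring
      rw [e2]
      exact Winv_mem S a b (S.Lam.sub_mem (off_mem S.toSys 1 w0) (off_mem S.toSys 1 w))
    have key := lat_gen S.toSys ((cls a b).image Z) (-1) 2 r2 r3 (c2 - (gw S 1 w0 y).2.1)
      (c3 - (gw S 1 w0 y).2.2) two_pos h2 h3 hY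
    rw [Finset.sum_image hinj] at key
    refine le_trans (le_of_eq (Finset.sum_congr rfl fun w _ => ?_)) key
    have e1 : (Z w).2.1 - (c2 - (gw S 1 w0 y).2.1) = (gw S 1 w y).2.1 - c2 := by
      have : (Z w).2.1 = (gw S 1 w y).2.1 - (gw S 1 w0 y).2.1 := by rw [hZw]; rfl
      rw [this]; ring
    have e2 : (Z w).2.2 - (c3 - (gw S 1 w0 y).2.2) = (gw S 1 w y).2.2 - c3 := by
      have : (Z w).2.2 = (gw S 1 w y).2.2 - (gw S 1 w0 y).2.2 := by rw [hZw]; rfl
      rw [this]; ring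
    rw [e1, e2]

theorem GB_cls (S : Sys2) : ∃ K : ℝ, 1 ≤ K ∧ ∀ (a b : ℕ) (y : E), 0 ≤ y.1 → y.1 ≤ 1 →
    GB (fun w : {w : List Bool // w ∈ cls a b} => gw S 1 w.1 y) K := by
  refine ⟨(∑' k, latw k) ^ 2 * (128 * 2 + 18) + 1, ?_, fun a b y h0 h1 r2 r3 c2 c3 h2 h3 => ?_⟩
  · have : 0 ≤ (∑' k, latw k) ^ 2 * (128 * 2 + 18) := by positivity
    linarith
  · rw [Nodes_SS (cls a b) (fun w => gw S 1 w y),
      ← ENNReal.ofReal_sum_of_nonneg fun _ _ => (Real.exp_pos _).le]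
    refine ENNReal.ofReal_le_ofReal ((Nodes_sum S a b y h0 h1 r2 r3 c2 c3 h2 h3).trans ?_)
    have : 0 ≤ 1 + r2 ^ 2 * r3 ^ 2 := by positivity
    nlinarith

theorem GB_words (S : Sys2) : ∃ K : ℝ, 1 ≤ K ∧ ∀ (n : ℕ) (y : E), 0 ≤ y.1 → y.1 ≤ 1 →
    GB (fun w : {w : List Bool // w ∈ words n} => gw S 1 w.1 y) (K * (n + 1)) := by
  obtain ⟨K, hK, h⟩ := GB_cls S
  refine ⟨K, hK, fun n y h0 h1 r2 r3 c2 c3 h2 h3 => ?_⟩
  rw [Nodes_SS (words n) (fun w => gw S 1 w y), sum_words_eq]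
  have hcard : (AD n).card = n + 1 := Finset.Nat.card_antidiagonal n
  have key := Finset.sum_le_card_nsmul (AD n) (fun p => ∑ w ∈ cls p.1 p.2,
      ENNReal.ofReal (Real.exp (-(Real.pi * (‖(gw S 1 w y).2.1 - c2‖ ^ 2 / r2 ^ 2 +
        ‖(gw S 1 w y).2.2 - c3‖ ^ 2 / r3 ^ 2)))))
    (ENNReal.ofReal (K * (1 + r2 ^ 2 * r3 ^ 2)))
    fun p (_ : p ∈ AD n) => by
      have := h p.1 p.2 y h0 h1 r2 r3 c2 c3 h2 h3
      rw [Nodes_SS (cls p.1 p.2) (fun w => gw S 1 w y)] at this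
      exact this
  refine key.trans (le_of_eq ?_)
  rw [hcard, nsmul_eq_mul, ← ENNReal.ofReal_natCast (n + 1), ← ENNReal.ofReal_mul (by positivity)]
  congr 1
  push_cast
  ring

theorem gw_first' (S : Sys2) (w : List Bool) {y : E} (h0 : 0 < y.1) (h1 : y.1 < 1) :
    0 < (gw S 1 w y).1 ∧ (gw S 1 w y).1 < 1 := by
  induction w with
  | nil => exact ⟨h0, h1⟩
  | cons c w ih =>
    obtain ⟨i1, i2⟩ := ih
    have ha := inv_pos.2 (ap S)
    have hb := inv_pos.2 (bp S)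
    have hpq := pq S
    cases c
    · have e : (gw S 1 (false :: w) y).1 = (S.a.1)⁻¹ * (gw S 1 w y).1 := rfl
      rw [e]
      refine ⟨mul_pos ha i1, ?_⟩
      nlinarith
    · have e : (gw S 1 (true :: w) y).1 = ((1 : ℕ) : ℝ) - (S.b.1)⁻¹ * (gw S 1 w y).1 := rfl
      rw [e, Nat.cast_one]
      have h3 := mul_pos hb i1
      have h4 : (S.b.1)⁻¹ * (gw S 1 w y).1 < 1 := by nlinarith
      exact ⟨by linarith, by linarith⟩

theorem Nodes_T_gb (S : Sys2) (c : Bool) {z : E} (h1 : z.1 < 1) :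
    T S.toSys 1 (gb S 1 c z) = z := by
  have ha := inv_pos.2 (ap S)
  have hb := inv_pos.2 (bp S)
  have hpq := pq S
  cases c
  · have h4 : (gb S 1 false z).1 ≤ ((1 : ℕ) : ℝ) / S.a.1 := by
      rw [Reidx_f1, div_eq_inv_mul]
      refine mul_le_mul_of_nonneg_left ?_ ha.le
      rw [Nat.cast_one]
      exact h1.le
    unfold T
    rw [if_pos h4, Reidx_false, ← mul_assoc, a_ne, one_mul]
  · have h4 : ¬ (gb S 1 true z).1 ≤ ((1 : ℕ) : ℝ) / S.a.1 := by
      intro h4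
      rw [Reidx_t1, div_eq_inv_mul, Nat.cast_one] at h4
      nlinarith
    unfold T
    rw [if_neg h4, Reidx_true]
    have h8 : ((1 : ℕ) : E) - (((1 : ℕ) : E) - S.b⁻¹ * z) = S.b⁻¹ * z := by ring
    rw [h8, ← mul_assoc, b_ne, one_mul]

theorem gw_T (S : Sys2) (w : List Bool) {y : E} (h0 : 0 < y.1) (h1 : y.1 < 1) :
    (T S.toSys 1)^[w.length] (gw S 1 w y) = y := by
  induction w with
  | nil => rfl
  | cons c w ih =>
    rw [List.length_cons, Function.iterate_succ_apply]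
    have e : gw S 1 (c :: w) y = gb S 1 c (gw S 1 w y) := rfl
    rw [e, Nodes_T_gb S c (gw_first' S w h0 h1).2, ih]

theorem gw_inj (S : Sys2) (n : ℕ) {y : E} (h0 : 0 < y.1) (h1 : y.1 < 1) {w w' : List Bool}
    (hw : w ∈ words n) (hw' : w' ∈ words n) (h : gw S 1 w y = gw S 1 w' y) : w = w' := by
  induction n generalizing w w' with
  | zero =>
    rw [mem_words] at hw hw'
    rw [List.length_eq_zero_iff.1 hw, List.length_eq_zero_iff.1 hw']
  | succ n ih =>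
    rw [mem_words] at hw hw'
    rcases w with _ | ⟨c, v⟩
    · simp at hw
    rcases w' with _ | ⟨c', v'⟩
    · simp at hw'
    rw [List.length_cons, Nat.add_right_cancel_iff] at hw hw'
    have e : gw S 1 (c :: v) y = gb S 1 c (gw S 1 v y) := rfl
    have e' : gw S 1 (c' :: v') y = gb S 1 c' (gw S 1 v' y) := rfl
    have h5 : gw S 1 v y = gw S 1 v' y := by
      have h6 := congrArg (T S.toSys 1) h
      rwa [e, e', Nodes_T_gb S c (gw_first' S v h0 h1).2,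
        Nodes_T_gb S c' (gw_first' S v' h0 h1).2] at h6
    have h7 : v = v' := ih (mem_words.2 hw) (mem_words.2 hw') h5
    subst h7
    have h8 := (gw_first' S v h0 h1).2
    have hone : ∀ z : E, z = ((1 : ℕ) : E) → ¬ z.1 < 1 := by
      intro z hz hlt
      rw [hz, Prod.fst_natCast, Nat.cast_one] at hlt
      exact lt_irrefl _ hlt
    rw [e, e'] at h
    cases c <;> cases c'
    · rfl
    · exact absurd h8 (hone _ (Reidx_ft S 1 h))
    · exact absurd h8 (hone _ (Reidx_ft S 1 h.symm))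
    · rfl

end Pool.Agent.H49.PP
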