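import Pool.Agent.H49.PP.StepL
import Pool.Agent.H49.PP.Nodes

/-!
# JOB PP-03. The lower step for the preimages of one point

`stepL` with the family `w ∈ words (n - 17 o) ↦ gw w y` (`GB_words`, constant `K (n - 17 o + 1) ≤ K (n + 1)`), `u = 1`, `Q = 1`, `R = exp L`. By `words_append` and
`gw_append`: `∑_{κ ∈ words (17 o)} ∑_{w ∈ words (n - 17 o)} gs R 1 (gw κ (gw w y)) = ∑_{κ ∈ words n} gs R 1 (gw κ y) = R² fr n L y`, and in the same way the sum over
`words (16 o)` is `(R ‖W_x‖_2)² fr (n - o) (L + lw x) y` (`exp_lw`: `exp (L + lw x) = R ‖W_x‖_2`). The coefficient is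
`card ‖W_x‖_3² ‖W_x‖_2² R² = bn x R²` (`card_cls`, `W1`, `W_prod`). Everything is a finite sum of real numbers: `tsum_fintype`, `ENNReal.ofReal_sum_of_nonneg`,
`ENNReal.ofReal_le_ofReal_iff` at the end; divide by `R²`.
-/

set_option autoImplicit false

namespace Pool.Agent.H49.PP

open Pool.Agent.H67.Tent Pool.Agent.H49.AB Finset

theorem FrStep_SS (S : Sys2) (y : E) (k m : ℕ) (L' : ℝ) :
    SS (fun w : {w : List Bool // w ∈ words m} => gw S 1 w.1 y)
      (fun z => 1 * ∑ w ∈ words k, ENNReal.ofReal (gs (Real.exp L') 1 (gw S 1 w z))) =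
    ENNReal.ofReal (Real.exp L' ^ 2 * fr S (k + m) L' y) := by
  have e1 : Real.exp L' ^ 2 * fr S (k + m) L' y =
      ∑ v ∈ words m, ∑ w ∈ words k, gs (Real.exp L') 1 (gw S 1 w (gw S 1 v y)) := by
    have h0 : Real.exp L' ^ 2 ≠ 0 := by positivity
    unfold fr
    rw [mul_div_cancel₀ _ h0, words_append, Finset.sum_comm]
    refine Finset.sum_congr rfl fun v _ => Finset.sum_congr rfl fun w _ => ?_
    rw [gw_append]
  rw [e1, ENNReal.ofReal_sum_of_nonneg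
    (fun v _ => Finset.sum_nonneg fun w _ => (gs_pos _ _ _).le)]
  unfold SS
  rw [tsum_fintype]
  rw [Finset.sum_coe_sort (words m) (fun v => 1 * ∑ w ∈ words k,
    ENNReal.ofReal (gs (Real.exp L') 1 (gw S 1 w (gw S 1 v y))))]
  refine Finset.sum_congr rfl fun v _ => ?_
  rw [one_mul, ENNReal.ofReal_sum_of_nonneg (fun w _ => (gs_pos _ _ _).le)]

theorem fr_step (S : Sys2) (A : ℕ) : ∃ (C : ℝ) (o0 : ℕ), 1 ≤ C ∧ 1 ≤ o0 ∧
    ∀ y : E, 0 ≤ y.1 → y.1 ≤ 1 → ∀ (n o : ℕ) (L : ℝ), o0 ≤ o → 17 * o ≤ n → 40 * (o : ℝ) ≤ L →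
      ∑ x ∈ AD o, bn S x.1 x.2 * fr S (n - o) (L + lw S x.1 x.2) y ≤
        fr S n L y + C * (n + 1) / (o : ℝ) ^ A := by
  obtain ⟨C0, o0, hC0, ho0, H⟩ := stepL S A
  obtain ⟨K, hK, hG⟩ := GB_words S
  refine ⟨K * C0, o0, by nlinarith, ho0, fun y hy0 hy1 n o L ho hn hL => ?_⟩
  have ho' : (1 : ℝ) ≤ o := by exact_mod_cast le_trans ho0 ho
  set m : ℕ := n - 17 * o with hm
  have hmn : (m : ℝ) ≤ n := by exact_mod_cast Nat.sub_le _ _
  have hm0 : (0 : ℝ) ≤ m := Nat.cast_nonneg _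
  have key := H (fun w : {w : List Bool // w ∈ words m} => gw S 1 w.1 y) (K * (m + 1))
    (by nlinarith) (hG m y hy0 hy1) o (Real.exp L) 1 (fun _ => 1) ho
    (Real.exp_le_exp.2 hL) le_rfl (one_le_pow₀ (by norm_num)) (fun _ => le_rfl)
  have e1 : ∀ x ∈ AD o, ENNReal.ofReal ((cls x.1 x.2).card * (1 * ‖(W S x.1 x.2).2.2‖) ^ 2) *
      SS (fun w : {w : List Bool // w ∈ words m} => gw S 1 w.1 y) (fun y => 1 *
        ∑ w ∈ words (16 * o), ENNReal.ofReal (gs (Real.exp L * ‖(W S x.1 x.2).2.1‖) 1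
          (gw S 1 w y))) =
      ENNReal.ofReal (Real.exp L ^ 2 * (bn S x.1 x.2 * fr S (n - o) (L + lw S x.1 x.2) y)) := by
    intro x _
    have e2 : Real.exp L * ‖(W S x.1 x.2).2.1‖ = Real.exp (L + lw S x.1 x.2) := by
      rw [Real.exp_add, exp_lw]
    rw [e2, FrStep_SS, ← ENNReal.ofReal_mul (by positivity)]
    congr 1
    have e3 : 16 * o + m = n - o := by omega
    rw [e3, ← e2]
    have hp := W_prod S x.1 x.2
    have h1 := (W1_pos S x.1 x.2).ne'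
    have h2 : bn S x.1 x.2 = (cls x.1 x.2).card *
        (‖(W S x.1 x.2).2.1‖ ^ 2 * ‖(W S x.1 x.2).2.2‖ ^ 2) := by
      unfold bn
      rw [← step_card_div S x.1 x.2, div_eq_iff h1]
      calc ((cls x.1 x.2).card : ℝ) = (cls x.1 x.2).card * (|(W S x.1 x.2).1| *
            ‖(W S x.1 x.2).2.1‖ ^ 2 * ‖(W S x.1 x.2).2.2‖ ^ 2) := by rw [hp, mul_one]
        _ = _ := by ring
    rw [h2]
    ring
  rw [Finset.sum_congr rfl e1, FrStep_SS] at key
  have hR : 0 < Real.exp L ^ 2 := by positivity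
  have hfr := fr_nonneg S
  have hX : ∀ x ∈ AD o, 0 ≤ Real.exp L ^ 2 *
      (bn S x.1 x.2 * fr S (n - o) (L + lw S x.1 x.2) y) := fun x _ =>
    mul_nonneg hR.le (mul_nonneg (bn_nonneg S _ _) (hfr _ _ _))
  have hoA : (0 : ℝ) < (o : ℝ) ^ A := by positivity
  have e4 : 17 * o + m = n := by omega
  rw [← ENNReal.ofReal_sum_of_nonneg hX, e4, ← ENNReal.ofReal_add
    (mul_nonneg hR.le (hfr _ _ _)) (by positivity), ENNReal.ofReal_le_ofReal_iff
    (add_nonneg (mul_nonneg hR.le (hfr _ _ _)) (by positivity)), ← Finset.mul_sum] at key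
  have e5 : Real.exp L ^ 2 * fr S n L y +
      K * (m + 1) * C0 / (o : ℝ) ^ A * (Real.exp L ^ 2 * 1 ^ 2) =
      Real.exp L ^ 2 * (fr S n L y + K * C0 * (m + 1) / (o : ℝ) ^ A) := by ring
  rw [e5] at key
  have key2 := le_of_mul_le_mul_left key hR
  refine key2.trans ?_
  have h6 : K * C0 * ((m : ℝ) + 1) / (o : ℝ) ^ A ≤ K * C0 * ((n : ℝ) + 1) / (o : ℝ) ^ A := by
    refine div_le_div_of_nonneg_right ?_ hoA.le
    refine mul_le_mul_of_nonneg_left (by linarith) (by nlinarith)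
  linarith

end Pool.Agent.H49.PP
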