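import Pool.Agent.H49.PP.Base
import Pool.Agent.H49.PP.Chain1
import Pool.Agent.H49.PP.FrStep
import Pool.Agent.H49.PP.Chain2
import Pool.Agent.H49.PP.BoxH
import Pool.Agent.H49.PP.CountX

/-!
# PP: assembly (helper49)
-/

set_option autoImplicit false

namespace Pool.Agent.H49.PP

open Pool.Agent.H67.Tent Pool.Agent.H49.AB Finset

/-- A point with a polynomial lower bound at all scales. -/
theorem main_point (S : Sys2) (hS : LamForm S) : ∃ (N : ℕ) (y : E) (n : ℕ), 1 ≤ N ∧ 1 ≤ n ∧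
    GX S N y ∧ 0 < y.1 ∧ y.1 < 1 ∧ (T S.toSys 1)^[n] y = y ∧
    ∃ (B : ℕ) (c L1 : ℝ), 0 < c ∧ 1 ≤ L1 ∧ ∀ L : ℝ, L1 ≤ L →
      ENNReal.ofReal (c / L ^ B * Real.exp L ^ 2) ≤ SmX S N (Real.exp L) 1 (uP S y) := by
  obtain ⟨B, hB⟩ := chain1b S
  obtain ⟨C, o0, hC, ho0, hstep⟩ := fr_step S (B + 5)
  obtain ⟨c0, n0, hc0, hn0, hbase⟩ := base S hS
  obtain ⟨n2, hn2, h1a⟩ := chain1a S (B + 5) (by omega) C hC o0 c0 hc0
  obtain ⟨n3, hn3, h1b⟩ := hB C o0 hC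
  obtain ⟨m, hm0, hm2, hm3⟩ : ∃ m : ℕ, n0 ≤ m ∧ n2 ≤ m ∧ n3 ≤ m :=
    ⟨max n0 (max n2 n3), by omega, by omega, by omega⟩
  have hm1 : 1 ≤ m := hn0.trans hm0
  obtain ⟨L0, y, N, hN, hGX, hy0, hy1, hT, hL0, hfr⟩ := hbase m hm0
  refine ⟨N, y, m, hN, hm1, hGX, hy0, hy1, hT, B, ?_⟩
  have hF : StepF S (B + 5) C o0 (fun n L => fr S n L y) :=
    ⟨fun n L => fr_nonneg S n L y, fun n o L h1 h2 h3 => hstep y hy0.le hy1.le n o L h1 h2 h3⟩
  have hall := h1b _ hF m hm3 (h1a _ hF m L0 hm2 hL0 hfr)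
  have hmpos : (0 : ℝ) < m := by exact_mod_cast hm1
  obtain ⟨hg1, hg2⟩ := gam2_bd S
  have hgpos : 0 < gam2 S := by linarith
  refine ⟨1 / (m : ℝ) ^ 3 * ((m : ℝ) * (0.04)) ^ B, 2 * m + 2, by positivity, by linarith,
    fun L hL => ?_⟩
  have hLpos : 0 < L := by linarith
  -- the level
  set n : ℕ := ⌊L / gam2 S⌋₊ with hn
  have hq0 : 0 ≤ L / gam2 S := by positivity
  have hfl := Nat.floor_le hq0
  have hfl2 := Nat.lt_floor_add_one (L / gam2 S)
  rw [← hn] at hfl hfl2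
  have hnL : gam2 S * n ≤ L := by
    rw [le_div_iff₀ hgpos] at hfl
    linarith
  have hnL2 : L < gam2 S * n + gam2 S := by
    rw [div_lt_iff₀ hgpos] at hfl2
    linarith
  have hn_ge : (2 : ℝ) * m ≤ n := by nlinarith
  have hn1 : (1 : ℝ) ≤ n := by
    have : (1 : ℝ) ≤ m := by exact_mod_cast hm1
    linarith
  have hwin : |L - gam2 S * n| ≤ Real.sqrt n := by
    have h1 : (1 : ℝ) ≤ Real.sqrt n := Real.one_le_sqrt.2 hn1
    rw [abs_le]
    constructor <;> linarith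
  have key := hall n L (by linarith) hwin
  have hn_le : (n : ℝ) ≤ L / 0.08 := by
    rw [le_div_iff₀ (by norm_num)]
    nlinarith
  have hpow : ((m : ℝ) * 0.04) ^ B / L ^ B ≤ ((m : ℝ) / (2 * n)) ^ B := by
    rw [← div_pow]
    refine pow_le_pow_left₀ (by positivity) ?_ B
    rw [div_le_div_iff₀ hLpos (by positivity)]
    rw [le_div_iff₀ (by norm_num)] at hn_le
    nlinarith
  refine le_trans (ENNReal.ofReal_le_ofReal ?_) (fr_le_X S hN hGX hy0 hy1 n L)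
  refine mul_le_mul_of_nonneg_right (le_trans ?_ key) (by positivity)
  rw [mul_div_assoc]
  exact mul_le_mul_of_nonneg_left hpow (by positivity)

theorem uP_le (S : Sys2) (y z : E) : uP S y z ≤ 1 := by
  unfold uP
  split_ifs <;> simp

theorem uP_cases (S : Sys2) (y z : E) : uP S y z = 0 ∨ uP S y z = 1 := by
  unfold uP
  split_ifs
  · right; rfl
  · left; rfl

theorem uP_one (S : Sys2) {y z : E} (h : uP S y z = 1) : ∃ m : ℕ, (T S.toSys 1)^[m] z = y := by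
  by_contra hc
  unfold uP at h
  rw [if_neg hc] at h
  exact zero_ne_one h

/-- A uniform lower bound at all scales. -/
theorem main_scales (S : Sys2) {N : ℕ} (hN : 1 ≤ N) {y : E} {n : ℕ} (hn : 1 ≤ n) (hy0 : 0 < y.1)
    (hy1 : y.1 < 1) (hT : (T S.toSys 1)^[n] y = y) (B : ℕ) (c L1 : ℝ) (hc : 0 < c) (hL1 : 1 ≤ L1)
    (h : ∀ L : ℝ, L1 ≤ L →
      ENNReal.ofReal (c / L ^ B * Real.exp L ^ 2) ≤ SmX S N (Real.exp L) 1 (uP S y)) :
    ∃ c' L2 : ℝ, 0 < c' ∧ ∀ R Q : ℝ, Real.exp L2 ≤ R → 1 ≤ Q →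
      Q ≤ (7 / 6) ^ ⌊Real.log R / 81⌋₊ →
      ENNReal.ofReal (c' * (R ^ 2 * Q ^ 2)) ≤ SmX S N R Q (uP S y) := by
  obtain ⟨C, o0, hC, ho0, hstep⟩ := stepX S hN (B + 1)
  have hz := uP_zero S hy0 hy1
  have hst := hstep (uP S y) (uP_le S y) hz.1 hz.2 (uP_inv S hn hT)
  have hlw : ∀ a' b' : ℕ, -((a' + b' : ℕ) : ℝ) ≤ lw S a' b' := by
    intro a' b'
    have h1 := CmpShiftAux.W2_ge S a' b'
    unfold lw
    rw [Real.le_log_iff_exp_le (W2_pos S a' b')]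
    exact h1
  obtain ⟨c', L2, hc', hL2, hall⟩ := chain2 B (B + 1) le_rfl
    (fun L c => ENNReal.ofReal (c * Real.exp L ^ 2) ≤ SmX S N (Real.exp L) 1 (uP S y))
    (fun L c c' hcc hP => (ENNReal.ofReal_le_ofReal
      (mul_le_mul_of_nonneg_right hcc (by positivity))).trans hP) C hC o0 ho0 (by
      intro o L c1 ho hoL hc1 hL'
      have hkey := hst o (Real.exp L) 1 c1 ho (Real.exp_le_exp.2 hoL) le_rfl
        (one_le_pow₀ (by norm_num)) hc1 (by
          intro a' b' hab' hW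
          have h1 : Real.exp L * ‖(W S a' b').2.1‖ = Real.exp (L + lw S a' b') := by
            rw [Real.exp_add, exp_lw]
          rw [h1]
          refine hL' _ ?_ ?_
          · have := hlw a' b'
            rw [hab'] at this
            linarith
          · have h2 : lw S a' b' ≤ -(o : ℝ) / 50 := by
              unfold lw
              rw [Real.log_le_iff_le_exp (W2_pos S a' b')]
              exact hW
            have h3 : -(o : ℝ) / 50 = -((o : ℝ) / 50) := by ring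
            rw [h3] at h2
            linarith)
      simp only [one_pow, mul_one] at hkey
      exact hkey) c L1 hc (fun L hL _ => h L hL)
  have ho0' : (1 : ℝ) ≤ o0 := by exact_mod_cast ho0
  -- the error term is small for large o
  have htend : Filter.Tendsto (fun o : ℕ => (1 - 0.984 ^ o) * c' - C / (o : ℝ) ^ (B + 1))
      Filter.atTop (nhds ((1 - 0) * c' - 0)) := by
    refine Filter.Tendsto.sub (Filter.Tendsto.mul_const _ (Filter.Tendsto.const_sub _ ?_)) ?_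
    · exact tendsto_pow_atTop_nhds_zero_of_lt_one (by norm_num) (by norm_num)
    · refine Filter.Tendsto.div_atTop tendsto_const_nhds ?_
      exact (Filter.tendsto_pow_atTop (by omega)).comp tendsto_natCast_atTop_atTop
  have hev : ∀ᶠ o : ℕ in Filter.atTop, c' / 2 < (1 - 0.984 ^ o) * c' - C / (o : ℝ) ^ (B + 1) :=
    htend.eventually (lt_mem_nhds (by linarith))
  obtain ⟨o1, ho1⟩ := Filter.eventually_atTop.1 hev
  refine ⟨c' / 2, 2 * L2 + 82 * (o0 + o1 + 1), by linarith, fun R Q hR hQ hQ' => ?_⟩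
  have hR0 : 0 < R := (Real.exp_pos _).trans_le hR
  set L := Real.log R with hLdef
  have hRL : R = Real.exp L := (Real.exp_log hR0).symm
  have hL : 2 * L2 + 82 * (o0 + o1 + 1) ≤ L := by
    rw [hLdef, Real.le_log_iff_exp_le hR0]
    exact hR
  have ho1' : (0 : ℝ) ≤ o1 := Nat.cast_nonneg _
  set o : ℕ := ⌊L / 81⌋₊ with ho
  have hLpos : 0 ≤ L / 81 := by
    have : 0 ≤ L := by linarith
    positivity
  have hfl := Nat.floor_le hLpos
  have hfl2 := Nat.lt_floor_add_one (L / 81)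
  rw [← ho] at hfl hfl2
  have hoo : ((o0 + o1 : ℕ) : ℝ) ≤ o := by
    push_cast
    rw [div_lt_iff₀ (by norm_num)] at hfl2
    linarith
  have hoo' : o0 + o1 ≤ o := by exact_mod_cast hoo
  have h40 : 40 * (o : ℝ) ≤ L := by
    rw [le_div_iff₀ (by norm_num)] at hfl
    have : (0 : ℝ) ≤ o := Nat.cast_nonneg _
    linarith
  have hkey := hst o R Q c' (by omega) (by rw [hRL]; exact Real.exp_le_exp.2 h40) hQ hQ' hc'.le (by
    intro a' b' hab' _
    have h1 : R * ‖(W S a' b').2.1‖ = Real.exp (L + lw S a' b') := by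
      rw [Real.exp_add, exp_lw, ← hRL]
    rw [h1]
    refine hall _ ?_
    have := hlw a' b'
    rw [hab'] at this
    rw [le_div_iff₀ (by norm_num)] at hfl
    linarith)
  refine le_trans (ENNReal.ofReal_le_ofReal ?_) hkey
  refine mul_le_mul_of_nonneg_right (ho1 o (by omega)).le (by positivity)

theorem mainX (S : Sys2) (hS : LamForm S) : ∃ (N : ℕ) (y : E) (n : ℕ), 1 ≤ N ∧ 1 ≤ n ∧
    GX S N y ∧ 0 < y.1 ∧ y.1 < 1 ∧ (T S.toSys 1)^[n] y = y ∧
    ∃ c H1 : ℝ, 0 < c ∧ 1 ≤ H1 ∧ ∀ H : ℝ, H1 ≤ H → ∃ Y : Finset E,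
      (∀ z ∈ Y, GX S N z ∧ ‖z.2.1‖ ≤ H ∧ ‖z.2.2‖ ≤ H ∧ ∃ m : ℕ, (T S.toSys 1)^[m] z = y) ∧
      c * H ^ 4 ≤ (Y.card : ℝ) := by
  obtain ⟨N, y, n, hN, hn, hGX, hy0, hy1, hT, B, c, L1, hc, hL1, h⟩ := main_point S hS
  refine ⟨N, y, n, hN, hn, hGX, hy0, hy1, hT, ?_⟩
  obtain ⟨c', L2, hc', h'⟩ := main_scales S hN hn hy0 hy1 hT B c L1 hc hL1 h
  have hz := uP_zero S hy0 hy1
  obtain ⟨c2, H0, hc2, hH0, h2⟩ := boxH S hN (uP S y) hz.1 hz.2 (uP_inv S hn hT) c' L2 hc' h'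
  obtain ⟨c3, H1, hc3, hH1, h3⟩ := count_X S hN (uP S y) (uP_cases S y) c2 H0 hc2 hH0 h2
  refine ⟨c3, H1, hc3, hH1, fun H hH => ?_⟩
  obtain ⟨Y, hY, hcard⟩ := h3 H hH
  exact ⟨Y, fun z hz => ⟨(hY z hz).1, (hY z hz).2.1, (hY z hz).2.2.1, uP_one S (hY z hz).2.2.2⟩,
    hcard⟩

end Pool.Agent.H49.PP
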