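import Pool.Agent.H49.PP.TransferX

/-!
# PP: removing the offsets at the second place (copy of `AB/CmpShift.lean` for families)
-/

set_option autoImplicit false

namespace Pool.Agent.H49.PP

open Pool.Agent.H67.Tent Pool.Agent.H49.AB Finset Pool.Agent.H49.AB.CmpShiftAux

/-- One word: the error of the shift, summed over the lattice. -/
theorem word_shiftX : ∃ C : ℝ, 1 ≤ C ∧ ∀ {ι : Type} (pt : ι → E) (K : ℝ), 1 ≤ K → GB pt K →
    ∀ (r q : ℝ) (c z : ℂ), 0 < r → 0 < q → ‖c‖ ≤ r →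
      SS pt (fun y => ENNReal.ofReal |Real.exp (-(Real.pi *
          (‖y.2.1 - c‖ ^ 2 / r ^ 2 + ‖y.2.2 - z‖ ^ 2 / q ^ 2))) -
          Real.exp (-(Real.pi * (‖y.2.1‖ ^ 2 / r ^ 2))) *
            Real.exp (-(Real.pi * (‖y.2.2 - z‖ ^ 2 / q ^ 2)))|) ≤
      ENNReal.ofReal (K * C * (‖c‖ / r) * (1 + r ^ 2 * q ^ 2)) := by
  obtain ⟨C2, h2, H2⟩ := gauss_shift
  refine ⟨4 * C2, by linarith, fun {ι} pt C1 h1 H1 r q c z hr hq hc => ?_⟩
  have hcr : 0 ≤ ‖c‖ / r := by positivity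
  have key : SS pt (fun y => ENNReal.ofReal |Real.exp (-(Real.pi *
          (‖y.2.1 - c‖ ^ 2 / r ^ 2 + ‖y.2.2 - z‖ ^ 2 / q ^ 2))) -
          Real.exp (-(Real.pi * (‖y.2.1‖ ^ 2 / r ^ 2))) *
            Real.exp (-(Real.pi * (‖y.2.2 - z‖ ^ 2 / q ^ 2)))|) ≤
      SS pt (fun y => ENNReal.ofReal (C2 * (‖c‖ / r)) * ENNReal.ofReal (Real.exp (-(Real.pi *
        (‖y.2.1 - 0‖ ^ 2 / (2 * r) ^ 2 + ‖y.2.2 - z‖ ^ 2 / q ^ 2))))) := by
    refine SS_mono pt fun i => ?_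
    rw [← ENNReal.ofReal_mul (by positivity)]
    refine ENNReal.ofReal_le_ofReal ?_
    rw [sub_zero, mul_add, neg_add, Real.exp_add, ← sub_mul, abs_mul,
      abs_of_pos (Real.exp_pos _), mul_add, neg_add, Real.exp_add, ← mul_assoc]
    exact mul_le_mul_of_nonneg_right (H2 _ _ _ hr hc) (Real.exp_pos _).le
  refine key.trans ?_
  rw [SS_const_mul]
  refine (mul_le_mul_right (H1 (2 * r) q 0 z (by positivity) hq) _).trans ?_
  rw [← ENNReal.ofReal_mul (by positivity)]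
  refine ENNReal.ofReal_le_ofReal ?_
  have hX : 0 ≤ r ^ 2 * q ^ 2 := by positivity
  have hK : 0 ≤ C2 * (‖c‖ / r) * C1 := by positivity
  have : C2 * (‖c‖ / r) * (C1 * (1 + (2 * r) ^ 2 * q ^ 2)) =
      (C2 * (‖c‖ / r) * C1) * (1 + 4 * (r ^ 2 * q ^ 2)) := by ring
  rw [this]
  calc _ ≤ (C2 * (‖c‖ / r) * C1) * (4 * (1 + r ^ 2 * q ^ 2)) :=
        mul_le_mul_of_nonneg_left (by linarith) hK
    _ = _ := by ring

theorem shiftAX (S : Sys2) (A : ℕ) : ∃ (C : ℝ) (o0 : ℕ), 1 ≤ C ∧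
    ∀ {ι : Type} (pt : ι → E) (K : ℝ), 1 ≤ K → GB pt K → ∀ (a b a' b' o : ℕ) (R Q : ℝ), a + b = 16 * o → a' + b' = o → o0 ≤ o →
      Real.exp (40 * o) ≤ R → 1 ≤ Q →
      SS pt (fun y => ENNReal.ofReal |AA S 1 a b a' b' R Q y - AA0 S 1 a b a' b' R Q y|) ≤
      ENNReal.ofReal (K * C / (o : ℝ) ^ A * (R ^ 2 * Q ^ 2)) := by
  obtain ⟨C, hC, H0⟩ := word_shiftX
  have hf : (1 : ℝ) ≤ (A.factorial : ℝ) := by exact_mod_cast Nat.succ_le_of_lt A.factorial_pos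
  refine ⟨2 * C * A.factorial, 1, by nlinarith,
    fun {ι} pt K hK hG a b a' b' o R Q hab hab' ho hR hQ => ?_⟩
  have H := H0 pt K hK hG
  have hR0 : 0 < R := (Real.exp_pos _).trans_le hR
  have hQ0 : 0 < Q := by linarith
  have h2 := W2_pos S a b
  have h2' := W2_pos S a' b'
  have h3 := W3_pos S a b
  have h3' := W3_pos S a' b'
  have ho1 : 1 ≤ o := ho
  have hKC : 1 ≤ K * C := one_le_mul_of_one_le_of_one_le hK hC
  have ho1' : (0 : ℝ) < o := by exact_mod_cast ho1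
  set r : ℝ := R * (‖(W S a b).2.1‖ * ‖(W S a' b').2.1‖) with hr
  set q : ℝ := Q * (‖(W S a b).2.2‖ * ‖(W S a' b').2.2‖) with hq
  have hr0 : 0 < r := by positivity
  have hq0 : 0 < q := by positivity
  set F : List Bool → List Bool → E → ℝ := fun w v y =>
    Real.exp (-(Real.pi * (‖y.2.1 - (off S.toSys 1 (v ++ w)).2.1‖ ^ 2 / r ^ 2 +
      ‖y.2.2 - (off S.toSys 1 (v ++ w)).2.2‖ ^ 2 / q ^ 2))) -
    Real.exp (-(Real.pi * (‖y.2.1‖ ^ 2 / r ^ 2))) *
      Real.exp (-(Real.pi * (‖y.2.2 - (off S.toSys 1 (v ++ w)).2.2‖ ^ 2 / q ^ 2))) with hF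
  have e1 : (fun y => ENNReal.ofReal |AA S 1 a b a' b' R Q y - AA0 S 1 a b a' b' R Q y|) =
      fun y => ENNReal.ofReal |∑ w ∈ cls a b, ∑ v ∈ cls a' b', F w v y| := by
    funext y
    congr 2
    unfold AA AA0 g2
    rw [← hr, ← hq, Finset.mul_sum, ← Finset.sum_sub_distrib]
    refine Finset.sum_congr rfl fun w hw => ?_
    rw [Finset.mul_sum, ← Finset.sum_sub_distrib]
    refine Finset.sum_congr rfl fun v hv => ?_
    have hvw : v ++ w ∈ cls (a + a') (b + b') := by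
      rw [mem_cls, List.count_append, List.count_append]
      obtain ⟨g1, g2⟩ := mem_cls.1 hw
      obtain ⟨g3, g4⟩ := mem_cls.1 hv
      omega
    rw [gs_gw S 1 R Q hvw y, W_add]
    have t2 : ‖(W S a b * W S a' b').2.1‖ = ‖(W S a b).2.1‖ * ‖(W S a' b').2.1‖ := norm_mul _ _
    have t3 : ‖(W S a b * W S a' b').2.2‖ = ‖(W S a b).2.2‖ * ‖(W S a' b').2.2‖ := norm_mul _ _
    rw [t2, t3, ← hr, ← hq]
  rw [e1]
  have hone : ∀ w ∈ cls a b, ∀ v ∈ cls a' b', SS pt (fun y => ENNReal.ofReal |F w v y|) ≤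
      ENNReal.ofReal (K * C * Real.exp (-(o : ℝ)) * (1 + r ^ 2 * q ^ 2)) := by
    intro w hw v hv
    have hlen : (v ++ w).length ≤ 17 * o := by
      rw [List.length_append]
      obtain ⟨g1, g2⟩ := mem_cls.1 hw
      obtain ⟨g3, g4⟩ := mem_cls.1 hv
      have g5 := count_add w
      have g6 := count_add v
      omega
    have hrat := ratio S 1 a b a' b' o R hab hab' ho hR (v ++ w) hlen
    rw [← hr] at hrat
    have hle : ‖(off S.toSys 1 (v ++ w)).2.1‖ ≤ r := by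
      have : ‖(off S.toSys 1 (v ++ w)).2.1‖ / r ≤ 1 :=
        hrat.trans (Real.exp_le_one_iff.2 (by linarith))
      rwa [div_le_one hr0] at this
    refine (H r q _ (off S.toSys 1 (v ++ w)).2.2 hr0 hq0 hle).trans ?_
    refine ENNReal.ofReal_le_ofReal ?_
    exact mul_le_mul_of_nonneg_right (mul_le_mul_of_nonneg_left hrat (by linarith))
      (by positivity)
  refine (SS_abs_sum pt _ _).trans ?_
  refine (Finset.sum_le_sum fun w hw => (SS_abs_sum pt _ _).trans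
    (Finset.sum_le_sum fun v hv => hone w hw v hv)).trans ?_
  rw [Finset.sum_const, Finset.sum_const, nsmul_eq_mul, nsmul_eq_mul,
    ← ENNReal.ofReal_natCast, ← ENNReal.ofReal_natCast, ← ENNReal.ofReal_mul (by positivity),
    ← ENNReal.ofReal_mul (by positivity)]
  refine ENNReal.ofReal_le_ofReal ?_
  have hc := card_le S a b
  have hc' := card_le S a' b'
  have hww := w_mul_le S a b a' b' o R hab hab' hR
  have hp := W_prod S a b
  have hp' := W_prod S a' b'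
  have hcc : ((cls a b).card : ℝ) * ((cls a' b').card : ℝ) ≤
      |(W S a b).1| * |(W S a' b').1| :=
    mul_le_mul hc hc' (by positivity) (abs_nonneg _)
  have hQ2 : 1 ≤ Q ^ 2 := one_le_pow₀ hQ
  have e2 : |(W S a b).1| * |(W S a' b').1| * (r ^ 2 * q ^ 2) = R ^ 2 * Q ^ 2 := by
    rw [hr, hq]
    calc _ = R ^ 2 * Q ^ 2 * (|(W S a b).1| * ‖(W S a b).2.1‖ ^ 2 * ‖(W S a b).2.2‖ ^ 2) *
          (|(W S a' b').1| * ‖(W S a' b').2.1‖ ^ 2 * ‖(W S a' b').2.2‖ ^ 2) := by ring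
      _ = _ := by rw [hp, hp', mul_one, mul_one]
  have e3 : |(W S a b).1| * |(W S a' b').1| ≤ R ^ 2 * Q ^ 2 :=
    hww.trans (le_mul_of_one_le_right (by positivity) hQ2)
  have e4 := exp_le A o ho1
  have e5 : ((cls a b).card : ℝ) * ((cls a' b').card : ℝ) * (1 + r ^ 2 * q ^ 2) ≤
      2 * (R ^ 2 * Q ^ 2) := by
    calc _ ≤ |(W S a b).1| * |(W S a' b').1| * (1 + r ^ 2 * q ^ 2) :=
          mul_le_mul_of_nonneg_right hcc (by positivity)
      _ = |(W S a b).1| * |(W S a' b').1| + |(W S a b).1| * |(W S a' b').1| * (r ^ 2 * q ^ 2) := by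
          ring
      _ ≤ _ := by rw [e2]; linarith
  calc _ = (K * C * Real.exp (-(o : ℝ))) * (((cls a b).card : ℝ) * ((cls a' b').card : ℝ) *
        (1 + r ^ 2 * q ^ 2)) := by ring
    _ ≤ (K * C * (A.factorial / (o : ℝ) ^ A)) * (2 * (R ^ 2 * Q ^ 2)) :=
        mul_le_mul (mul_le_mul_of_nonneg_left e4 (by linarith)) e5 (by positivity) (by positivity)
    _ = _ := by ring

theorem shiftBX (S : Sys2) (A : ℕ) : ∃ (C : ℝ) (o0 : ℕ), 1 ≤ C ∧
    ∀ {ι : Type} (pt : ι → E) (K : ℝ), 1 ≤ K → GB pt K → ∀ (a b a' b' o : ℕ) (R Q : ℝ), a + b = 16 * o → a' + b' = o → o0 ≤ o →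
      Real.exp (40 * o) ≤ R → 1 ≤ Q →
      SS pt (fun y => ENNReal.ofReal |BB S 1 a b a' b' R Q y - BB0 S 1 a b a' b' R Q y|) ≤
      ENNReal.ofReal (K * C / (o : ℝ) ^ A * (R ^ 2 * Q ^ 2)) := by
  obtain ⟨C, hC, H0⟩ := word_shiftX
  have hf : (1 : ℝ) ≤ (A.factorial : ℝ) := by exact_mod_cast Nat.succ_le_of_lt A.factorial_pos
  refine ⟨2 * C * A.factorial, 1, by nlinarith,
    fun {ι} pt K hK hG a b a' b' o R Q hab hab' ho hR hQ => ?_⟩
  have H := H0 pt K hK hG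
  have hR0 : 0 < R := (Real.exp_pos _).trans_le hR
  have hQ0 : 0 < Q := by linarith
  have h2 := W2_pos S a b
  have h2' := W2_pos S a' b'
  have h3 := W3_pos S a b
  have h3' := W3_pos S a' b'
  have ho1 : 1 ≤ o := ho
  have hKC : 1 ≤ K * C := one_le_mul_of_one_le_of_one_le hK hC
  have ho1' : (0 : ℝ) < o := by exact_mod_cast ho1
  set r : ℝ := R * (‖(W S a b).2.1‖ * ‖(W S a' b').2.1‖) with hr
  set q : ℝ := ‖(W S a b).2.2‖ with hq
  have hr0 : 0 < r := by positivity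
  have hq0 : 0 < q := h3
  set κ : ℝ := (cls a' b').card * (Q * ‖(W S a' b').2.2‖) ^ 2 with hκ
  have hκ0 : 0 ≤ κ := by positivity
  set F : List Bool → E → ℝ := fun w y =>
    Real.exp (-(Real.pi * (‖y.2.1 - (off S.toSys 1 w).2.1‖ ^ 2 / r ^ 2 +
      ‖y.2.2 - (off S.toSys 1 w).2.2‖ ^ 2 / q ^ 2))) -
    Real.exp (-(Real.pi * (‖y.2.1‖ ^ 2 / r ^ 2))) *
      Real.exp (-(Real.pi * (‖y.2.2 - (off S.toSys 1 w).2.2‖ ^ 2 / q ^ 2))) with hF
  have e1 : (fun y => ENNReal.ofReal |BB S 1 a b a' b' R Q y - BB0 S 1 a b a' b' R Q y|) =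
      fun y => ENNReal.ofReal κ * ENNReal.ofReal |∑ w ∈ cls a b, F w y| := by
    funext y
    rw [← ENNReal.ofReal_mul hκ0]
    congr 1
    have : BB S 1 a b a' b' R Q y - BB0 S 1 a b a' b' R Q y = κ * ∑ w ∈ cls a b, F w y := by
      unfold BB BB0 g2
      rw [← hr, ← hq, ← hκ, ← mul_sub, Finset.mul_sum, ← Finset.sum_sub_distrib]
      congr 1
      refine Finset.sum_congr rfl fun w hw => ?_
      rw [gs_gw S 1 _ 1 hw y]
      have t2 : R * ‖(W S a' b').2.1‖ * ‖(W S a b).2.1‖ = r := by rw [hr]; ring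
      rw [t2, one_mul, ← hq]
    rw [this, abs_mul, abs_of_nonneg hκ0]
  rw [e1, SS_const_mul]
  have hone : ∀ w ∈ cls a b, SS pt (fun y => ENNReal.ofReal |F w y|) ≤
      ENNReal.ofReal (K * C * Real.exp (-(o : ℝ)) * (1 + r ^ 2 * q ^ 2)) := by
    intro w hw
    have hlen : w.length ≤ 17 * o := by
      obtain ⟨g1, g2⟩ := mem_cls.1 hw
      have g5 := count_add w
      omega
    have hrat := ratio S 1 a b a' b' o R hab hab' ho hR w hlen
    rw [← hr] at hrat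
    have hle : ‖(off S.toSys 1 w).2.1‖ ≤ r := by
      have : ‖(off S.toSys 1 w).2.1‖ / r ≤ 1 :=
        hrat.trans (Real.exp_le_one_iff.2 (by linarith))
      rwa [div_le_one hr0] at this
    refine (H r q _ (off S.toSys 1 w).2.2 hr0 hq0 hle).trans ?_
    refine ENNReal.ofReal_le_ofReal ?_
    exact mul_le_mul_of_nonneg_right (mul_le_mul_of_nonneg_left hrat (by linarith))
      (by positivity)
  refine (mul_le_mul_right ((SS_abs_sum pt _ _).trans
    (Finset.sum_le_sum fun w hw => hone w hw)) _).trans ?_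
  rw [Finset.sum_const, nsmul_eq_mul,
    ← ENNReal.ofReal_natCast, ← ENNReal.ofReal_mul (by positivity),
    ← ENNReal.ofReal_mul (by positivity)]
  refine ENNReal.ofReal_le_ofReal ?_
  have hc := card_le S a b
  have hc' := card_le S a' b'
  have hww := w_mul_le S a b a' b' o R hab hab' hR
  have hp := W_prod S a b
  have hp' := W_prod S a' b'
  have hcc : ((cls a b).card : ℝ) * ((cls a' b').card : ℝ) ≤
      |(W S a b).1| * |(W S a' b').1| :=
    mul_le_mul hc hc' (by positivity) (abs_nonneg _)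
  have hw3 : ‖(W S a' b').2.2‖ ^ 2 ≤ 1 := pow_le_one₀ (norm_nonneg _) (W3_le S a' b')
  have e2 : |(W S a b).1| * |(W S a' b').1| * (Q ^ 2 * ‖(W S a' b').2.2‖ ^ 2 *
      (r ^ 2 * q ^ 2)) = R ^ 2 * Q ^ 2 := by
    rw [hr, hq]
    calc _ = R ^ 2 * Q ^ 2 * (|(W S a b).1| * ‖(W S a b).2.1‖ ^ 2 * ‖(W S a b).2.2‖ ^ 2) *
          (|(W S a' b').1| * ‖(W S a' b').2.1‖ ^ 2 * ‖(W S a' b').2.2‖ ^ 2) := by ring
      _ = _ := by rw [hp, hp', mul_one, mul_one]
  have e3 : |(W S a b).1| * |(W S a' b').1| * (Q ^ 2 * ‖(W S a' b').2.2‖ ^ 2) ≤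
      R ^ 2 * Q ^ 2 :=
    mul_le_mul hww (mul_le_of_le_one_right (by positivity) hw3) (by positivity) (by positivity)
  have e4 := exp_le A o ho1
  have e5 : κ * ((cls a b).card : ℝ) * (1 + r ^ 2 * q ^ 2) ≤ 2 * (R ^ 2 * Q ^ 2) := by
    calc κ * ((cls a b).card : ℝ) * (1 + r ^ 2 * q ^ 2) =
          (((cls a b).card : ℝ) * ((cls a' b').card : ℝ)) *
            (Q ^ 2 * ‖(W S a' b').2.2‖ ^ 2 * (1 + r ^ 2 * q ^ 2)) := by rw [hκ]; ring
      _ ≤ |(W S a b).1| * |(W S a' b').1| *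
            (Q ^ 2 * ‖(W S a' b').2.2‖ ^ 2 * (1 + r ^ 2 * q ^ 2)) :=
          mul_le_mul_of_nonneg_right hcc (by positivity)
      _ = |(W S a b).1| * |(W S a' b').1| * (Q ^ 2 * ‖(W S a' b').2.2‖ ^ 2) +
          |(W S a b).1| * |(W S a' b').1| * (Q ^ 2 * ‖(W S a' b').2.2‖ ^ 2 *
            (r ^ 2 * q ^ 2)) := by ring
      _ ≤ _ := by rw [e2]; linarith
  calc _ = (K * C * Real.exp (-(o : ℝ))) * (κ * ((cls a b).card : ℝ) *
        (1 + r ^ 2 * q ^ 2)) := by ring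
    _ ≤ (K * C * (A.factorial / (o : ℝ) ^ A)) * (2 * (R ^ 2 * Q ^ 2)) :=
        mul_le_mul (mul_le_mul_of_nonneg_left e4 (by linarith)) e5 (by positivity) (by positivity)
    _ = _ := by ring

end Pool.Agent.H49.PP
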