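import Pool.Agent.H49.PP.CmpX
import Pool.Agent.H49.PP.Defs
import Pool.Agent.H49.AB.Step

/-!
# JOB PP-01. The lower step for a family of points

Model: `AB/Step.lean` (the file of `pair_triv`, `step_small`, `step_sum_bin`, `step_split`, `step`, all can be used or copied).

`pair_trivBX`: `BB = card' (Q ‖W'‖_3)² ∑_{w ∈ cls a b} gs (R ‖W'‖_2) 1 (gw w y)`. `word_sumX` for each `w` with `R' = R ‖W'‖_2`, `Q = 1`: at most
`K (1 + R'²/|W_{ab}|_1) ≤ 2 K R'²/|W_{ab}|_1`, because `R' ≥ exp(39 o)` (`W2_ge` in `AB/CmpShift.lean`, `‖W'‖_2 ≥ exp(-o)`) and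
`|W_{ab}|_1 ≤ exp(2 · 16 o)` (`W1_le`). So the sum is `≤ card card' (Q‖W'‖_3)² 2 K R² ‖W'‖_2² / |W_{ab}|_1 = 2 K bin(a,b) bin(a',b') R² Q²`
(`card_cls`, `W1`, `W_prod`: `‖W'‖_2² ‖W'‖_3² = 1/|W'|_1`).

`stepL`: write the left side as `∑_{x' ∈ AD o} ∑_{x ∈ AD (16 o)} SS (u * ofReal BB)` (`sum_words_eq`, as in `pair_BB`), the first term on the right as
`∑_{x'} ∑_x SS (u * ofReal AA)` (`words_append o (16 o)`, `sum_words_eq`, as in `step_split`). For `x` with `exp(6.24 o) ≤ |W_x|_1`: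
`u BB ≤ u AA + |AA - BB|` and `cmp_latX` with exponent `A + 2` (at most `(o+1)(16 o+1) ≤ 34 o²` pairs). For the other `x`:
`SS (u BB) ≤ SS BB ≤ 2 K bin(x) bin(x') R² Q²` (`pair_trivBX`); the sum over these `x` of `bin(x)` is at most `exp(-o/5)` (`atyp1`), the sum over `x'` of `bin` is `1`, and
`exp(-o/5) ≤ C/o^A` (`step_small`). (No condition on `x'` is needed.)
-/

set_option autoImplicit false

namespace Pool.Agent.H49.PP

open Pool.Agent.H67.Tent Pool.Agent.H49.AB Finset MeasureTheory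

theorem stepL_BB (S : Sys2) (a b a' b' : ℕ) (R Q : ℝ) (y : E) :
    ENNReal.ofReal (BB S 1 a b a' b' R Q y) =
      ENNReal.ofReal ((cls a' b').card * (Q * ‖(W S a' b').2.2‖) ^ 2) *
        ∑ w ∈ cls a b, ENNReal.ofReal (gs (R * ‖(W S a' b').2.1‖) 1 (gw S 1 w y)) := by
  have hk : 0 ≤ ((cls a' b').card : ℝ) * (Q * ‖(W S a' b').2.2‖) ^ 2 := by positivity
  unfold BB
  rw [ENNReal.ofReal_mul hk, ENNReal.ofReal_sum_of_nonneg]
  intro w _
  exact (gs_pos _ 1 _).le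

theorem pair_trivBX (S : Sys2) {ι : Type} (pt : ι → E) (K : ℝ) (hK : 1 ≤ K) (hG : GB pt K)
    (a b a' b' o : ℕ) (R Q : ℝ) (h : a + b = 16 * o) (h' : a' + b' = o)
    (hR : Real.exp (40 * o) ≤ R) (hQ : 1 ≤ Q) :
    SS pt (fun y => ENNReal.ofReal (BB S 1 a b a' b' R Q y)) ≤
      ENNReal.ofReal (2 * K * (bn S a b * bn S a' b' * (R ^ 2 * Q ^ 2))) := by
  have hRpos : 0 < R := lt_of_lt_of_le (Real.exp_pos _) hR
  have hQpos : 0 < Q := lt_of_lt_of_le one_pos hQ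
  have h2' := W2_pos S a' b'
  have h3' := W3_pos S a' b'
  have h1 := W1_pos S a b
  have h1' := W1_pos S a' b'
  set R' : ℝ := R * ‖(W S a' b').2.1‖ with hR'
  have hR'pos : 0 < R' := by positivity
  set κ : ℝ := ((cls a' b').card : ℝ) * (Q * ‖(W S a' b').2.2‖) ^ 2 with hκ
  have hκ0 : 0 ≤ κ := by positivity
  have e1 : SS pt (fun y => ENNReal.ofReal (BB S 1 a b a' b' R Q y)) =
      ENNReal.ofReal κ * ∑ w ∈ cls a b,
        SS pt (fun y => ENNReal.ofReal (gs R' 1 (gw S 1 w y))) := by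
    rw [← SS_sum, ← SS_const_mul]
    refine SS_congr pt fun i => ?_
    exact stepL_BB S a b a' b' R Q (pt i)
  rw [e1]
  have hR'ge : Real.exp (39 * o) ≤ R' := by
    have g1 := CmpShiftAux.W2_ge S a' b'
    rw [h'] at g1
    calc Real.exp (39 * o) = Real.exp (40 * o) * Real.exp (-((o : ℕ) : ℝ)) := by
          rw [← Real.exp_add]
          congr 1
          ring
      _ ≤ R * ‖(W S a' b').2.1‖ := mul_le_mul hR g1 (Real.exp_pos _).le hRpos.le
  have hW : |(W S a b).1| ≤ R' ^ 2 := by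
    have g1 := CmpShiftAux.W1_le S a b
    rw [h] at g1
    have g2 : Real.exp (2 * ((16 * o : ℕ) : ℝ)) ≤ Real.exp (39 * o) := by
      rw [Real.exp_le_exp]
      push_cast
      have : (0 : ℝ) ≤ o := Nat.cast_nonneg o
      linarith
    have g3 : (1 : ℝ) ≤ R' := by
      refine le_trans ?_ hR'ge
      rw [Real.one_le_exp_iff]
      positivity
    have g4 : R' ≤ R' ^ 2 := by nlinarith
    exact g1.trans (g2.trans (hR'ge.trans g4))
  have hb : ∀ w ∈ cls a b, SS pt (fun y => ENNReal.ofReal (gs R' 1 (gw S 1 w y))) ≤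
      ENNReal.ofReal (2 * K * (R' ^ 2 / |(W S a b).1|)) := by
    intro w hw
    refine (word_sumX pt S hK hG a b R' 1 hR'pos one_pos w hw).trans
      (ENNReal.ofReal_le_ofReal ?_)
    have : (1 : ℝ) ≤ R' ^ 2 / |(W S a b).1| := by
      rw [le_div_iff₀ h1, one_mul]
      exact hW
    rw [one_pow, mul_one]
    nlinarith
  refine (mul_le_mul_right (Finset.sum_le_sum hb) _).trans ?_
  rw [Finset.sum_const, nsmul_eq_mul, ← ENNReal.ofReal_natCast,
    ← ENNReal.ofReal_mul (Nat.cast_nonneg _), ← ENNReal.ofReal_mul hκ0]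
  refine ENNReal.ofReal_le_ofReal (le_of_eq ?_)
  have hp := W_prod S a' b'
  have h2 : ‖(W S a' b').2.1‖ ^ 2 * ‖(W S a' b').2.2‖ ^ 2 = 1 / |(W S a' b').1| := by
    rw [eq_div_iff h1'.ne', ← hp]
    ring
  unfold bn
  rw [← step_card_div S a b, ← step_card_div S a' b', hκ, hR']
  calc _ = 2 * K * ((cls a b).card / |(W S a b).1|) * ((cls a' b').card * (R ^ 2 * Q ^ 2)) *
        (‖(W S a' b').2.1‖ ^ 2 * ‖(W S a' b').2.2‖ ^ 2) := by ring
    _ = _ := by rw [h2]; ring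

theorem stepL_expandA (S : Sys2) {ι : Type} (pt : ι → E) (R Q : ℝ) (u : E → ENNReal) (o : ℕ) :
    SS pt (fun y => u y * ∑ w ∈ words (17 * o), ENNReal.ofReal (gs R Q (gw S 1 w y))) =
      ∑ x' ∈ AD o, ∑ x ∈ AD (16 * o),
        SS pt (fun y => u y * ENNReal.ofReal (AA S 1 x.1 x.2 x'.1 x'.2 R Q y)) := by
  have e0 : 17 * o = o + 16 * o := by ring
  rw [← Finset.sum_congr rfl (fun x' (_ : x' ∈ AD o) => SS_sum pt (AD (16 * o))
    (fun x y => u y * ENNReal.ofReal (AA S 1 x.1 x.2 x'.1 x'.2 R Q y))), ← SS_sum]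
  refine SS_congr pt fun i => ?_
  rw [e0, words_append, sum_words_eq, Finset.mul_sum]
  refine Finset.sum_congr rfl fun x' _ => ?_
  rw [← Finset.mul_sum]
  congr 1
  rw [Finset.sum_congr rfl (fun v (_ : v ∈ cls x'.1 x'.2) => sum_words_eq (16 * o)
    (fun w => ENNReal.ofReal (gs R Q (gw S 1 (v ++ w) (pt i))))), Finset.sum_comm]
  refine Finset.sum_congr rfl fun x _ => ?_
  unfold AA
  rw [ENNReal.ofReal_sum_of_nonneg (fun w _ => Finset.sum_nonneg fun v _ => (gs_pos R Q _).le),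
    Finset.sum_comm]
  refine Finset.sum_congr rfl fun w _ => ?_
  rw [ENNReal.ofReal_sum_of_nonneg (fun v _ => (gs_pos R Q _).le)]

theorem stepL_expandB (S : Sys2) {ι : Type} (pt : ι → E) (R Q : ℝ)
    (u : E → ENNReal) (o : ℕ) :
    ∑ x ∈ AD o, ENNReal.ofReal ((cls x.1 x.2).card * (Q * ‖(W S x.1 x.2).2.2‖) ^ 2) *
          SS pt (fun y => u y * ∑ w ∈ words (16 * o),
            ENNReal.ofReal (gs (R * ‖(W S x.1 x.2).2.1‖) 1 (gw S 1 w y))) =
      ∑ x' ∈ AD o, ∑ x ∈ AD (16 * o),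
        SS pt (fun y => u y * ENNReal.ofReal (BB S 1 x.1 x.2 x'.1 x'.2 R Q y)) := by
  refine Finset.sum_congr rfl fun x' _ => ?_
  rw [← SS_const_mul, ← SS_sum]
  refine SS_congr pt fun i => ?_
  rw [sum_words_eq, Finset.mul_sum, Finset.mul_sum]
  refine Finset.sum_congr rfl fun x _ => ?_
  rw [stepL_BB S x.1 x.2 x'.1 x'.2 R Q]
  ring

theorem stepL (S : Sys2) (A : ℕ) : ∃ (C : ℝ) (o0 : ℕ), 1 ≤ C ∧ 1 ≤ o0 ∧
    ∀ {ι : Type} [Countable ι] (pt : ι → E) (K : ℝ), 1 ≤ K → GB pt K →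
    ∀ (o : ℕ) (R Q : ℝ) (u : E → ENNReal), o0 ≤ o → Real.exp (40 * o) ≤ R → 1 ≤ Q →
      Q ≤ (7 / 6) ^ o → (∀ y, u y ≤ 1) →
      ∑ x ∈ AD o, ENNReal.ofReal ((cls x.1 x.2).card * (Q * ‖(W S x.1 x.2).2.2‖) ^ 2) *
          SS pt (fun y => u y * ∑ w ∈ words (16 * o),
            ENNReal.ofReal (gs (R * ‖(W S x.1 x.2).2.1‖) 1 (gw S 1 w y))) ≤
        SS pt (fun y => u y * ∑ w ∈ words (17 * o), ENNReal.ofReal (gs R Q (gw S 1 w y))) +
        ENNReal.ofReal (K * C / (o : ℝ) ^ A * (R ^ 2 * Q ^ 2)) := by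
  classical
  obtain ⟨C2, o2, hC2, H2⟩ := cmp_latX S (A + 2)
  obtain ⟨C3, hC3, H3⟩ := step_decay A
  refine ⟨34 * C2 + 2 * C3, max 1 o2, by linarith, le_max_left _ _,
    fun {ι} _ pt K hK hG o R Q u ho hR hQ hQ' hu => ?_⟩
  have ho1 : 1 ≤ o := le_trans (le_max_left _ _) ho
  have ho2 : o2 ≤ o := le_trans (le_max_right _ _) ho
  have hRpos : 0 < R := lt_of_lt_of_le (Real.exp_pos _) hR
  have hQpos : 0 < Q := lt_of_lt_of_le one_pos hQ
  have hKpos : 0 < K := lt_of_lt_of_le one_pos hK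
  set X : ℝ := R ^ 2 * Q ^ 2 with hX
  have hX0 : 0 ≤ X := by positivity
  rw [stepL_expandB S pt R Q u o, stepL_expandA S pt R Q u o]
  let nw : ℕ × ℕ → ℝ := fun x =>
    if Real.exp (6.24 * o) ≤ |(W S x.1 x.2).1| then 0 else bn S x.1 x.2
  have hbn : ∀ x : ℕ × ℕ, 0 ≤ bn S x.1 x.2 := fun x => bn_nonneg S _ _
  have hnw : ∀ x, 0 ≤ nw x := by
    intro x
    simp only [nw]
    split_ifs
    · exact le_rfl
    · exact hbn x
  have key : ∀ x' ∈ AD o, ∀ x ∈ AD (16 * o),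
      SS pt (fun y => u y * ENNReal.ofReal (BB S 1 x.1 x.2 x'.1 x'.2 R Q y)) ≤
      SS pt (fun y => u y * ENNReal.ofReal (AA S 1 x.1 x.2 x'.1 x'.2 R Q y)) +
        ENNReal.ofReal (K * C2 / (o : ℝ) ^ (A + 2) * X) +
        ENNReal.ofReal (2 * K * (nw x * bn S x'.1 x'.2 * X)) := by
    intro x' hx' x hx
    rw [mem_AD] at hx hx'
    by_cases hw : Real.exp (6.24 * o) ≤ |(W S x.1 x.2).1|
    · refine le_trans ?_ le_self_add
      refine le_trans ?_ (add_le_add le_rfl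
        (H2 pt K hK hG x.1 x.2 x'.1 x'.2 o R Q hx hx' ho2 hw hR hQ hQ'))
      rw [← SS_add]
      refine SS_mono pt fun i => ?_
      set y := pt i
      have e2 : ENNReal.ofReal (BB S 1 x.1 x.2 x'.1 x'.2 R Q y) ≤
          ENNReal.ofReal (AA S 1 x.1 x.2 x'.1 x'.2 R Q y) +
          ENNReal.ofReal |AA S 1 x.1 x.2 x'.1 x'.2 R Q y - BB S 1 x.1 x.2 x'.1 x'.2 R Q y| := by
        refine le_trans (ENNReal.ofReal_le_ofReal ?_) ENNReal.ofReal_add_le
        have := neg_abs_le (AA S 1 x.1 x.2 x'.1 x'.2 R Q y - BB S 1 x.1 x.2 x'.1 x'.2 R Q y)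
        linarith
      calc u y * ENNReal.ofReal (BB S 1 x.1 x.2 x'.1 x'.2 R Q y)
          ≤ u y * (ENNReal.ofReal (AA S 1 x.1 x.2 x'.1 x'.2 R Q y) +
          ENNReal.ofReal |AA S 1 x.1 x.2 x'.1 x'.2 R Q y - BB S 1 x.1 x.2 x'.1 x'.2 R Q y|) :=
            mul_le_mul_right e2 _
        _ = u y * ENNReal.ofReal (AA S 1 x.1 x.2 x'.1 x'.2 R Q y) + u y *
          ENNReal.ofReal |AA S 1 x.1 x.2 x'.1 x'.2 R Q y - BB S 1 x.1 x.2 x'.1 x'.2 R Q y| :=
            mul_add _ _ _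
        _ ≤ u y * ENNReal.ofReal (AA S 1 x.1 x.2 x'.1 x'.2 R Q y) + 1 *
          ENNReal.ofReal |AA S 1 x.1 x.2 x'.1 x'.2 R Q y - BB S 1 x.1 x.2 x'.1 x'.2 R Q y| :=
            add_le_add le_rfl (mul_le_mul_left (hu y) _)
        _ = _ := by rw [one_mul]
    · refine le_trans ?_ le_add_self
      refine le_trans (SS_mono pt (g := fun y =>
        ENNReal.ofReal (BB S 1 x.1 x.2 x'.1 x'.2 R Q y)) fun i => ?_) ?_
      · calc _ ≤ 1 * ENNReal.ofReal (BB S 1 x.1 x.2 x'.1 x'.2 R Q (pt i)) :=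
              mul_le_mul_left (hu (pt i)) _
          _ = _ := one_mul _
      refine (pair_trivBX S pt K hK hG x.1 x.2 x'.1 x'.2 o R Q hx hx' hR hQ).trans
        (ENNReal.ofReal_le_ofReal (le_of_eq ?_))
      have e3 : nw x = bn S x.1 x.2 := if_neg hw
      rw [e3]
  have s2 : ∑ x' ∈ AD o, ∑ x ∈ AD (16 * o), ENNReal.ofReal (K * C2 / (o : ℝ) ^ (A + 2) * X) ≤
      ENNReal.ofReal (K * (34 * C2) / (o : ℝ) ^ A * X) := by
    rw [Finset.sum_const, Finset.sum_const, step_card_AD, step_card_AD, smul_smul, nsmul_eq_mul,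
      ← ENNReal.ofReal_natCast, ← ENNReal.ofReal_mul (Nat.cast_nonneg _)]
    refine ENNReal.ofReal_le_ofReal ?_
    have ho' : (1 : ℝ) ≤ o := by exact_mod_cast ho1
    have t1 : (((o + 1) * (16 * o + 1) : ℕ) : ℝ) ≤ 34 * (o : ℝ) ^ 2 := by
      push_cast
      nlinarith
    have t2 : 0 ≤ K * C2 / (o : ℝ) ^ (A + 2) * X := by positivity
    refine (mul_le_mul_of_nonneg_right t1 t2).trans (le_of_eq ?_)
    rw [pow_add]
    field_simp
  have s3 : ∑ x' ∈ AD o, ∑ x ∈ AD (16 * o),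
      ENNReal.ofReal (2 * K * (nw x * bn S x'.1 x'.2 * X)) ≤
      ENNReal.ofReal (K * (2 * C3) / (o : ℝ) ^ A * X) := by
    have t0 : ∀ x' x : ℕ × ℕ, 0 ≤ 2 * K * (nw x * bn S x'.1 x'.2 * X) := by
      intro x' x
      have := hnw x
      have := hbn x'
      positivity
    rw [Finset.sum_congr rfl (fun x' (_ : x' ∈ AD o) =>
      (ENNReal.ofReal_sum_of_nonneg (fun x (_ : x ∈ AD (16 * o)) => t0 x' x)).symm),
      ← ENNReal.ofReal_sum_of_nonneg (fun x' _ => Finset.sum_nonneg fun x _ => t0 x' x)]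
    refine ENNReal.ofReal_le_ofReal ?_
    have t1 : ∑ x' ∈ AD o, ∑ x ∈ AD (16 * o), 2 * K * (nw x * bn S x'.1 x'.2 * X) =
        2 * K * (((∑ x ∈ AD (16 * o), nw x) * (∑ x' ∈ AD o, bn S x'.1 x'.2)) * X) := by
      rw [Finset.sum_mul_sum, Finset.sum_comm, Finset.sum_mul, Finset.mul_sum]
      refine Finset.sum_congr rfl fun x _ => ?_
      rw [Finset.sum_mul, Finset.mul_sum]
    have t5 : ∑ x' ∈ AD o, bn S x'.1 x'.2 = 1 := step_sum_bin S o
    rw [t1, t5, mul_one]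
    have t2 : ∑ x ∈ AD (16 * o), nw x ≤ Real.exp (-(o : ℝ) / 5) := by
      refine le_trans (le_of_eq ?_) (atyp1 S o)
      refine Finset.sum_congr rfl fun x _ => ?_
      simp only [nw, bn]
    have t4 := H3 o ho1
    have t6 : (0 : ℝ) ≤ 0.984 ^ o := by positivity
    calc _ ≤ 2 * K * (C3 / (o : ℝ) ^ A * X) := by
          refine mul_le_mul_of_nonneg_left ?_ (by linarith)
          refine mul_le_mul_of_nonneg_right ?_ hX0
          linarith
      _ = _ := by ring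
  refine (Finset.sum_le_sum fun x' hx' => Finset.sum_le_sum fun x hx => key x' hx' x hx).trans ?_
  simp only [Finset.sum_add_distrib]
  rw [add_assoc]
  refine add_le_add le_rfl ((add_le_add s2 s3).trans ?_)
  have ho' : (0 : ℝ) < o := by exact_mod_cast ho1
  rw [← ENNReal.ofReal_add (by positivity) (by positivity)]
  refine ENNReal.ofReal_le_ofReal (le_of_eq ?_)
  ring

end Pool.Agent.H49.PP
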