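import Pool.Agent.H49.PP.Defs
import Pool.Agent.H49.AB.Reidx

/-!
# PP-14, helper lemmas for `XN.lean`: passage from points with denominator `N` to scaled points
-/

set_option autoImplicit false

namespace Pool.Agent.H49.PP

open Pool.Agent.H67.Tent Pool.Agent.H49.AB Finset

theorem XNa_fst (N : ℕ) (z : E) : ((N : E) * z).1 = (N : ℝ) * z.1 := rfl

theorem XNa_inv {N : ℕ} (hN : 1 ≤ N) (z : E) : (N : E)⁻¹ * ((N : E) * z) = z := by
  have h1 : (N : ℝ) ≠ 0 := Nat.cast_ne_zero.2 (by omega)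
  have h2 : (N : ℂ) ≠ 0 := Nat.cast_ne_zero.2 (by omega)
  refine Prod.ext ?_ (Prod.ext ?_ ?_)
  · exact inv_mul_cancel_left₀ h1 _
  · exact inv_mul_cancel_left₀ h2 _
  · exact inv_mul_cancel_left₀ h2 _

theorem XNa_inv' {N : ℕ} (hN : 1 ≤ N) (z : E) : (N : E) * ((N : E)⁻¹ * z) = z := by
  rw [mul_left_comm, XNa_inv hN]

theorem XNa_G (S : Sys2) {N : ℕ} (hN : 1 ≤ N) (z : E) : G S.toSys N ((N : E) * z) ↔ GX S N z := by
  have hp : (0 : ℝ) < N := by exact_mod_cast hN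
  unfold G GX
  rw [XNa_fst]
  constructor
  · rintro ⟨h1, h2, h3⟩
    refine ⟨h1, ?_, ?_⟩
    · by_contra hc
      push Not at hc
      nlinarith
    · by_contra hc
      push Not at hc
      nlinarith
  · rintro ⟨h1, h2, h3⟩
    exact ⟨h1, mul_nonneg hp.le h2, by nlinarith⟩

theorem XNa_gb (S : Sys2) (N : ℕ) (c : Bool) (y : E) :
    gb S N c ((N : E) * y) = (N : E) * gb S 1 c y := by
  cases c
  · rw [Reidx_false, Reidx_false]
    ring
  · rw [Reidx_true, Reidx_true, Nat.cast_one]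
    ring

theorem XNa_gw (S : Sys2) (N : ℕ) (w : List Bool) (y : E) :
    gw S N w ((N : E) * y) = (N : E) * gw S 1 w y := by
  induction w with
  | nil => rfl
  | cons c w ih =>
    have e1 : gw S N (c :: w) ((N : E) * y) = gb S N c (gw S N w ((N : E) * y)) := rfl
    have e2 : gw S 1 (c :: w) y = gb S 1 c (gw S 1 w y) := rfl
    rw [e1, e2, ih, XNa_gb]

theorem XNa_T (S : Sys2) {N : ℕ} (hN : 1 ≤ N) (z : E) :
    T S.toSys N ((N : E) * z) = (N : E) * T S.toSys 1 z := by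
  have hp : (0 : ℝ) < N := by exact_mod_cast hN
  have h : ((N : E) * z).1 ≤ (N : ℝ) / S.a.1 ↔ z.1 ≤ ((1 : ℕ) : ℝ) / S.a.1 := by
    rw [XNa_fst, Nat.cast_one, le_div_iff₀ (ap S), le_div_iff₀ (ap S), mul_assoc]
    constructor
    · intro h
      by_contra hc
      push Not at hc
      nlinarith
    · intro h
      nlinarith
  unfold T
  by_cases hz : z.1 ≤ ((1 : ℕ) : ℝ) / S.a.1
  · rw [if_pos hz, if_pos (h.2 hz)]
    ring
  · rw [if_neg hz, if_neg (fun h' => hz (h.1 h')), Nat.cast_one]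
    ring

theorem XNa_iter (S : Sys2) {N : ℕ} (hN : 1 ≤ N) (n : ℕ) (z : E) :
    (T S.toSys N)^[n] ((N : E) * z) = (N : E) * (T S.toSys 1)^[n] z := by
  induction n generalizing z with
  | zero => rfl
  | succ n ih => rw [Function.iterate_succ_apply, Function.iterate_succ_apply, XNa_T S hN, ih]

/-- Sums over the points with denominator `N` and sums over the scaled points. -/
theorem XNa_SS (S : Sys2) {N : ℕ} (hN : 1 ≤ N) (f : E → ENNReal) :
    SS (ptX S N) f = SG S N (fun w => f ((N : E)⁻¹ * w)) := by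
  let e : {z : E // GX S N z} ≃ {z : E // G S.toSys N z} :=
    { toFun := fun z => ⟨(N : E) * z.1, (XNa_G S hN z.1).2 z.2⟩
      invFun := fun w => ⟨(N : E)⁻¹ * w.1, (XNa_G S hN _).1 (by rw [XNa_inv' hN]; exact w.2)⟩
      left_inv := fun z => Subtype.ext (XNa_inv hN z.1)
      right_inv := fun w => Subtype.ext (XNa_inv' hN w.1) }
  have h := e.tsum_eq (fun w : {z : E // G S.toSys N z} => f ((N : E)⁻¹ * w.1))
  unfold SG SS
  rw [← h]
  refine tsum_congr fun z => ?_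
  show f z.1 = f ((N : E)⁻¹ * ((N : E) * z.1))
  rw [XNa_inv hN]

theorem XNa_re (S : Sys2) {N : ℕ} (hN : 1 ≤ N) (u φ : E → ENNReal) (h0 : u 0 = 0) (h1 : u 1 = 0)
    (n : ℕ) : SS (ptX S N) (fun z => u ((T S.toSys 1)^[n] z) * φ z) =
      SS (ptX S N) (fun y => u y * ∑ w ∈ words n, φ (gw S 1 w y)) := by
  have hu0 : u ((N : E)⁻¹ * 0) = 0 := by rw [mul_zero, h0]
  have huN : u ((N : E)⁻¹ * (N : E)) = 0 := by
    have := XNa_inv hN 1
    rw [mul_one] at this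
    rw [this, h1]
  have hf := fwd S N (fun w => u ((N : E)⁻¹ * w)) (fun w => φ ((N : E)⁻¹ * w)) n
  have hr := rev S N (fun w => u ((N : E)⁻¹ * w)) (fun w => φ ((N : E)⁻¹ * w)) hu0 huN n
  have e1 : SG S N (fun z => u ((N : E)⁻¹ * (T S.toSys N)^[n] z) * φ ((N : E)⁻¹ * z)) =
      SG S N (fun w => u ((T S.toSys 1)^[n] ((N : E)⁻¹ * w)) * φ ((N : E)⁻¹ * w)) := by
    refine Reidx_congr S N fun z _ => ?_
    have h2 := XNa_iter S hN n ((N : E)⁻¹ * z)
    rw [XNa_inv' hN] at h2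
    rw [h2, XNa_inv hN]
  have e2 : SG S N (fun y => u ((N : E)⁻¹ * y) *
      ∑ w ∈ words n, φ ((N : E)⁻¹ * gw S N w y)) =
      SG S N (fun w => u ((N : E)⁻¹ * w) * ∑ v ∈ words n, φ (gw S 1 v ((N : E)⁻¹ * w))) := by
    refine Reidx_congr S N fun z _ => ?_
    have h2 : ∀ v : List Bool, (N : E)⁻¹ * gw S N v z = gw S 1 v ((N : E)⁻¹ * z) := by
      intro v
      have h3 := XNa_gw S N v ((N : E)⁻¹ * z)
      rw [XNa_inv' hN] at h3
      rw [h3, XNa_inv hN]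
    rw [Finset.sum_congr rfl fun v _ => by rw [h2 v]]
  rw [XNa_SS S hN, XNa_SS S hN]
  rw [e1, e2] at hf hr
  exact le_antisymm hf hr

theorem XNa_GX_gb (S : Sys2) {N : ℕ} (hN : 1 ≤ N) (c : Bool) {y : E} (hy : GX S N y) :
    GX S N (gb S 1 c y) := by
  rw [← XNa_G S hN, ← XNa_gb]
  exact gb_G S N c ((XNa_G S hN y).2 hy)

theorem XNa_GX_T (S : Sys2) {N : ℕ} (hN : 1 ≤ N) {y : E} (hy : GX S N y) :
    GX S N (T S.toSys 1 y) := by
  rw [← XNa_G S hN, ← XNa_T S hN]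
  exact G_T S.toSys N ((XNa_G S hN y).2 hy)

theorem XNa_one (S : Sys2) {N : ℕ} (hN : 1 ≤ N) {z : E} (hz : GX S N z) (h : z.1 = 1) :
    z = 1 := by
  have h1 : ((N : E) * z).1 = N := by rw [XNa_fst, h, mul_one]
  have h2 := Reidx_eqN S N hz.1 h1
  have h3 := XNa_inv hN z
  have h4 := XNa_inv hN 1
  rw [mul_one] at h4
  rw [h2, h4] at h3
  exact h3.symm

end Pool.Agent.H49.PP
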