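import Pool.Agent.H49.PP.Nodes
import Pool.Agent.H49.AB.Reidx
import Pool.Agent.H49.PP.XNa

/-!
# JOBS PP-14 (`GX_*`, `reX`), PP-15 (`GB_X`, `fr_le_X`). The points with denominator `N`

`GX S N z`: `N z ∈ Lam`, `0 ≤ z.1 ≤ 1`. PP-14: model is `AB/Reidx.lean` (there for scaled points `G S N`; here points are not scaled, the maps are `gb S 1`, `T S 1`).
`GX_one`: if `z.1 = 1` then `N z - N ∈ Lam` has first coordinate `0`, so it is `0` (`norm_ge'`), so `z = 1` (`N ≥ 1`). `GX_gb`, `GX_T`, `T_gbX`, `gb_digX`, `gb_injX` as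
`gb_G`, `G_T`, `T_gb`, `gb_dig`, `gb_inj`. `reX` (equality; both inequalities as `fwd`, `rev`, or directly by induction on `n`): needs `u 0 = 0`, `u 1 = 0`.

PP-15. `GB_X`: `z ↦ N z` is an injection of `{z // GX S N z}` into `{z // G S N z}`; `lat_gauss S N` with radii `N r2, N r3` and centres `N c2, N c3`:
`≤ C (1 + N⁴ r2² r3²) ≤ C N⁴ (1 + r2² r3²)` (`ENNReal.tsum_comp_le_tsum_of_injective`). `uP_inv`: if `T^n y = y`, `n ≥ 1`: `∃ m, T^m (T z) = y ↔ ∃ m, T^m z = y`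
(for `m = 0`, `z = y`: `T^(n-1)(T z) = y`). `uP_zero`: `T 0 = 0`, `T 1 = 0`, `y ≠ 0, 1`. `fr_le_X`: the map `w ↦ gw S 1 w y` from `words n` to `{z // GX S N z}` is injective (`gw_inj`;
`GX` of the image by `GX_gb` and induction), `uP y (gw w y) = 1` (`gw_T`), so the finite sum over `words n` is at most the sum over all points
(`ENNReal.tsum_comp_le_tsum_of_injective` or `ENNReal.sum_le_tsum`).
-/

set_option autoImplicit false

namespace Pool.Agent.H49.PP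

open Pool.Agent.H67.Tent Pool.Agent.H49.AB Finset

instance countableGX (S : Sys2) (N : ℕ) [NeZero N] : Countable {z : E // GX S N z} := by
  have hN : (N : ℝ) ≠ 0 := Nat.cast_ne_zero.2 (NeZero.ne N)
  have hNc : (N : ℂ) ≠ 0 := Nat.cast_ne_zero.2 (NeZero.ne N)
  have hinj : Function.Injective (fun z : E => (N : E) * z) := by
    intro x y h
    have h1 : (N : ℝ) * x.1 = (N : ℝ) * y.1 := congrArg Prod.fst h
    have h2 : (N : ℂ) * x.2.1 = (N : ℂ) * y.2.1 := congrArg (fun z : E => z.2.1) h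
    have h3 : (N : ℂ) * x.2.2 = (N : ℂ) * y.2.2 := congrArg (fun z : E => z.2.2) h
    exact Prod.ext (mul_left_cancel₀ hN h1)
      (Prod.ext (mul_left_cancel₀ hNc h2) (mul_left_cancel₀ hNc h3))
  have h : ({z : E | GX S N z}).Countable := by
    refine Set.Countable.mono (s₂ := (fun z : E => (N : E) * z) ⁻¹' (S.Lam : Set E)) ?_ ?_
    · intro z hz
      exact hz.1
    · exact Set.Countable.preimage_of_injOn S.cnt hinj.injOn
  exact h.to_subtype

theorem GX_one (S : Sys2) {N : ℕ} (hN : 1 ≤ N) {z : E} (hz : GX S N z) (h : z.1 = 1) : z = 1 :=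
  XNa_one S hN hz h

theorem GX_gb (S : Sys2) {N : ℕ} (hN : 1 ≤ N) (c : Bool) {y : E} (hy : GX S N y) :
    GX S N (gb S 1 c y) :=
  XNa_GX_gb S hN c hy

theorem GX_gw (S : Sys2) {N : ℕ} (hN : 1 ≤ N) (w : List Bool) {y : E} (hy : GX S N y) :
    GX S N (gw S 1 w y) := by
  induction w with
  | nil => exact hy
  | cons c w ih => exact GX_gb S hN c ih

theorem GX_T (S : Sys2) {N : ℕ} (hN : 1 ≤ N) {y : E} (hy : GX S N y) :
    GX S N (T S.toSys 1 y) :=
  XNa_GX_T S hN hy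

/-- Change of variables. -/
theorem reX (S : Sys2) {N : ℕ} (hN : 1 ≤ N) (u φ : E → ENNReal) (h0 : u 0 = 0) (h1 : u 1 = 0)
    (n : ℕ) : SS (ptX S N) (fun z => u ((T S.toSys 1)^[n] z) * φ z) =
      SS (ptX S N) (fun y => u y * ∑ w ∈ words n, φ (gw S 1 w y)) :=
  XNa_re S hN u φ h0 h1 n

theorem GB_X (S : Sys2) {N : ℕ} (hN : 1 ≤ N) : ∃ K : ℝ, 1 ≤ K ∧ GB (ptX S N) K := by
  obtain ⟨C, hC, h⟩ := lat_gauss S N hN
  have hN0 : (0 : ℝ) < N := by exact_mod_cast hN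
  have hN1 : (1 : ℝ) ≤ N := by exact_mod_cast hN
  have hN4 : (1 : ℝ) ≤ (N : ℝ) ^ 4 := one_le_pow₀ hN1
  refine ⟨C * (N : ℝ) ^ 4, by nlinarith, ?_⟩
  intro r2 r3 c2 c3 h2 h3
  have key := h (N * r2) (N * r3) (N * c2) (N * c3) (by positivity) (by positivity)
  have hG : ∀ z : E, GX S N z → G S.toSys N ((N : E) * z) := by
    intro z hz
    refine ⟨hz.1, ?_, ?_⟩
    · have e : ((N : E) * z).1 = (N : ℝ) * z.1 := rfl
      rw [e]
      exact mul_nonneg hN0.le hz.2.1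
    · have e : ((N : E) * z).1 = (N : ℝ) * z.1 := rfl
      rw [e]
      nlinarith [hz.2.2]
  have hNc : (N : ℂ) ≠ 0 := Nat.cast_ne_zero.2 (by omega)
  have hinj : Function.Injective (fun z : {z : E // GX S N z} =>
      (⟨(N : E) * z.1, hG z.1 z.2⟩ : {z : E // G S.toSys N z})) := by
    intro x y hxy
    have h0 : (N : E) * x.1 = (N : E) * y.1 := congrArg Subtype.val hxy
    have h1 : (N : ℝ) * x.1.1 = (N : ℝ) * y.1.1 := congrArg Prod.fst h0
    have h2 : (N : ℂ) * x.1.2.1 = (N : ℂ) * y.1.2.1 := congrArg (fun z : E => z.2.1) h0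
    have h3 : (N : ℂ) * x.1.2.2 = (N : ℂ) * y.1.2.2 := congrArg (fun z : E => z.2.2) h0
    exact Subtype.ext (Prod.ext (mul_left_cancel₀ hN0.ne' h1)
      (Prod.ext (mul_left_cancel₀ hNc h2) (mul_left_cancel₀ hNc h3)))
  have hsc : ∀ (x c : ℂ) (r : ℝ), ‖(N : ℂ) * x - N * c‖ ^ 2 / ((N : ℝ) * r) ^ 2 =
      ‖x - c‖ ^ 2 / r ^ 2 := by
    intro x c r
    rw [← mul_sub, norm_mul, Complex.norm_natCast, mul_pow, mul_pow]
    exact mul_div_mul_left _ _ (by positivity)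
  have hle : SS (ptX S N) (fun z => ENNReal.ofReal (Real.exp (-(Real.pi *
      (‖z.2.1 - c2‖ ^ 2 / r2 ^ 2 + ‖z.2.2 - c3‖ ^ 2 / r3 ^ 2))))) ≤
      SG S N (fun z => ENNReal.ofReal (Real.exp (-(Real.pi *
        (‖z.2.1 - N * c2‖ ^ 2 / ((N : ℝ) * r2) ^ 2 +
          ‖z.2.2 - N * c3‖ ^ 2 / ((N : ℝ) * r3) ^ 2))))) := by
    refine le_trans (le_of_eq ?_) (ENNReal.tsum_comp_le_tsum_of_injective hinj _)
    refine tsum_congr fun z => ?_
    have e1 : ((N : E) * z.1).2.1 = (N : ℂ) * z.1.2.1 := rfl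
    have e2 : ((N : E) * z.1).2.2 = (N : ℂ) * z.1.2.2 := rfl
    show ENNReal.ofReal (Real.exp (-(Real.pi *
      (‖z.1.2.1 - c2‖ ^ 2 / r2 ^ 2 + ‖z.1.2.2 - c3‖ ^ 2 / r3 ^ 2)))) =
      ENNReal.ofReal (Real.exp (-(Real.pi *
        (‖((N : E) * z.1).2.1 - N * c2‖ ^ 2 / ((N : ℝ) * r2) ^ 2 +
          ‖((N : E) * z.1).2.2 - N * c3‖ ^ 2 / ((N : ℝ) * r3) ^ 2))))
    rw [e1, e2, hsc, hsc]
  refine (hle.trans key).trans (ENNReal.ofReal_le_ofReal ?_)
  have e3 : ((N : ℝ) * r2) ^ 2 * ((N : ℝ) * r3) ^ 2 = (N : ℝ) ^ 4 * (r2 ^ 2 * r3 ^ 2) := by ring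
  rw [e3, mul_assoc]
  refine mul_le_mul_of_nonneg_left ?_ (by linarith)
  nlinarith

theorem uP_inv (S : Sys2) {y : E} {n : ℕ} (hn : 1 ≤ n) (hy : (T S.toSys 1)^[n] y = y) (m : ℕ)
    (z : E) : uP S y ((T S.toSys 1)^[m] z) = uP S y z := by
  have hper : ∀ k : ℕ, (T S.toSys 1)^[n * k] y = y := by
    intro k
    rw [Function.iterate_mul]
    exact Function.iterate_fixed hy k
  have hiff : (∃ k : ℕ, (T S.toSys 1)^[k] ((T S.toSys 1)^[m] z) = y) ↔
      ∃ k : ℕ, (T S.toSys 1)^[k] z = y := by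
    constructor
    · rintro ⟨k, hk⟩
      refine ⟨k + m, ?_⟩
      rw [Function.iterate_add_apply]
      exact hk
    · rintro ⟨k, hk⟩
      refine ⟨k + n * m - m, ?_⟩
      have h1 : m ≤ n * m := Nat.le_mul_of_pos_left m hn
      rw [← Function.iterate_add_apply, show k + n * m - m + m = n * m + k from by omega,
        Function.iterate_add_apply, hk, hper m]
  unfold uP
  by_cases h : ∃ k : ℕ, (T S.toSys 1)^[k] z = y
  · rw [if_pos (hiff.2 h), if_pos h]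
  · rw [if_neg (fun h' => h (hiff.1 h')), if_neg h]

theorem uP_zero (S : Sys2) {y : E} (h0 : 0 < y.1) (h1 : y.1 < 1) : uP S y 0 = 0 ∧ uP S y 1 = 0 := by
  constructor
  · unfold uP
    rw [if_neg]
    rintro ⟨m, hm⟩
    rw [Reidx_iter0] at hm
    rw [← hm] at h0
    exact lt_irrefl _ h0
  · unfold uP
    rw [if_neg]
    rintro ⟨m, hm⟩
    rcases m with _ | m
    · rw [Function.iterate_zero, id] at hm
      rw [← hm] at h1
      exact lt_irrefl _ h1
    · rw [Function.iterate_succ_apply] at hm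
      have hT : T S.toSys 1 (1 : E) = 0 := by
        have h2 := Reidx_TN S 1 le_rfl
        rwa [Nat.cast_one] at h2
      rw [hT, Reidx_iter0] at hm
      rw [← hm] at h0
      exact lt_irrefl _ h0

theorem fr_le_X (S : Sys2) {N : ℕ} (hN : 1 ≤ N) {y : E} (hy : GX S N y) (h0 : 0 < y.1)
    (h1 : y.1 < 1) (n : ℕ) (L : ℝ) : ENNReal.ofReal (fr S n L y * Real.exp L ^ 2) ≤
      SmX S N (Real.exp L) 1 (uP S y) := by
  have e0 : fr S n L y * Real.exp L ^ 2 =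
      ∑ w ∈ words n, gs (Real.exp L) 1 (gw S 1 w y) := by
    unfold fr
    exact div_mul_cancel₀ _ (by positivity)
  rw [e0, ENNReal.ofReal_sum_of_nonneg fun w _ => (gs_pos _ _ _).le]
  have hu : ∀ w : List Bool, uP S y (gw S 1 w y) = 1 := by
    intro w
    unfold uP
    rw [if_pos ⟨w.length, gw_T S w h0 h1⟩]
  have hinj : Function.Injective (fun w : {w // w ∈ words n} =>
      (⟨gw S 1 w.1 y, GX_gw S hN w.1 hy⟩ : {z : E // GX S N z})) := by
    intro w w' h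
    exact Subtype.ext (gw_inj S n h0 h1 w.2 w'.2 (congrArg Subtype.val h))
  unfold SmX SS
  refine le_trans (le_of_eq ?_) (ENNReal.tsum_comp_le_tsum_of_injective hinj _)
  rw [tsum_fintype, ← Finset.sum_coe_sort (words n)
    (fun w => ENNReal.ofReal (gs (Real.exp L) 1 (gw S 1 w y)))]
  refine Finset.sum_congr rfl fun w _ => ?_
  show ENNReal.ofReal (gs (Real.exp L) 1 (gw S 1 w.1 y)) =
    uP S y (gw S 1 w.1 y) * ENNReal.ofReal (gs (Real.exp L) 1 (gw S 1 w.1 y))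
  rw [hu, one_mul]

end Pool.Agent.H49.PP
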