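import Pool.Agent.H49.PP.StepL
import Pool.Agent.H49.PP.XN

/-!
# JOB PP-16. The lower step for an invariant set of points with denominator `N`

`stepL` with the family `ptX S N` (`GB_X`; countable by `countableGX`, `haveI : NeZero N := ⟨by omega⟩`) and the invariant function `u`. By `reX` (`n = 17 o`) and the
invariance `SS (u y * ∑_{w ∈ words (17 o)} ofReal (gs R Q (gw w y))) = SmX R Q u`, and in the same way with `16 o`, `R ‖W'‖_2`, `1`. For the `(a', b') ∈ AD o` with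
`‖W'‖_2 ≤ exp(-o/50)` the hypothesis gives `SmX (R‖W'‖_2) 1 u ≥ ofReal (B (R‖W'‖_2)²)`; the coefficient is `card' (Q ‖W'‖_3)²`, so the term is `≥ ofReal (B bn(a',b') R² Q²)`
(`card_cls`, `W1`, `W_prod`). The sum of `bn` over these pairs is `≥ 1 - 0.984^o` (`atyp2`, `step_sum_bin`). So
`ofReal (B (1 - 0.984^o) R² Q²) ≤ SmX R Q u + ofReal (K C/o^A R² Q²)`. The result follows (`ENNReal.ofReal_add`, subtraction; if the coefficient
`(1 - 0.984^o) B - C/o^A` is negative there is nothing to prove), with `C := K C`.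
-/

set_option autoImplicit false

namespace Pool.Agent.H49.PP

open Pool.Agent.H67.Tent Pool.Agent.H49.AB Finset

theorem stepX (S : Sys2) {N : ℕ} (hN : 1 ≤ N) (A : ℕ) : ∃ (C : ℝ) (o0 : ℕ), 1 ≤ C ∧ 1 ≤ o0 ∧
    ∀ (u : E → ENNReal), (∀ y, u y ≤ 1) → u 0 = 0 → u 1 = 0 →
      (∀ (m : ℕ) (z : E), u ((T S.toSys 1)^[m] z) = u z) →
    ∀ (o : ℕ) (R Q B : ℝ), o0 ≤ o → Real.exp (40 * o) ≤ R → 1 ≤ Q → Q ≤ (7 / 6) ^ o → 0 ≤ B →
      (∀ a' b', a' + b' = o → ‖(W S a' b').2.1‖ ≤ Real.exp (-(o : ℝ) / 50) →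
        ENNReal.ofReal (B * (R * ‖(W S a' b').2.1‖) ^ 2) ≤ SmX S N (R * ‖(W S a' b').2.1‖) 1 u) →
      ENNReal.ofReal (((1 - 0.984 ^ o) * B - C / (o : ℝ) ^ A) * (R ^ 2 * Q ^ 2)) ≤
        SmX S N R Q u := by
  classical
  obtain ⟨K, hK, hG⟩ := GB_X S hN
  obtain ⟨C, o0, hC, ho0, H⟩ := stepL S A
  refine ⟨K * C, o0, by nlinarith, ho0, ?_⟩
  intro u hu h0 h1 hinv o R Q B ho hR hQ hQ' hB hS
  haveI : NeZero N := ⟨by omega⟩
  have key := H (ptX S N) K hK hG o R Q u ho hR hQ hQ' hu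
  -- change of variables
  have re : ∀ (n : ℕ) (r q : ℝ), SS (ptX S N) (fun y => u y * ∑ w ∈ words n,
      ENNReal.ofReal (gs r q (gw S 1 w y))) = SmX S N r q u := by
    intro n r q
    rw [← reX S hN u (fun z => ENNReal.ofReal (gs r q z)) h0 h1 n]
    unfold SmX
    exact SS_congr _ fun i => by rw [hinv]
  rw [re (17 * o) R Q] at key
  have e1 : ∑ x ∈ AD o, ENNReal.ofReal ((cls x.1 x.2).card * (Q * ‖(W S x.1 x.2).2.2‖) ^ 2) *
          SS (ptX S N) (fun y => u y * ∑ w ∈ words (16 * o),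
            ENNReal.ofReal (gs (R * ‖(W S x.1 x.2).2.1‖) 1 (gw S 1 w y)))
      = ∑ x ∈ AD o, ENNReal.ofReal ((cls x.1 x.2).card * (Q * ‖(W S x.1 x.2).2.2‖) ^ 2) *
          SmX S N (R * ‖(W S x.1 x.2).2.1‖) 1 u := by
    refine Finset.sum_congr rfl fun x _ => ?_
    rw [re (16 * o)]
  rw [e1] at key
  set X : ℝ := R ^ 2 * Q ^ 2 with hX
  have hX0 : 0 ≤ X := by positivity
  let nv : ℕ × ℕ → ℝ := fun x =>
    if ‖(W S x.1 x.2).2.1‖ ≤ Real.exp (-(o : ℝ) / 50) then 0 else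
      bin (S.a.1)⁻¹ (S.b.1)⁻¹ x.1 x.2
  have hnv : ∀ x, nv x ≤ bin (S.a.1)⁻¹ (S.b.1)⁻¹ x.1 x.2 := by
    intro x
    simp only [nv]
    split_ifs
    · exact bin_nonneg (inv_nonneg.2 (ap S).le) (inv_nonneg.2 (bp S).le) x.1 x.2
    · exact le_rfl
  have low : ENNReal.ofReal (B * (1 - 0.984 ^ o) * X) ≤
      ∑ x ∈ AD o, ENNReal.ofReal ((cls x.1 x.2).card * (Q * ‖(W S x.1 x.2).2.2‖) ^ 2) *
          SmX S N (R * ‖(W S x.1 x.2).2.1‖) 1 u := by
    have t1 : ∀ x ∈ AD o, ENNReal.ofReal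
        (B * (bin (S.a.1)⁻¹ (S.b.1)⁻¹ x.1 x.2 - nv x) * X) ≤
        ENNReal.ofReal ((cls x.1 x.2).card * (Q * ‖(W S x.1 x.2).2.2‖) ^ 2) *
          SmX S N (R * ‖(W S x.1 x.2).2.1‖) 1 u := by
      intro x hx
      rw [mem_AD] at hx
      by_cases hv : ‖(W S x.1 x.2).2.1‖ ≤ Real.exp (-(o : ℝ) / 50)
      · have e2 : nv x = 0 := if_pos hv
        have h2 := hS x.1 x.2 hx hv
        refine le_trans ?_ (mul_le_mul_right h2 _)
        rw [← ENNReal.ofReal_mul (by positivity)]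
        refine ENNReal.ofReal_le_ofReal (le_of_eq ?_)
        have hp := W_prod S x.1 x.2
        have h3 := (W1_pos S x.1 x.2).ne'
        have h4 : ‖(W S x.1 x.2).2.1‖ ^ 2 * ‖(W S x.1 x.2).2.2‖ ^ 2
            = 1 / |(W S x.1 x.2).1| := by
          rw [eq_div_iff h3, ← hp]
          ring
        rw [e2, ← step_card_div S x.1 x.2, hX]
        calc _ = (cls x.1 x.2).card * B * (R ^ 2 * Q ^ 2) * (1 / |(W S x.1 x.2).1|) := by ring
          _ = (cls x.1 x.2).card * B * (R ^ 2 * Q ^ 2) *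
              (‖(W S x.1 x.2).2.1‖ ^ 2 * ‖(W S x.1 x.2).2.2‖ ^ 2) := by rw [h4]
          _ = _ := by ring
      · have e2 : nv x = bin (S.a.1)⁻¹ (S.b.1)⁻¹ x.1 x.2 := if_neg hv
        rw [e2, sub_self, mul_zero, zero_mul, ENNReal.ofReal_zero]
        exact zero_le
    refine le_trans ?_ (Finset.sum_le_sum t1)
    rw [← ENNReal.ofReal_sum_of_nonneg (fun x _ => by
      have := hnv x
      have h5 : 0 ≤ bin (S.a.1)⁻¹ (S.b.1)⁻¹ x.1 x.2 - nv x := by linarith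
      positivity)]
    refine ENNReal.ofReal_le_ofReal ?_
    rw [← Finset.sum_mul, ← Finset.mul_sum, Finset.sum_sub_distrib, step_sum_bin S o]
    have t2 : ∑ x ∈ AD o, nv x ≤ 0.984 ^ o := atyp2 S o
    refine mul_le_mul_of_nonneg_right ?_ hX0
    refine mul_le_mul_of_nonneg_left ?_ hB
    linarith
  have fin := low.trans key
  have e3 : ((1 - 0.984 ^ o) * B - K * C / (o : ℝ) ^ A) * X
      = B * (1 - 0.984 ^ o) * X - K * C / (o : ℝ) ^ A * X := by ring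
  rw [e3, ENNReal.ofReal_sub _ (by positivity)]
  exact tsub_le_iff_right.2 fin

end Pool.Agent.H49.PP
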