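import Pool.Agent.H49.PP.Fam

/-!
# PP: from sums over a family to integrals (copy of `AB/Transfer.lean` for families)
-/

set_option autoImplicit false

namespace Pool.Agent.H49.PP

open Pool.Agent.H67.Tent Pool.Agent.H49.AB Finset MeasureTheory

theorem TransferX_fix {ι : Type} (pt : ι → E) {C : ℝ} (hC : 1 ≤ C) (h : GB pt C)
    {ρ s : ℝ} (hρ : 0 < ρ) (hs : 0 < s) (hρs : 1 ≤ ρ * s) (z : ℂ) :
    SS pt (fun y => ENNReal.ofReal (Real.exp (-(Real.pi * (‖y.2.1‖ ^ 2 / ρ ^ 2))) *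
      Nd s (y.2.2 - z))) ≤ ENNReal.ofReal (2 * C * ρ ^ 2) := by
  have e : (fun y : E => ENNReal.ofReal (Real.exp (-(Real.pi * (‖y.2.1‖ ^ 2 / ρ ^ 2))) *
      Nd s (y.2.2 - z))) = fun y : E => ENNReal.ofReal (1 / s ^ 2) * ENNReal.ofReal (Real.exp
        (-(Real.pi * (‖y.2.1 - 0‖ ^ 2 / ρ ^ 2 + ‖y.2.2 - z‖ ^ 2 / s ^ 2)))) := by
    funext y
    rw [← ENNReal.ofReal_mul (by positivity)]
    congr 1
    unfold Nd
    rw [sub_zero, mul_add, neg_add, Real.exp_add]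
    ring
  rw [e]
  have e2 : SS pt (fun y : E => ENNReal.ofReal (1 / s ^ 2) * ENNReal.ofReal (Real.exp
        (-(Real.pi * (‖y.2.1 - 0‖ ^ 2 / ρ ^ 2 + ‖y.2.2 - z‖ ^ 2 / s ^ 2))))) =
      ENNReal.ofReal (1 / s ^ 2) * SS pt (fun y : E => ENNReal.ofReal (Real.exp
        (-(Real.pi * (‖y.2.1 - 0‖ ^ 2 / ρ ^ 2 + ‖y.2.2 - z‖ ^ 2 / s ^ 2))))) :=
    ENNReal.tsum_mul_left
  rw [e2]
  refine (mul_le_mul_right (h ρ s 0 z hρ hs) _).trans ?_
  rw [← ENNReal.ofReal_mul (by positivity)]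
  refine ENNReal.ofReal_le_ofReal ?_
  have h1 : 1 ≤ ρ ^ 2 * s ^ 2 := by
    rw [← mul_pow]
    exact one_le_pow₀ hρs
  rw [one_div, inv_mul_le_iff₀ (by positivity)]
  nlinarith

theorem transferX {ι : Type} [Countable ι] (pt : ι → E) {C : ℝ} (hC : 1 ≤ C) (h : GB pt C) :
    ∀ (ρ s : ℝ) (D : ℂ → ℝ), 0 < ρ → 0 < s → 1 ≤ ρ * s → Continuous D →
      SS pt (fun y => ENNReal.ofReal (Real.exp (-(Real.pi * (‖y.2.1‖ ^ 2 / ρ ^ 2))) *
        |∫ z : ℂ, Nd s (y.2.2 - z) * D z|)) ≤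
      ENNReal.ofReal (2 * C * ρ ^ 2) * ∫⁻ z : ℂ, ENNReal.ofReal |D z| := by
  intro ρ s D hρ hs hρs hD
  have step1 : ∀ y : E, ENNReal.ofReal (Real.exp (-(Real.pi * (‖y.2.1‖ ^ 2 / ρ ^ 2))) *
        |∫ z : ℂ, Nd s (y.2.2 - z) * D z|) ≤
      ∫⁻ z : ℂ, ENNReal.ofReal (Real.exp (-(Real.pi * (‖y.2.1‖ ^ 2 / ρ ^ 2))) *
        Nd s (y.2.2 - z)) * ENNReal.ofReal |D z| := by
    intro y
    have h1 : ENNReal.ofReal |∫ z : ℂ, Nd s (y.2.2 - z) * D z| ≤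
        ∫⁻ z : ℂ, ENNReal.ofReal (Nd s (y.2.2 - z)) * ENNReal.ofReal |D z| := by
      have h2 := enorm_integral_le_lintegral_enorm (μ := volume)
        (fun z : ℂ => Nd s (y.2.2 - z) * D z)
      rw [Real.enorm_eq_ofReal_abs] at h2
      refine h2.trans (le_of_eq (lintegral_congr fun z => ?_))
      rw [Real.enorm_eq_ofReal_abs, abs_mul, abs_of_nonneg (Transfer_nd_nonneg s _),
        ENNReal.ofReal_mul (Transfer_nd_nonneg s _)]
    rw [ENNReal.ofReal_mul (Real.exp_pos _).le]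
    refine (mul_le_mul_right h1 _).trans (le_of_eq ?_)
    rw [← lintegral_const_mul']
    · refine lintegral_congr fun z => ?_
      rw [ENNReal.ofReal_mul (Real.exp_pos _).le, mul_assoc]
    · exact ENNReal.ofReal_ne_top
  have step2 : SS pt (fun y => ∫⁻ z : ℂ, ENNReal.ofReal
        (Real.exp (-(Real.pi * (‖y.2.1‖ ^ 2 / ρ ^ 2))) * Nd s (y.2.2 - z)) *
          ENNReal.ofReal |D z|) =
      ∫⁻ z : ℂ, SS pt (fun y => ENNReal.ofReal
        (Real.exp (-(Real.pi * (‖y.2.1‖ ^ 2 / ρ ^ 2))) * Nd s (y.2.2 - z)) *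
          ENNReal.ofReal |D z|) := by
    unfold SS
    rw [lintegral_tsum]
    intro y
    have m1 : Measurable fun z : ℂ => ENNReal.ofReal
        (Real.exp (-(Real.pi * (‖(pt y).2.1‖ ^ 2 / ρ ^ 2))) * Nd s ((pt y).2.2 - z)) := by
      refine Measurable.ennreal_ofReal (Continuous.measurable ?_)
      have := Transfer_nd_cont s
      fun_prop
    have m2 : Measurable fun z : ℂ => ENNReal.ofReal |D z| := by
      refine Measurable.ennreal_ofReal (Continuous.measurable ?_)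
      fun_prop
    exact (m1.mul m2).aemeasurable
  calc _ ≤ SS pt (fun y => ∫⁻ z : ℂ, ENNReal.ofReal
        (Real.exp (-(Real.pi * (‖y.2.1‖ ^ 2 / ρ ^ 2))) * Nd s (y.2.2 - z)) *
          ENNReal.ofReal |D z|) := ENNReal.tsum_le_tsum fun y => step1 (pt y)
    _ = _ := step2
    _ ≤ ∫⁻ z : ℂ, ENNReal.ofReal (2 * C * ρ ^ 2) * ENNReal.ofReal |D z| := by
      refine lintegral_mono fun z => ?_
      have e3 : SS pt (fun y => ENNReal.ofReal
        (Real.exp (-(Real.pi * (‖y.2.1‖ ^ 2 / ρ ^ 2))) * Nd s (y.2.2 - z)) *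
          ENNReal.ofReal |D z|) = SS pt (fun y => ENNReal.ofReal
        (Real.exp (-(Real.pi * (‖y.2.1‖ ^ 2 / ρ ^ 2))) * Nd s (y.2.2 - z))) *
          ENNReal.ofReal |D z| := ENNReal.tsum_mul_right
      show SS pt (fun y => ENNReal.ofReal
        (Real.exp (-(Real.pi * (‖y.2.1‖ ^ 2 / ρ ^ 2))) * Nd s (y.2.2 - z)) *
          ENNReal.ofReal |D z|) ≤ _
      rw [e3]
      exact mul_le_mul_left (TransferX_fix pt hC h hρ hs hρs z) _
    _ = _ := by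
      rw [lintegral_const_mul' _ _ ENNReal.ofReal_ne_top]

end Pool.Agent.H49.PP
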