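import Pool.Agent.H49.PP.BinLoc
import Pool.Agent.H49.PP.Num

/-!
# JOB PP-07. The probability to stay in the window

Put `D = L - gam2 n`, `|D| ≤ √n`, `n' = n - o`. By `lw_eq`: `L + lw(i,j) - gam2 n' = D - del2 (j - q o)`. As `1000 o ≤ n ≤ 2000 o`:
`√n - √n' = o/(√n + √n') ≤ 0.04 √o` and `√n' ≥ 0.99 √n ≥ 31 √o`. If `D ≥ 0` take the `j` with `0.1 √o ≤ j - q o ≤ 2 √o`: then
`D - del2 (j - q o) ≤ √n - 0.06 √o ≤ √n'` and `≥ -1.4 √o ≥ -√n'`. There are at least `√o` such integers `j` (an interval of length `1.9 √o` contains at least `1.9 √o - 1 ≥ √o`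
integers for `o ≥ 4`) and they satisfy `0 ≤ j ≤ o` for `o` large; each has `bn ≥ c/√o` (`bin_local` with `K = 2`, `q = 1/β`). If `D < 0` take
`-2 √o ≤ j - q o ≤ -0.1 √o`. So `p1 = c`.
-/

set_option autoImplicit false

namespace Pool.Agent.H49.PP

open Pool.Agent.H67.Tent Pool.Agent.H49.AB Finset

theorem Window_sum (o : ℕ) (P : ℕ × ℕ → Prop) [DecidablePred P] (f : ℕ × ℕ → ℝ)
    (hf : ∀ x, 0 ≤ f x) (lo hi s c : ℝ) (hs : 0 < s) (hc : 0 ≤ c) (h0 : 0 ≤ lo) (h1 : hi ≤ o)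
    (h2 : s ≤ hi - lo - 1)
    (h3 : ∀ j : ℕ, lo ≤ j → (j : ℝ) ≤ hi → P (o - j, j) ∧ c / s ≤ f (o - j, j)) :
    c ≤ ∑ x ∈ (AD o).filter P, f x := by
  have hhi : 0 ≤ hi := by linarith
  set J : Finset ℕ := Finset.Icc ⌈lo⌉₊ ⌊hi⌋₊ with hJ
  have hmem : ∀ j ∈ J, lo ≤ j ∧ (j : ℝ) ≤ hi := by
    intro j hj
    rw [hJ, Finset.mem_Icc] at hj
    exact ⟨Nat.ceil_le.1 hj.1, (Nat.le_floor_iff hhi).1 hj.2⟩
  have hcard : s ≤ (J.card : ℝ) := by
    rw [hJ, Nat.card_Icc]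
    have e1 : hi < (⌊hi⌋₊ : ℝ) + 1 := Nat.lt_floor_add_one hi
    have e2 : (⌈lo⌉₊ : ℝ) < lo + 1 := Nat.ceil_lt_add_one h0
    have e3 : (⌊hi⌋₊ + 1 : ℕ) ≤ (⌊hi⌋₊ + 1 - ⌈lo⌉₊) + ⌈lo⌉₊ := le_tsub_add
    have e4 : ((⌊hi⌋₊ + 1 : ℕ) : ℝ) ≤ ((⌊hi⌋₊ + 1 - ⌈lo⌉₊ : ℕ) : ℝ) + (⌈lo⌉₊ : ℝ) := by
      exact_mod_cast e3
    push_cast at e4 ⊢
    linarith
  have hinj : Set.InjOn (fun j : ℕ => (o - j, j)) (J : Set ℕ) := by
    intro a _ b _ h
    exact (Prod.mk.inj h).2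
  have hsub : J.image (fun j : ℕ => (o - j, j)) ⊆ (AD o).filter P := by
    intro x hx
    obtain ⟨j, hj, rfl⟩ := Finset.mem_image.1 hx
    obtain ⟨g1, g2⟩ := hmem j hj
    have g3 : j ≤ o := by exact_mod_cast g2.trans h1
    refine Finset.mem_filter.2 ⟨?_, (h3 j g1 g2).1⟩
    rw [mem_AD]
    show o - j + j = o
    omega
  calc c = s * (c / s) := by field_simp
    _ ≤ (J.card : ℝ) * (c / s) := mul_le_mul_of_nonneg_right hcard (by positivity)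
    _ = ∑ _j ∈ J, c / s := by rw [Finset.sum_const, nsmul_eq_mul]
    _ ≤ ∑ j ∈ J, f (o - j, j) := Finset.sum_le_sum fun j hj =>
        (h3 j (hmem j hj).1 (hmem j hj).2).2
    _ = ∑ x ∈ J.image (fun j : ℕ => (o - j, j)), f x := (Finset.sum_image hinj).symm
    _ ≤ ∑ x ∈ (AD o).filter P, f x :=
        Finset.sum_le_sum_of_subset_of_nonneg hsub fun x _ _ => hf x

/-- the value at a pair -/
theorem Window_val (S : Sys2) {n o j : ℕ} (hj : j ≤ o) (ho : o ≤ n) (L : ℝ) :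
    L + lw S (o - j) j - gam2 S * (n - o : ℕ) =
      (L - gam2 S * n) - del2 S * (j - (S.b.1)⁻¹ * o) := by
  rw [lw_eq, Nat.cast_sub hj, Nat.cast_sub ho]
  ring

theorem Window_sqrt {n o : ℕ} (ho : 1 ≤ o) (h : 1000 * o ≤ n) :
    31 * Real.sqrt o ≤ Real.sqrt (n - o : ℕ) ∧
      Real.sqrt n - 0.06 * Real.sqrt o ≤ Real.sqrt (n - o : ℕ) := by
  have hon : o ≤ n := by omega
  have hc : ((n - o : ℕ) : ℝ) = (n : ℝ) - o := Nat.cast_sub hon
  have hn : (1000 : ℝ) * o ≤ n := by exact_mod_cast h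
  have ho' : (1 : ℝ) ≤ o := by exact_mod_cast ho
  have hs : 0 < Real.sqrt o := Real.sqrt_pos.2 (by linarith)
  have hs2 : Real.sqrt o ^ 2 = o := Real.sq_sqrt (by linarith)
  have ht2 : Real.sqrt (n - o : ℕ) ^ 2 = (n : ℝ) - o := by
    rw [Real.sq_sqrt (Nat.cast_nonneg _), hc]
  have ht0 : 0 ≤ Real.sqrt (n - o : ℕ) := Real.sqrt_nonneg _
  have hu2 : Real.sqrt n ^ 2 = n := Real.sq_sqrt (Nat.cast_nonneg _)
  have h31 : 31 * Real.sqrt o ≤ Real.sqrt (n - o : ℕ) := by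
    apply Real.le_sqrt_of_sq_le
    rw [hc, mul_pow, hs2]
    linarith
  refine ⟨h31, ?_⟩
  have h5 : Real.sqrt n ≤ Real.sqrt (n - o : ℕ) + 0.06 * Real.sqrt o := by
    apply Real.sqrt_le_iff.2
    refine ⟨by positivity, ?_⟩
    have e1 : (Real.sqrt (n - o : ℕ) + 0.06 * Real.sqrt o) ^ 2 =
        Real.sqrt (n - o : ℕ) ^ 2 + 0.12 * (Real.sqrt (n - o : ℕ) * Real.sqrt o)
          + 0.0036 * Real.sqrt o ^ 2 := by ring
    rw [e1, ht2, hs2]
    have e2 : 31 * Real.sqrt o * Real.sqrt o ≤ Real.sqrt (n - o : ℕ) * Real.sqrt o :=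
      mul_le_mul_of_nonneg_right h31 hs.le
    have e3 : 31 * Real.sqrt o * Real.sqrt o = 31 * o := by
      rw [mul_assoc, ← pow_two, hs2]
    rw [e3] at e2
    linarith
  linarith

open Classical in
theorem window_prob (S : Sys2) : ∃ (p1 : ℝ) (n1 : ℕ), 0 < p1 ∧ p1 ≤ 1 ∧
    ∀ (n o : ℕ) (L : ℝ), n1 ≤ n → n ≤ 2000 * o → 1000 * o ≤ n →
      |L - gam2 S * n| ≤ Real.sqrt n →
      p1 ≤ ∑ x ∈ (AD o).filter
        (fun x => |L + lw S x.1 x.2 - gam2 S * (n - o : ℕ)| ≤ Real.sqrt (n - o : ℕ)),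
        bn S x.1 x.2 := by
  obtain ⟨c, n0, hc, hc1, hn0, hb⟩ := bin_local (S.a.1)⁻¹ (S.b.1)⁻¹ (inv_pos.2 (ap S))
    (inv_pos.2 (bp S)) (pq S) 2 (by norm_num)
  refine ⟨c, 2000 * (n0 + 10000), hc, hc1, ?_⟩
  intro n o L hn h1 h2 hL
  have hoN : n0 + 10000 ≤ o := by omega
  have ho1 : 1 ≤ o := by omega
  have hon : o ≤ n := by omega
  obtain ⟨g31, g6⟩ := Window_sqrt ho1 h2
  have hoR : (10000 : ℝ) ≤ o := by
    have : 10000 ≤ o := by omega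
    exact_mod_cast this
  have hs2 : Real.sqrt o ^ 2 = o := Real.sq_sqrt (by linarith)
  have hs100 : 100 ≤ Real.sqrt o := by
    apply Real.le_sqrt_of_sq_le
    linarith
  have hso : 100 * Real.sqrt o ≤ o := by nlinarith
  have hql := ql S
  have hqu := qu S
  obtain ⟨hd1, hd2⟩ := del2_bd S
  have habs := abs_le.1 hL
  have hbin : ∀ j : ℕ, j ≤ o → |(j : ℝ) - (S.b.1)⁻¹ * o| ≤ 2 * Real.sqrt o →
      c / Real.sqrt o ≤ bn S (o - j) j := by
    intro j hj hx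
    have e : o - j + j = o := by omega
    have := hb (o - j) j (by omega)
    rw [e] at this
    exact this hx
  have hqo : (S.b.1)⁻¹ * o ≤ 0.1914 * o := mul_le_mul_of_nonneg_right hqu (by linarith)
  have hqo' : 0.1912 * o ≤ (S.b.1)⁻¹ * o := mul_le_mul_of_nonneg_right hql (by linarith)
  have hpos : 0 < Real.sqrt o := by linarith
  by_cases hD : 0 ≤ L - gam2 S * n
  · apply Window_sum o _ (fun x => bn S x.1 x.2) (fun x => bn_nonneg S _ _)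
      ((S.b.1)⁻¹ * o + 0.1 * Real.sqrt o) ((S.b.1)⁻¹ * o + 2 * Real.sqrt o) (Real.sqrt o) c
      hpos hc.le (by linarith) (by linarith) (by linarith)
    intro j hj1 hj2
    have hjo : j ≤ o := by
      have : (j : ℝ) ≤ o := by linarith
      exact_mod_cast this
    refine ⟨?_, hbin j hjo (abs_le.2 ⟨by linarith, by linarith⟩)⟩
    show |L + lw S (o - j) j - gam2 S * (n - o : ℕ)| ≤ Real.sqrt (n - o : ℕ)
    rw [Window_val S hjo hon]
    have k1 : 0.6 * (0.1 * Real.sqrt o) ≤ del2 S * (j - (S.b.1)⁻¹ * o) :=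
      mul_le_mul hd1 (by linarith) (by positivity) (by linarith)
    have k2 : del2 S * (j - (S.b.1)⁻¹ * o) ≤ 0.7 * (2 * Real.sqrt o) :=
      mul_le_mul hd2 (by linarith) (by linarith) (by norm_num)
    exact abs_le.2 ⟨by linarith, by linarith⟩
  · push Not at hD
    apply Window_sum o _ (fun x => bn S x.1 x.2) (fun x => bn_nonneg S _ _)
      ((S.b.1)⁻¹ * o - 2 * Real.sqrt o) ((S.b.1)⁻¹ * o - 0.1 * Real.sqrt o) (Real.sqrt o) c
      hpos hc.le (by linarith) (by linarith) (by linarith)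
    intro j hj1 hj2
    have hjo : j ≤ o := by
      have : (j : ℝ) ≤ o := by linarith
      exact_mod_cast this
    refine ⟨?_, hbin j hjo (abs_le.2 ⟨by linarith, by linarith⟩)⟩
    show |L + lw S (o - j) j - gam2 S * (n - o : ℕ)| ≤ Real.sqrt (n - o : ℕ)
    rw [Window_val S hjo hon]
    have k1 : 0.6 * (0.1 * Real.sqrt o) ≤ del2 S * ((S.b.1)⁻¹ * o - j) :=
      mul_le_mul hd1 (by linarith) (by positivity) (by linarith)
    have k2 : del2 S * ((S.b.1)⁻¹ * o - j) ≤ 0.7 * (2 * Real.sqrt o) :=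
      mul_le_mul hd2 (by linarith) (by linarith) (by norm_num)
    have k3 : del2 S * ((S.b.1)⁻¹ * o - j) = -(del2 S * (j - (S.b.1)⁻¹ * o)) := by ring
    rw [k3] at k1 k2
    exact abs_le.2 ⟨by linarith, by linarith⟩

end Pool.Agent.H49.PP
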